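import Pool.Agent.TH204.HP.H15

/-!
The core for several polynomials: simultaneous prime values give a rational point.
-/

set_option autoImplicit false

namespace Pool.Agent.Y714.RC

open Finset Polynomial
open Pool.Agent.W313.BMX (Splits splits_swap splits_comm splits_mul_sq)
open Pool.Agent.TH204.HP

/-- the value of the shifted polynomial -/
noncomputable def PP {s : ℕ} (g : Fin s → ℤ[X]) (k : Fin s → ℤ) (j : Fin s) {F : Type} [Field F] (v : F) : F :=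
  aeval v (g j) + (k j : F)

lemma splits_mul_sq' {F : Type} [Field F] {a b c : F} (hc : c ≠ 0) : Splits a (b * c ^ 2) ↔ Splits a b := by
  rw [splits_comm, splits_mul_sq hc, splits_comm]

/-- the value at a nearby integer, up to squares -/
lemma val_sq (f : ℤ[X]) (T : Finset Nat.Primes) (N E : ℕ) (hE : (2 * f.natDegree + 1) * N + 3 ≤ E) (k : ℤ)
    (p : Nat.Primes) (hp : p ∈ T) (t : ℚ_[(p : ℕ)]) (ht1 : ‖t‖ ≤ ((p : ℕ) : ℝ) ^ N)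
    (ht2 : (((p : ℕ) : ℝ) ^ N)⁻¹ ≤ ‖aeval t f + (k : ℚ_[(p : ℕ)])‖) (u : ℤ) (D : ℕ) (hD : D = ∏ p ∈ T, (p : ℕ) ^ N)
    (hu : ‖(u : ℚ_[(p : ℕ)]) - D * t‖ ≤ (((p : ℕ) : ℝ) ^ E)⁻¹) (val : ℤ)
    (hv : (GG f D).eval u + (D : ℤ) ^ (2 * f.natDegree) * k = val) :
    ∃ σ : ℚ_[(p : ℕ)], σ ≠ 0 ∧ (val : ℚ_[(p : ℕ)]) = (aeval t f + (k : ℚ_[(p : ℕ)])) * σ ^ 2 := by
  have hD0 : D ≠ 0 := by rw [hD]; exact prod_ne_zero_iff.2 fun p _ => pow_ne_zero _ p.2.ne_zero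
  obtain ⟨d, hdd⟩ : ∃ d, d = f.natDegree := ⟨_, rfl⟩
  rw [← hdd] at hE hv
  have hDn : ‖(D : ℚ_[(p : ℕ)])‖ = (((p : ℕ) : ℝ) ^ N)⁻¹ := by
    rw [hD]
    exact norm_D T N p hp
  have hppos : (0 : ℝ) < ((p : ℕ) : ℝ) := by exact_mod_cast p.2.pos
  have hone : (1 : ℝ) ≤ ((p : ℕ) : ℝ) := by exact_mod_cast p.2.one_lt.le
  obtain ⟨y, hy⟩ : ∃ y : ℚ_[(p : ℕ)], y = (D : ℚ_[(p : ℕ)]) ^ (2 * d) * (aeval t f + k) := ⟨_, rfl⟩
  have hfk0 : aeval t f + (k : ℚ_[(p : ℕ)]) ≠ 0 := by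
    intro h0
    rw [h0, norm_zero] at ht2
    have : (0 : ℝ) < (((p : ℕ) : ℝ) ^ N)⁻¹ := by positivity
    linarith
  have hDF : (D : ℚ_[(p : ℕ)]) ≠ 0 := by exact_mod_cast hD0
  have hy0 : y ≠ 0 := by rw [hy]; exact mul_ne_zero (pow_ne_zero _ hDF) hfk0
  have hyn : (((p : ℕ) : ℝ) ^ ((2 * d + 1) * N))⁻¹ ≤ ‖y‖ := by
    rw [hy, norm_mul, norm_pow, hDn]
    calc (((p : ℕ) : ℝ) ^ ((2 * d + 1) * N))⁻¹ = ((((p : ℕ) : ℝ) ^ N)⁻¹) ^ (2 * d) * (((p : ℕ) : ℝ) ^ N)⁻¹ := by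
          rw [inv_pow, ← mul_inv, ← pow_mul, ← pow_add]
          congr 2
          ring
      _ ≤ _ := mul_le_mul_of_nonneg_left ht2 (by positivity)
  have hyx : ‖(val : ℚ_[(p : ℕ)]) - y‖ ≤ (((p : ℕ) : ℝ) ^ E)⁻¹ := by
    have h1 : (val : ℚ_[(p : ℕ)]) = aeval ((u : ℤ) : ℚ_[(p : ℕ)]) (GG f D) + (D : ℚ_[(p : ℕ)]) ^ (2 * d) * k := by
      rw [aeval_int, ← hv]
      push_cast
      ring
    have h2 : y = aeval ((D : ℚ_[(p : ℕ)]) * t) (GG f D) + (D : ℚ_[(p : ℕ)]) ^ (2 * d) * k := by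
      rw [hy, GG_aeval f D hD0, ← hdd]
      ring
    rw [h1, h2, add_sub_add_right_eq_sub]
    refine (lip _ _ _ (Padic.norm_int_le_one u) ?_).trans hu
    rw [norm_mul, hDn]
    calc (((p : ℕ) : ℝ) ^ N)⁻¹ * ‖t‖ ≤ (((p : ℕ) : ℝ) ^ N)⁻¹ * ((p : ℕ) : ℝ) ^ N :=
          mul_le_mul_of_nonneg_left ht1 (by positivity)
      _ = 1 := inv_mul_cancel₀ (by positivity)
  have hlt : ‖(val : ℚ_[(p : ℕ)]) - y‖ < ‖(4 : ℚ_[(p : ℕ)])‖ * ‖y‖ := by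
    refine hyx.trans_lt ?_
    calc (((p : ℕ) : ℝ) ^ E)⁻¹ ≤ (((p : ℕ) : ℝ) ^ ((2 * d + 1) * N + 3))⁻¹ := by
          apply inv_anti₀ (by positivity)
          exact pow_le_pow_right₀ hone hE
      _ = (((p : ℕ) : ℝ) ^ 3)⁻¹ * (((p : ℕ) : ℝ) ^ ((2 * d + 1) * N))⁻¹ := by
          rw [pow_add, mul_inv, mul_comm]
      _ < ‖(4 : ℚ_[(p : ℕ)])‖ * (((p : ℕ) : ℝ) ^ ((2 * d + 1) * N))⁻¹ :=
          mul_lt_mul_of_pos_right (norm_four_gt p) (by positivity)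
      _ ≤ ‖(4 : ℚ_[(p : ℕ)])‖ * ‖y‖ := mul_le_mul_of_nonneg_left hyn (norm_nonneg _)
  obtain ⟨σ, hσ, hσ2⟩ := sq_near _ _ hy0 hlt
  refine ⟨(D : ℚ_[(p : ℕ)]) ^ d * σ, mul_ne_zero (pow_ne_zero _ hDF) hσ, ?_⟩
  rw [hσ2, hy]
  ring

/-- symbols at an odd prime are multiplicative -/
lemma splits_prod {ι : Type} (p : ℕ) [Fact p.Prime] (hp2 : p ≠ 2) (a : ℤ) (ha : a ≠ 0) (S : Finset ι) (x : ι → ℤ)
    (hx : ∀ j ∈ S, x j ≠ 0) (h : ∀ j ∈ S, Splits (a : ℚ_[p]) ((x j : ℤ) : ℚ_[p])) (b : ℤ) (hb : b ≠ 0)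
    (hb2 : Splits (a : ℚ_[p]) (b : ℚ_[p])) : Splits (a : ℚ_[p]) ((b * ∏ j ∈ S, x j : ℤ) : ℚ_[p]) := by
  classical
  induction S using Finset.induction_on generalizing b with
  | empty => simpa using hb2
  | insert i S hi ih =>
    rw [prod_insert hi, ← mul_assoc]
    apply ih (fun j hj => hx j (mem_insert_of_mem hj)) (fun j hj => h j (mem_insert_of_mem hj))
    · exact mul_ne_zero hb (hx i (mem_insert_self _ _))
    · exact (Pool.Agent.W215.HB.bilo_ p hp2 a b (x i) ha hb (hx i (mem_insert_self _ _))).2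
        ⟨fun _ => h i (mem_insert_self _ _), fun _ => hb2⟩

open Classical in
lemma core2 {r s : ℕ} (g : Fin s → ℤ[X]) (T : Finset Nat.Primes) (N E0 : ℕ)
    (hE : ∀ j, (2 * (g j).natDegree + 1) * N + 3 ≤ E0) (a b : Fin r → ℤ) (ha : ∀ i, a i ≠ 0) (hb : ∀ i, b i ≠ 0)
    (E : Fin r → Finset (Fin s)) (h2T : ∀ p : Nat.Primes, (p : ℕ) = 2 → p ∈ T)
    (hT : ∀ p : Nat.Primes, (∃ i, ((p : ℕ) : ℤ) ∣ a i ∨ ((p : ℕ) : ℤ) ∣ b i) → p ∈ T)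
    (k : Fin s → ℤ) (v : (p : Nat.Primes) → ℚ_[(p : ℕ)])
    (hv1 : ∀ p ∈ T, ‖v p‖ ≤ ((p : ℕ) : ℝ) ^ N) (hv2 : ∀ p ∈ T, ∀ j, (((p : ℕ) : ℝ) ^ N)⁻¹ ≤ ‖PP g k j (v p)‖)
    (hv3 : ∀ p ∈ T, ∀ i, Splits (a i : ℚ_[(p : ℕ)]) (b i * ∏ j ∈ E i, PP g k j (v p)))
    (vr : ℝ) (hpar : ∀ i, ∀ j ∈ E i, Even (#(T.filter (fun p : Nat.Primes => ¬ Splits (a i : ℚ_[(p : ℕ)]) (PP g k j (v p)))) +
      (if a i < 0 ∧ PP g k j vr < 0 then 1 else 0)))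
    (hreal : ∀ i, a i < 0 → 0 < (b i : ℝ) * ∏ j ∈ E i, PP g k j vr)
    (u : ℤ) (D : ℕ) (hD : D = ∏ p ∈ T, (p : ℕ) ^ N)
    (hu : ∀ p ∈ T, ‖(u : ℚ_[(p : ℕ)]) - D * v p‖ ≤ (((p : ℕ) : ℝ) ^ E0)⁻¹)
    (c0 : Fin s → ℕ) (w : Fin s → ℤ) (hw : ∀ j, (w j).natAbs.Prime) (hc0 : ∀ j, ∀ p : Nat.Primes, (p : ℕ) ∣ c0 j → p ∈ T)
    (hc00 : ∀ j, c0 j ≠ 0)
    (hval : ∀ j, (GG (g j) D).eval u + (D : ℤ) ^ (2 * (g j).natDegree) * k j = (c0 j : ℤ) * w j)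
    (hsign : ∀ j, 0 < PP g k j ((u : ℝ) / D) * PP g k j vr) :
    ∀ i, Splits (a i : ℚ) (b i * ∏ j ∈ E i, PP g k j ((u : ℚ) / D)) := by
  have hD0 : D ≠ 0 := by rw [hD]; exact prod_ne_zero_iff.2 fun p _ => pow_ne_zero _ p.2.ne_zero
  obtain ⟨V, hV⟩ : ∃ V : Fin s → ℤ, V = fun j => (c0 j : ℤ) * w j := ⟨_, rfl⟩
  have hV0 : ∀ j, V j ≠ 0 := by
    intro j
    rw [hV]
    have h1 : (c0 j : ℤ) ≠ 0 := by exact_mod_cast hc00 j
    have h2 : w j ≠ 0 := by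
      intro h
      have := hw j
      rw [h] at this
      exact this.ne_zero rfl
    exact mul_ne_zero h1 h2
  -- the value
  have hvalF : ∀ (F : Type) [Field F] [CharZero F], ∀ j, (V j : F) = PP g k j ((u : F) / D) * ((D : F) ^ (g j).natDegree) ^ 2 := by
    intro F _ _ j
    have hDF : (D : F) ≠ 0 := by exact_mod_cast hD0
    have h1 := GG_aeval (g j) D hD0 ((u : F) / D)
    rw [mul_div_cancel₀ _ hDF, aeval_int] at h1
    have h2 : V j = (GG (g j) D).eval u + (D : ℤ) ^ (2 * (g j).natDegree) * k j := by rw [hval j, hV]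
    rw [h2]
    push_cast
    rw [h1]
    unfold PP
    ring
  intro i
  have hEi : ∀ j ∈ E i, V j ≠ 0 := fun j _ => hV0 j
  -- symbols at the primes of `T`
  have hTv : ∀ p ∈ T, ∀ j, ∃ σ : ℚ_[((p : Nat.Primes) : ℕ)], σ ≠ 0 ∧ ((V j : ℤ) : ℚ_[(p : ℕ)]) = PP g k j (v p) * σ ^ 2 := by
    intro p hp j
    exact val_sq (g j) T N E0 (hE j) (k j) p hp (v p) (hv1 p hp) (hv2 p hp j) u D hD (hu p hp) (V j) (by rw [hval j, hV])
  -- the other primes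
  have hout : ∀ j ∈ E i, ∀ p : Nat.Primes, p ∉ T → Splits (a i : ℚ_[(p : ℕ)]) ((V j : ℤ) : ℚ_[(p : ℕ)]) := by
    intro j hj p hpT
    have hp2 : (p : ℕ) ≠ 2 := fun h => hpT (h2T p h)
    have hpa : ¬ ((p : ℕ) : ℤ) ∣ a i := fun h => hpT (hT p ⟨i, Or.inl h⟩)
    by_cases hpw : (p : ℕ) = (w j).natAbs
    · -- the prime value
      apply parity (a i) (V j) (ha i) (hV0 j) T p hpT h2T (fun q hq => hT q ⟨i, Or.inl hq⟩) ?_ (fun q => PP g k j (v q)) ?_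
        (PP g k j vr) ?_ (hpar i j hj)
      · intro q hq
        rw [hV] at hq
        simp only at hq
        rcases (Nat.prime_iff_prime_int.1 q.2).dvd_or_dvd hq with h | h
        · exact Or.inl (hc0 j q (by exact_mod_cast h))
        · right
          have h1 : (q : ℕ) ∣ (w j).natAbs := Int.natCast_dvd.1 h
          rw [← hpw] at h1
          exact Subtype.ext ((Nat.prime_dvd_prime_iff_eq q.2 p.2).1 h1)
      · intro q hq
        obtain ⟨σ, hσ, hσ2⟩ := hTv q hq j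
        rw [hσ2]
        exact splits_mul_sq' hσ
      · have h1 := hvalF ℝ j
        have h2 := hsign j
        have h3 : (0 : ℝ) < ((D : ℝ) ^ (g j).natDegree) ^ 2 := by
          have : (0 : ℝ) < D := by exact_mod_cast Nat.pos_of_ne_zero hD0
          positivity
        rw [h1]
        calc (0 : ℝ) < (PP g k j ((u : ℝ) / D) * PP g k j vr) * ((D : ℝ) ^ (g j).natDegree) ^ 2 := mul_pos h2 h3
          _ = _ := by ring
    · apply Pool.Agent.W335.BMX.odd2 (p : ℕ) hp2 _ _ hpa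
      intro h
      rw [hV] at h
      simp only at h
      rcases (Nat.prime_iff_prime_int.1 p.2).dvd_or_dvd h with h1 | h1
      · exact hpT (hc0 j p (by exact_mod_cast h1))
      · have h2 : (p : ℕ) ∣ (w j).natAbs := Int.natCast_dvd.1 h1
        exact hpw ((Nat.prime_dvd_prime_iff_eq p.2 (hw j)).1 h2)
  obtain ⟨W, hW⟩ : ∃ W : ℤ, W = b i * ∏ j ∈ E i, V j := ⟨_, rfl⟩
  have hW0 : W ≠ 0 := by rw [hW]; exact mul_ne_zero (hb i) (prod_ne_zero_iff.2 hEi)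
  have hWF : ∀ (F : Type) [Field F] [CharZero F], (W : F) = (b i * ∏ j ∈ E i, PP g k j ((u : F) / D)) * (∏ j ∈ E i, (D : F) ^ (g j).natDegree) ^ 2 := by
    intro F _ _
    rw [hW]
    push_cast
    rw [← prod_pow, mul_assoc, ← prod_mul_distrib]
    congr 1
    apply prod_congr rfl
    intro j _
    exact hvalF F j
  have hall : ∀ (p : ℕ) [Fact p.Prime], Splits ((a i : ℤ) : ℚ_[p]) ((W : ℤ) : ℚ_[p]) := by
    intro p hp
    by_cases hpT : (⟨p, hp.out⟩ : Nat.Primes) ∈ T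
    · have h1 := hv3 ⟨p, hp.out⟩ hpT i
      have h2 : ∀ j : Fin s, ∃ σ : ℚ_[p], σ ≠ 0 ∧ ((V j : ℤ) : ℚ_[p]) = PP g k j (v ⟨p, hp.out⟩) * σ ^ 2 := hTv ⟨p, hp.out⟩ hpT
      choose σ hσ hσ2 using h2
      have e : ((W : ℤ) : ℚ_[p]) = (b i * ∏ j ∈ E i, PP g k j (v ⟨p, hp.out⟩)) * (∏ j ∈ E i, σ j) ^ 2 := by
        rw [hW]
        push_cast
        rw [← prod_pow, mul_assoc, ← prod_mul_distrib]
        congr 1
        apply prod_congr rfl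
        intro j _
        exact hσ2 j
      rw [e]
      exact (splits_mul_sq' (prod_ne_zero_iff.2 fun j _ => hσ j)).2 h1
    · have hp2 : p ≠ 2 := fun h => hpT (h2T ⟨p, hp.out⟩ h)
      rw [hW]
      apply splits_prod p hp2 (a i) (ha i) (E i) V hEi
      · intro j hj
        exact hout j hj ⟨p, hp.out⟩ hpT
      · exact hb i
      · apply Pool.Agent.W335.BMX.odd2 p hp2
        · exact fun h => hpT (hT ⟨p, hp.out⟩ ⟨i, Or.inl h⟩)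
        · exact fun h => hpT (hT ⟨p, hp.out⟩ ⟨i, Or.inr h⟩)
  have hwr : Splits ((a i : ℤ) : ℝ) ((W : ℤ) : ℝ) := by
    apply splits_real
    rcases lt_or_gt_of_ne (ha i) with h | h
    · right
      have h1 := hreal i h
      have h2 : 0 < ∏ j ∈ E i, (PP g k j ((u : ℝ) / D) * PP g k j vr) := prod_pos fun j _ => hsign j
      rw [prod_mul_distrib] at h2
      have hprne : ∏ j ∈ E i, PP g k j vr ≠ 0 := by
        intro h0
        rw [h0, mul_zero] at h2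
        exact lt_irrefl _ h2
      have h3 : 0 < (b i : ℝ) * ∏ j ∈ E i, PP g k j ((u : ℝ) / D) := by
        have h4 : 0 < ((b i : ℝ) * ∏ j ∈ E i, PP g k j ((u : ℝ) / D)) * (∏ j ∈ E i, PP g k j vr) ^ 2 := by
          calc (0 : ℝ) < ((b i : ℝ) * ∏ j ∈ E i, PP g k j vr) * ((∏ j ∈ E i, PP g k j ((u : ℝ) / D)) * ∏ j ∈ E i, PP g k j vr) := mul_pos h1 h2
            _ = _ := by ring
        have h5 : 0 < (∏ j ∈ E i, PP g k j vr) ^ 2 := by positivity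
        exact (pos_iff_pos_of_mul_pos h4).2 h5
      rw [hWF ℝ]
      have h6 : (0 : ℝ) < (∏ j ∈ E i, (D : ℝ) ^ (g j).natDegree) ^ 2 := by
        have : (0 : ℝ) < D := by exact_mod_cast Nat.pos_of_ne_zero hD0
        have h7 : 0 < ∏ j ∈ E i, (D : ℝ) ^ (g j).natDegree := prod_pos fun j _ => by positivity
        positivity
      exact mul_pos h3 h6
    · left
      exact_mod_cast h
  have hQ := Pool.Agent.W174.HB.hm_ (a i) W (ha i) hW0 hwr hall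
  rw [hWF ℚ] at hQ
  have hDF : (D : ℚ) ≠ 0 := by exact_mod_cast hD0
  exact (splits_mul_sq' (prod_ne_zero_iff.2 fun j _ => pow_ne_zero _ hDF)).1 hQ

end Pool.Agent.Y714.RC
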