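import Pool.Agent.Y714.RC.B1
import Pool.Agent.Y714.PV.A5

/-!
Auxiliary estimates: real polynomials, the choice of the scale.
-/

set_option autoImplicit false

namespace Pool.Agent.Y714.RC

open Finset Polynomial

/-- a Lipschitz bound for real values -/
lemma real_lip (g : ℤ[X]) : ∃ K : ℕ, ∀ R x y : ℝ, 1 ≤ R → |x| ≤ R → |y| ≤ R →
    |aeval x g - aeval y g| ≤ K * R ^ (g.natDegree - 1) * |x - y| := by
  refine ⟨∑ i ∈ range (g.natDegree + 1), (g.coeff i).natAbs * i, fun R x y hR hx hy => ?_⟩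
  rw [aeval_eq_sum_range, aeval_eq_sum_range, ← sum_sub_distrib]
  refine (abs_sum_le_sum_abs _ _).trans ?_
  push_cast
  rw [sum_mul, sum_mul]
  apply sum_le_sum
  intro i hi
  rw [mem_range] at hi
  rw [← smul_sub, zsmul_eq_mul, abs_mul]
  have h1 : |((g.coeff i : ℤ) : ℝ)| = ((g.coeff i).natAbs : ℝ) := by
    rw [Nat.cast_natAbs]
    push_cast
    rfl
  rw [h1, mul_assoc, mul_assoc]
  apply mul_le_mul_of_nonneg_left _ (Nat.cast_nonneg _)
  have h2 := abs_pow_sub_pow_le x y i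
  refine h2.trans ?_
  have h3 : max |x| |y| ≤ R := max_le hx hy
  rcases Nat.eq_zero_or_pos i with h | h
  · rw [h]; simp
  · have h4 : max |x| |y| ^ (i - 1) ≤ R ^ (g.natDegree - 1) := by
      calc max |x| |y| ^ (i - 1) ≤ R ^ (i - 1) := pow_le_pow_left₀ (le_max_of_le_left (abs_nonneg _)) h3 _
        _ ≤ _ := pow_le_pow_right₀ hR (by omega)
    calc |x - y| * i * max |x| |y| ^ (i - 1) ≤ |x - y| * i * R ^ (g.natDegree - 1) :=
          mul_le_mul_of_nonneg_left h4 (by positivity)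
      _ = _ := by ring

/-- the choice of the scale -/
lemma scale_choice (D M B B' Y : ℕ) (hD : 1 ≤ D) (hM : 1 ≤ M) (hB : 1 ≤ B) (hB' : 1 ≤ B') (hY : 2 * (8 * M * B') ≤ Y)
    (u0 : ℕ) (hu0 : u0 < M) (vr : ℝ) (h1 : (Y : ℝ) ≤ B * vr) (h2 : vr ≤ B * Y) :
    ∃ l ∈ Icc 1 (2 * D * B * (8 * M * B') + 2), ∀ n : ℕ, n ≤ l * (Y / (8 * M * B')) →
      4 * B * B' * (l * (Y / (8 * M * B'))) ≤ 4 * B * B' * n + l * (Y / (8 * M * B')) →
      |((u0 : ℝ) + M * n) / D - vr| * B' ≤ Y := by
  obtain ⟨Q, hQ⟩ : ∃ Q, Q = 8 * M * B' := ⟨_, rfl⟩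
  rw [← hQ] at hY ⊢
  have hQ1 : 8 ≤ Q := by rw [hQ]; nlinarith [Nat.mul_le_mul hM hB']
  obtain ⟨y, hy⟩ : ∃ y, y = Y / Q := ⟨_, rfl⟩
  rw [← hy]
  have hy1 : Q * y ≤ Y := by rw [hy]; exact Nat.mul_div_le _ _
  have hy2 : Y < Q * (y + 1) := by rw [hy]; exact Nat.lt_mul_div_succ _ (by omega)
  have hy3 : Y ≤ 2 * Q * y := by nlinarith
  have hQr : (8 : ℝ) ≤ Q := by exact_mod_cast hQ1
  have hY16 : 16 ≤ Y := by omega
  have hYr : (16 : ℝ) ≤ Y := by exact_mod_cast hY16
  have hy0 : 0 < y := by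
    rcases Nat.eq_zero_or_pos y with h | h
    · rw [h] at hy3; omega
    · exact h
  have hyr : (0 : ℝ) < y := by exact_mod_cast hy0
  have hDr : (1 : ℝ) ≤ D := by exact_mod_cast hD
  have hMr : (1 : ℝ) ≤ M := by exact_mod_cast hM
  have hBr : (1 : ℝ) ≤ B := by exact_mod_cast hB
  have hB'r : (1 : ℝ) ≤ B' := by exact_mod_cast hB'
  have hy1r : (Q : ℝ) * y ≤ Y := by exact_mod_cast hy1
  have hy3r : (Y : ℝ) ≤ 2 * Q * y := by exact_mod_cast hy3
  have hvr : 0 < vr := by
    by_contra h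
    have : (B : ℝ) * vr ≤ 0 := mul_nonpos_of_nonneg_of_nonpos (by linarith) (not_lt.1 h)
    linarith
  obtain ⟨w, hw⟩ : ∃ w : ℝ, w = D * vr / M := ⟨_, rfl⟩
  have hw0 : 0 < w := by rw [hw]; positivity
  have hMw : M * w = D * vr := by rw [hw]; field_simp
  obtain ⟨l, hl⟩ : ∃ l : ℕ, l = ⌈w / y⌉₊ := ⟨_, rfl⟩
  have hl1 : w / y ≤ l := by rw [hl]; exact Nat.le_ceil _
  have hl2 : (l : ℝ) < w / y + 1 := by rw [hl]; exact Nat.ceil_lt_add_one (by positivity)
  have hl3 : w ≤ l * y := by rw [div_le_iff₀ hyr] at hl1; exact hl1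
  have hl4 : (l : ℝ) * y < w + y := by
    have := mul_lt_mul_of_pos_right hl2 hyr
    rw [add_mul, div_mul_cancel₀ _ hyr.ne', one_mul] at this
    exact this
  refine ⟨l, ?_, fun n hn1 hn2 => ?_⟩
  · rw [mem_Icc]
    constructor
    · rw [hl]
      exact Nat.ceil_pos.2 (by positivity)
    · have h3 : w / y ≤ 2 * D * B * Q := by
        rw [div_le_iff₀ hyr]
        have h4 : w ≤ D * vr := by
          rw [← hMw]
          exact le_mul_of_one_le_left hw0.le hMr
        have h5 : (D : ℝ) * vr ≤ D * (B * Y) := mul_le_mul_of_nonneg_left h2 (by linarith)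
        have h6 : (D : ℝ) * (B * Y) ≤ D * (B * (2 * Q * y)) := by gcongr
        calc w ≤ D * (B * (2 * Q * y)) := h4.trans (h5.trans h6)
          _ = _ := by ring
      have h4 : (l : ℝ) < (2 * D * B * Q + 1 : ℕ) := by push_cast; linarith
      have h5 : l < 2 * D * B * Q + 1 := by exact_mod_cast h4
      omega
  · have hn1r : (n : ℝ) ≤ l * y := by exact_mod_cast hn1
    have hn2r : 4 * (B : ℝ) * B' * (l * y) ≤ 4 * B * B' * n + l * y := by exact_mod_cast hn2
    have hBB : (1 : ℝ) ≤ B * B' := by nlinarith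
    -- distance
    have h3 : |(n : ℝ) - w| ≤ y + (w + y) / (4 * B * B') := by
      rw [abs_le]
      have hpos : 0 ≤ (w + y) / (4 * B * B') := by positivity
      constructor
      · have h4 : (l : ℝ) * y - (w + y) / (4 * B * B') ≤ n := by
          have h5 : (l : ℝ) * y - n ≤ (l * y) / (4 * B * B') := by
            rw [le_div_iff₀ (by positivity)]
            nlinarith
          have h6 : (l : ℝ) * y / (4 * B * B') ≤ (w + y) / (4 * B * B') :=
            div_le_div_of_nonneg_right hl4.le (by positivity)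
          linarith
        linarith
      · linarith
    have h4 : |((u0 : ℝ) + M * n) / D - vr| ≤ (M + M * |(n : ℝ) - w|) / D := by
      have e : ((u0 : ℝ) + M * n) / D - vr = ((u0 : ℝ) + M * (n - w)) / D := by
        rw [mul_sub, hMw]
        field_simp
        ring
      rw [e, abs_div, abs_of_pos (show (0 : ℝ) < D by linarith)]
      apply div_le_div_of_nonneg_right _ (by linarith)
      refine (abs_add_le _ _).trans ?_
      rw [abs_mul, abs_of_nonneg (show (0 : ℝ) ≤ u0 from Nat.cast_nonneg _), abs_of_nonneg (show (0 : ℝ) ≤ M by linarith)]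
      have : (u0 : ℝ) ≤ M := by exact_mod_cast hu0.le
      linarith
    have h5 : (M + M * |(n : ℝ) - w|) / D ≤ M + 2 * M * y + vr / (4 * B * B') := by
      have h6 : (M : ℝ) + M * |(n : ℝ) - w| ≤ (M + 2 * M * y) + M * w / (4 * B * B') := by
        have h7 := mul_le_mul_of_nonneg_left h3 (show (0 : ℝ) ≤ M by linarith)
        have h8 : (M : ℝ) * (y + (w + y) / (4 * B * B')) = M * y + M * y / (4 * B * B') + M * w / (4 * B * B') := by ring
        have h9 : (M : ℝ) * y / (4 * B * B') ≤ M * y := div_le_self (by positivity) (by nlinarith)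
        linarith
      refine (div_le_div_of_nonneg_right h6 (by linarith)).trans ?_
      rw [add_div]
      apply add_le_add
      · exact div_le_self (by positivity) hDr
      · rw [hMw]
        apply le_of_eq
        field_simp
    refine (mul_le_mul_of_nonneg_right (h4.trans h5) (by linarith)).trans ?_
    have hQ8 : (Q : ℝ) = 8 * M * B' := by rw [hQ]; push_cast; ring
    have hYQ : 2 * (Q : ℝ) ≤ Y := by exact_mod_cast hY
    have h6 : vr / (4 * B * B') * B' ≤ Y / 4 := by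
      rw [div_mul_eq_mul_div, div_le_iff₀ (by positivity)]
      calc vr * B' ≤ (B * Y) * B' := mul_le_mul_of_nonneg_right h2 (by linarith)
        _ = Y / 4 * (4 * B * B') := by ring
    rw [hQ8] at hYQ hy1r
    obtain ⟨z, hz⟩ : ∃ z, z = vr / (4 * B * B') := ⟨_, rfl⟩
    rw [← hz] at h6 ⊢
    have e : ((M : ℝ) + 2 * M * y + z) * B' = M * B' + 2 * (M * B' * y) + z * B' := by ring
    rw [e]
    have h7 : 16 * ((M : ℝ) * B') ≤ Y := by linarith
    have h8 : 8 * ((M : ℝ) * B' * y) ≤ Y := by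
      calc 8 * ((M : ℝ) * B' * y) = 8 * M * B' * y := by ring
        _ ≤ Y := hy1r
    linarith

end Pool.Agent.Y714.RC
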