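import Mathlib
import Pool.Agent.Helper919.NonRes

/-!
Primes with prescribed Legendre symbols.
-/

set_option autoImplicit false

namespace Pool.Agent.Y714.RC

open Finset

/-- the sign attached to an element of `ZMod 2` -/
def sg (x : ZMod 2) : ℤ := if x = 0 then 1 else -1

lemma sg_zero : sg 0 = 1 := rfl

lemma sg_add (x y : ZMod 2) : sg (x + y) = sg x * sg y := by
  revert x y
  decide

lemma sg_sum {ι : Type} (S : Finset ι) (x : ι → ZMod 2) : sg (∑ i ∈ S, x i) = ∏ i ∈ S, sg (x i) := by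
  classical
  induction S using Finset.induction_on with
  | empty => rfl
  | insert i S hi ih => rw [sum_insert hi, prod_insert hi, sg_add, ih]

lemma sg_inj {x : ZMod 2} (h : sg x = 1) : x = 0 := by
  revert x
  decide

lemma sg_eq (z : ℤ) (hz : z = 1 ∨ z = -1) : ∃ x : ZMod 2, sg x = z := by
  rcases hz with rfl | rfl
  · exact ⟨0, rfl⟩
  · exact ⟨1, rfl⟩

lemma jac_prod {r : ℕ} (a : Fin r → ℤ) (S : Finset (Fin r)) (d : ℕ) : jacobiSym (∏ i ∈ S, a i) d = ∏ i ∈ S, jacobiSym (a i) d := by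
  classical
  induction S using Finset.induction_on with
  | empty => simp [jacobiSym.one_left]
  | insert i S hi ih => rw [prod_insert hi, prod_insert hi, jacobiSym.mul_left, ih]

/-- all vectors of symbols occur -/
lemma class_vec {r : ℕ} (a : Fin r → ℤ) (ha : ∀ S : Finset (Fin r), S.Nonempty → ¬ IsSquare (∏ i ∈ S, a i)) (x : Fin r → ZMod 2) :
    ∃ d : ℕ, d.Coprime (4 * ∏ i, (a i).natAbs) ∧ ∀ i, jacobiSym (a i) d = sg (x i) := by
  classical
  obtain ⟨m, hm⟩ : ∃ m, m = 4 * ∏ i, (a i).natAbs := ⟨_, rfl⟩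
  rw [← hm]
  have ha0 : ∀ i, a i ≠ 0 := by
    intro i h
    apply ha {i} (singleton_nonempty i)
    rw [prod_singleton, h]
    exact ⟨0, by simp⟩
  have hm0 : m ≠ 0 := by
    rw [hm]
    exact mul_ne_zero (by norm_num) (prod_ne_zero_iff.2 fun i _ => Int.natAbs_ne_zero.2 (ha0 i))
  have hm2 : ∀ d : ℕ, d.Coprime m → d ≠ 0 := by
    rintro d hd rfl
    rw [Nat.coprime_zero_left] at hd
    omega
  obtain ⟨H, hH⟩ : ∃ H : Submodule (ZMod 2) (Fin r → ZMod 2), ∀ y, y ∈ H ↔ ∃ d : ℕ, d.Coprime m ∧ ∀ i, jacobiSym (a i) d = sg (y i) := by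
    refine ⟨{ carrier := {y | ∃ d : ℕ, d.Coprime m ∧ ∀ i, jacobiSym (a i) d = sg (y i)}, add_mem' := ?_, zero_mem' := ?_, smul_mem' := ?_ }, fun y => Iff.rfl⟩
    · rintro y z ⟨d1, h1, h2⟩ ⟨d2, h3, h4⟩
      refine ⟨d1 * d2, h1.mul_left h3, fun i => ?_⟩
      rw [jacobiSym.mul_right' _ (hm2 d1 h1) (hm2 d2 h3), h2, h4, Pi.add_apply, sg_add]
    · refine ⟨1, Nat.coprime_one_left _, fun i => ?_⟩
      rw [jacobiSym.one_right]
      rfl
    · rintro c y ⟨d, h1, h2⟩
      have hc : c = 0 ∨ c = 1 := by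
        revert c
        decide
      rcases hc with rfl | rfl
      · refine ⟨1, Nat.coprime_one_left _, fun i => ?_⟩
        rw [jacobiSym.one_right, zero_smul]
        rfl
      · rw [one_smul]
        exact ⟨d, h1, h2⟩
  rw [← hH]
  have htop : H = ⊤ := by
    by_contra hne
    obtain ⟨f, hf0, hf⟩ := Submodule.exists_le_ker_of_lt_top H (lt_top_iff_ne_top.2 hne)
    obtain ⟨S, hS⟩ : ∃ S : Finset (Fin r), S = univ.filter (fun i => f (Pi.single i 1) = 1) := ⟨_, rfl⟩
    have hfS : ∀ y : Fin r → ZMod 2, f y = ∑ i ∈ S, y i := by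
      intro y
      have h1 : y = ∑ i, y i • (Pi.single i (1 : ZMod 2) : Fin r → ZMod 2) := by
        funext j
        rw [Finset.sum_apply]
        simp [Pi.single_apply]
      conv_lhs => rw [h1]
      rw [map_sum, hS, sum_filter]
      apply sum_congr rfl
      intro i _
      rw [map_smul, smul_eq_mul]
      have h2 : f (Pi.single i 1) = 0 ∨ f (Pi.single i 1) = 1 := by
        generalize f (Pi.single i 1) = c
        revert c
        decide
      rcases h2 with h2 | h2
      · rw [h2, mul_zero, if_neg (by decide)]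
      · rw [h2, mul_one, if_pos rfl]
    have hSne : S.Nonempty := by
      by_contra h
      rw [not_nonempty_iff_eq_empty] at h
      apply hf0
      ext i
      simp [hfS, h]
    obtain ⟨d, hd, hJ⟩ := Pool.Agent.Helper919.exists_jacobi_neg_one _ (ha S hSne)
    obtain ⟨A, hA⟩ : ∃ A, A = ∏ i ∈ S, a i := ⟨_, rfl⟩
    rw [← hA] at hJ
    have hA0 : A ≠ 0 := by rw [hA]; exact prod_ne_zero_iff.2 fun i _ => ha0 i
    have hAA : A.natAbs ≠ 0 := Int.natAbs_ne_zero.2 hA0
    have : NeZero (4 * A.natAbs) := ⟨by omega⟩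
    have hcop : Nat.Coprime d (4 * A.natAbs) := by
      apply Nat.Coprime.mul_right
      · have h1 : Nat.Coprime d 2 := Nat.coprime_two_right.2 hd
        exact Nat.Coprime.pow_right 2 h1
      · have : NeZero d := ⟨by rintro rfl; exact absurd hd (by decide)⟩
        have h1 : ¬ jacobiSym A d = 0 := by rw [hJ]; norm_num
        rw [jacobiSym.eq_zero_iff_not_coprime, not_not] at h1
        rw [Nat.coprime_comm]
        exact h1
    obtain ⟨q, hqm, hqp, hqd⟩ := Nat.forall_exists_prime_gt_and_eq_mod ((ZMod.isUnit_iff_coprime d (4 * A.natAbs)).2 hcop) m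
    rw [ZMod.natCast_eq_natCast_iff'] at hqd
    have hqm' : Nat.Coprime q m := by
      rw [hqp.coprime_iff_not_dvd]
      intro h
      exact absurd (Nat.le_of_dvd (Nat.pos_of_ne_zero hm0) h) (by omega)
    have hqo : Odd q := by
      have h1 : Nat.Coprime q 2 := Nat.Coprime.coprime_dvd_right (by rw [hm]; exact ⟨2 * ∏ i, (a i).natAbs, by ring⟩) hqm'
      exact Nat.coprime_two_right.1 h1
    have hJq : jacobiSym A q = -1 := by
      rw [jacobiSym.mod_right A hqo, hqd, ← jacobiSym.mod_right A hd, hJ]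
    have h3 : ∀ i, ∃ x : ZMod 2, sg x = jacobiSym (a i) q := by
      intro i
      apply sg_eq
      apply jacobiSym.eq_one_or_neg_one
      rw [Int.gcd_eq_natAbs, Int.natAbs_natCast]
      have h4 : (a i).natAbs ∣ m := by
        rw [hm]
        exact (dvd_prod_of_mem (fun i => (a i).natAbs) (mem_univ i)).mul_left _
      exact (Nat.Coprime.coprime_dvd_right h4 hqm').symm
    choose y hy using h3
    have h4 : y ∈ H := (hH y).2 ⟨q, hqm', fun i => (hy i).symm⟩
    have h5 := hf h4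
    rw [LinearMap.mem_ker, hfS] at h5
    have h6 : sg (∑ i ∈ S, y i) = -1 := by
      rw [sg_sum, prod_congr rfl (fun i _ => hy i), ← jac_prod, ← hA, hJq]
    rw [h5] at h6
    exact absurd h6 (by decide)
  rw [htop]
  exact Submodule.mem_top

/-- a residue class of primes with prescribed symbols -/
lemma class_res {r : ℕ} (a : Fin r → ℤ) (ha : ∀ S : Finset (Fin r), S.Nonempty → ¬ IsSquare (∏ i ∈ S, a i)) (i0 : Fin r) :
    ∃ (m : ℕ) (_ : NeZero m) (u : ZMod m), IsUnit u ∧ ∀ (p : ℕ) [Fact p.Prime], (p : ZMod m) = u →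
      p ≠ 2 ∧ legendreSym p (a i0) = -1 ∧ ∀ i, i ≠ i0 → legendreSym p (a i) = 1 := by
  classical
  have ha0 : ∀ i, a i ≠ 0 := by
    intro i h
    apply ha {i} (singleton_nonempty i)
    rw [prod_singleton, h]
    exact ⟨0, by simp⟩
  obtain ⟨d, hd1, hd2⟩ := class_vec a ha (fun i => if i = i0 then 1 else 0)
  obtain ⟨m, hm⟩ : ∃ m, m = 4 * ∏ i, (a i).natAbs := ⟨_, rfl⟩
  rw [← hm] at hd1
  have hm0 : m ≠ 0 := by
    rw [hm]
    exact mul_ne_zero (by norm_num) (prod_ne_zero_iff.2 fun i _ => Int.natAbs_ne_zero.2 (ha0 i))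
  have : NeZero m := ⟨hm0⟩
  have h2m : 2 ∣ m := by rw [hm]; exact ⟨2 * ∏ i, (a i).natAbs, by ring⟩
  have hdo : Odd d := Nat.coprime_two_right.1 (Nat.Coprime.coprime_dvd_right h2m hd1)
  refine ⟨m, inferInstance, (d : ZMod m), (ZMod.isUnit_iff_coprime _ _).2 hd1, fun p _ hp => ?_⟩
  rw [ZMod.natCast_eq_natCast_iff'] at hp
  have hpo : Odd p := by
    rw [Nat.odd_iff]
    have h1 : p % m % 2 = d % m % 2 := by rw [hp]
    rw [Nat.mod_mod_of_dvd _ h2m, Nat.mod_mod_of_dvd _ h2m] at h1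
    rw [h1]
    exact Nat.odd_iff.1 hdo
  have hsym : ∀ i, legendreSym p (a i) = jacobiSym (a i) d := by
    intro i
    have h4 : 4 * (a i).natAbs ∣ m := by
      rw [hm]
      exact Nat.mul_dvd_mul_left _ (dvd_prod_of_mem (fun i => (a i).natAbs) (mem_univ i))
    rw [jacobiSym.legendreSym.to_jacobiSym, jacobiSym.mod_right (a i) hpo, jacobiSym.mod_right (a i) hdo,
      ← Nat.mod_mod_of_dvd p h4, ← Nat.mod_mod_of_dvd d h4, hp]
  refine ⟨?_, ?_, ?_⟩
  · intro h1
    rw [h1] at hpo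
    exact absurd hpo (by decide)
  · rw [hsym, hd2, if_pos rfl]
    rfl
  · intro i hi
    rw [hsym, hd2, if_neg hi]
    rfl

end Pool.Agent.Y714.RC
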