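import Mathlib

/-!
Periodic sets of vectors.
-/

set_option autoImplicit false

namespace Pool.Agent.Y714.RC

open Finset

open Classical in
/-- the set of vectors is periodic with period `M`, of density at most `δ` -/
def PerS {s : ℕ} (P : (Fin s → ℤ) → Prop) (M : ℕ) (δ : ℝ) : Prop :=
  0 < M ∧ (∀ k k' : Fin s → ℤ, (∀ j, (M : ℤ) ∣ k j - k' j) → P k → P k') ∧
  (#((Fintype.piFinset fun _ : Fin s => Ico (0 : ℤ) M).filter P) : ℝ) ≤ δ * (M : ℝ) ^ s

lemma PerS.true {s : ℕ} : PerS (s := s) (fun _ => True) 1 1 := by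
  classical
  refine ⟨one_pos, fun _ _ _ h => h, ?_⟩
  have h1 := card_filter_le (Fintype.piFinset fun _ : Fin s => Ico (0 : ℤ) (1 : ℕ)) (fun _ => True)
  rw [Fintype.card_piFinset] at h1
  have h2 : (#((Fintype.piFinset fun _ : Fin s => Ico (0 : ℤ) (1 : ℕ)).filter (fun _ => True)) : ℝ) ≤ 1 := by
    have : ∏ _j : Fin s, #(Ico (0 : ℤ) (1 : ℕ)) = 1 := by simp
    rw [this] at h1
    exact_mod_cast h1
  simp

lemma PerS.and {s : ℕ} {P P' : (Fin s → ℤ) → Prop} {M M' : ℕ} {δ δ' : ℝ} (h : PerS P M δ) (h' : PerS P' M' δ') (hδ : 0 ≤ δ)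
    (hc : Nat.Coprime M M') : PerS (fun k => P k ∧ P' k) (M * M') (δ * δ') := by
  classical
  obtain ⟨h1, h2, h3⟩ := h
  obtain ⟨h1', h2', h3'⟩ := h'
  refine ⟨Nat.mul_pos h1 h1', fun k k' hk hP => ?_, ?_⟩
  · push_cast at hk
    exact ⟨h2 k k' (fun j => (dvd_mul_right _ _).trans (hk j)) hP.1, h2' k k' (fun j => (dvd_mul_left _ _).trans (hk j)) hP.2⟩
  · have hMz : (0 : ℤ) < M := by exact_mod_cast h1
    have hMz' : (0 : ℤ) < M' := by exact_mod_cast h1'
    have key : #((Fintype.piFinset fun _ : Fin s => Ico (0 : ℤ) (M * M' : ℕ)).filter (fun k => P k ∧ P' k)) ≤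
        #(((Fintype.piFinset fun _ : Fin s => Ico (0 : ℤ) M).filter P) ×ˢ ((Fintype.piFinset fun _ : Fin s => Ico (0 : ℤ) M').filter P')) := by
      apply card_le_card_of_injOn (fun k : Fin s → ℤ => ((fun j => k j % (M : ℤ), fun j => k j % (M' : ℤ)) : (Fin s → ℤ) × (Fin s → ℤ)))
      · intro k hk
        rw [mem_coe, mem_filter, Fintype.mem_piFinset] at hk
        obtain ⟨-, hk1, hk2⟩ := hk
        rw [mem_coe, mem_product, mem_filter, mem_filter, Fintype.mem_piFinset, Fintype.mem_piFinset]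
        refine ⟨⟨fun j => mem_Ico.2 ⟨Int.emod_nonneg _ hMz.ne', Int.emod_lt_of_pos _ hMz⟩, ?_⟩,
          ⟨fun j => mem_Ico.2 ⟨Int.emod_nonneg _ hMz'.ne', Int.emod_lt_of_pos _ hMz'⟩, ?_⟩⟩
        · exact h2 k _ (fun j => Int.dvd_self_sub_emod) hk1
        · exact h2' k _ (fun j => Int.dvd_self_sub_emod) hk2
      · intro k hk k' hk' he
        rw [mem_coe, mem_filter, Fintype.mem_piFinset] at hk hk'
        simp only [Prod.mk.injEq] at he
        funext j
        have e1 : k j % (M : ℤ) = k' j % (M : ℤ) := congrFun he.1 j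
        have e2 : k j % (M' : ℤ) = k' j % (M' : ℤ) := congrFun he.2 j
        have d1 : (M : ℤ) ∣ k j - k' j := Int.ModEq.dvd (Int.ModEq.symm e1)
        have d2 : (M' : ℤ) ∣ k j - k' j := Int.ModEq.dvd (Int.ModEq.symm e2)
        have d3 : (M : ℤ) * M' ∣ k j - k' j := (Nat.isCoprime_iff_coprime.2 hc).mul_dvd d1 d2
        have b1 := mem_Ico.1 (hk.1 j)
        have b2 := mem_Ico.1 (hk'.1 j)
        push_cast at b1 b2
        have h0 : k j - k' j = 0 := by
          apply Int.eq_zero_of_abs_lt_dvd d3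
          rw [abs_lt]
          constructor <;> linarith [b1.1, b1.2, b2.1, b2.2]
        linarith
    rw [card_product] at key
    have fin : (#((Fintype.piFinset fun _ : Fin s => Ico (0 : ℤ) (M * M' : ℕ)).filter (fun k => P k ∧ P' k)) : ℝ) ≤
        δ * δ' * ((M * M' : ℕ) : ℝ) ^ s := by
      calc (#((Fintype.piFinset fun _ : Fin s => Ico (0 : ℤ) (M * M' : ℕ)).filter (fun k => P k ∧ P' k)) : ℝ)
          ≤ (#((Fintype.piFinset fun _ : Fin s => Ico (0 : ℤ) M).filter P) : ℝ) * #((Fintype.piFinset fun _ : Fin s => Ico (0 : ℤ) M').filter P') := by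
            exact_mod_cast key
        _ ≤ (δ * (M : ℝ) ^ s) * (δ' * (M' : ℝ) ^ s) := by
            apply mul_le_mul _ _ (Nat.cast_nonneg _) (by positivity)
            · convert h3
            · convert h3'
        _ = _ := by push_cast; rw [mul_pow]; ring
    convert fin

lemma PerS.forall {s : ℕ} {ι : Type} (F : Finset ι) (P : ι → (Fin s → ℤ) → Prop) (M : ι → ℕ) (δ : ι → ℝ)
    (h : ∀ i ∈ F, PerS (P i) (M i) (δ i)) (hδ : ∀ i ∈ F, 0 ≤ δ i)
    (hc : ∀ i ∈ F, ∀ j ∈ F, i ≠ j → Nat.Coprime (M i) (M j)) :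
    PerS (fun k => ∀ i ∈ F, P i k) (∏ i ∈ F, M i) (∏ i ∈ F, δ i) := by
  classical
  induction F using Finset.induction_on with
  | empty => simpa using PerS.true
  | insert i F hi ih =>
    rw [prod_insert hi, prod_insert hi]
    have h1 := (h i (mem_insert_self _ _)).and (ih (fun j hj => h j (mem_insert_of_mem hj)) (fun j hj => hδ j (mem_insert_of_mem hj))
      (fun j hj l hl => hc j (mem_insert_of_mem hj) l (mem_insert_of_mem hl))) (hδ i (mem_insert_self _ _)) (by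
        apply Nat.Coprime.prod_right
        intro j hj
        apply hc i (mem_insert_self _ _) j (mem_insert_of_mem hj)
        rintro rfl
        exact hi hj)
    have e : (fun k : Fin s → ℤ => ∀ j ∈ insert i F, P j k) = fun k => P i k ∧ ∀ j ∈ F, P j k := by
      funext k
      apply propext
      rw [forall_mem_insert]
    rw [e]
    exact h1

lemma PerS.mono {s : ℕ} {P : (Fin s → ℤ) → Prop} {M : ℕ} {δ δ' : ℝ} (h : PerS P M δ) (hδ : δ ≤ δ') : PerS P M δ' :=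
  ⟨h.1, h.2.1, h.2.2.trans (mul_le_mul_of_nonneg_right hδ (by positivity))⟩

/-- a class in an interval -/
lemma card_class (M : ℕ) (hM : 0 < M) (H : ℕ) (ρ : ℤ) :
    (#((Icc (-(H : ℤ)) H).filter (fun x => x % (M : ℤ) = ρ % M)) : ℝ) * M ≤ 2 * H + 1 + M := by
  have h1 : (Icc (-(H : ℤ)) H).filter (fun x => x % (M : ℤ) = ρ % M) = (Ico (-(H : ℤ)) (H + 1)).filter (fun x => x ≡ ρ [ZMOD M]) := by
    ext x
    rw [mem_filter, mem_filter, mem_Icc, mem_Ico, Int.lt_add_one_iff]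
    rfl
  have hMr : (0 : ℝ) < M := by exact_mod_cast hM
  have hMq : (0 : ℚ) < M := by exact_mod_cast hM
  have h2 := Int.Ico_filter_modEq_card (-(H : ℤ)) (H + 1) (r := (M : ℤ)) (by exact_mod_cast hM) ρ
  rw [h1]
  have h3 : ((#((Ico (-(H : ℤ)) (H + 1)).filter (fun x => x ≡ ρ [ZMOD M])) : ℤ) : ℚ) ≤ (2 * H + 1) / M + 1 := by
    rw [h2]
    push_cast
    apply max_le
    · have h4 := Int.ceil_lt_add_one ((((H : ℤ) : ℚ) + 1 - (ρ : ℚ)) / (M : ℚ))
      have h5 := Int.le_ceil ((-((H : ℤ) : ℚ) - (ρ : ℚ)) / (M : ℚ))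
      have h6 : (((H : ℤ) : ℚ) + 1 - (ρ : ℚ)) / (M : ℚ) - (-((H : ℤ) : ℚ) - (ρ : ℚ)) / (M : ℚ) = (2 * H + 1) / M := by
        push_cast
        field_simp
        ring
      push_cast at h4 h5 h6 ⊢
      linarith
    · positivity
  have h4 : ((#((Ico (-(H : ℤ)) (H + 1)).filter (fun x => x ≡ ρ [ZMOD M])) : ℚ)) * M ≤ 2 * H + 1 + M := by
    have h5 := mul_le_mul_of_nonneg_right h3 hMq.le
    rw [add_mul, div_mul_cancel₀ _ hMq.ne', one_mul] at h5
    exact_mod_cast h5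
  exact_mod_cast h4

open Classical in
/-- the count in a box -/
lemma PerS.count {s : ℕ} {P : (Fin s → ℤ) → Prop} {M : ℕ} {δ : ℝ} (h : PerS P M δ) (H : Fin s → ℕ) :
    (#((Fintype.piFinset fun j : Fin s => Icc (-(H j : ℤ)) (H j)).filter P) : ℝ) ≤ δ * ∏ j, (2 * (H j : ℝ) + 1 + M) := by
  obtain ⟨hM, h2, h3⟩ := h
  have hMz : (0 : ℤ) < M := by exact_mod_cast hM
  have hMr : (0 : ℝ) < M := by exact_mod_cast hM
  obtain ⟨A, hA⟩ : ∃ A, A = (Fintype.piFinset fun j : Fin s => Icc (-(H j : ℤ)) (H j)).filter P := ⟨_, rfl⟩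
  obtain ⟨R, hR⟩ : ∃ R, R = (Fintype.piFinset fun _ : Fin s => Ico (0 : ℤ) M).filter P := ⟨_, rfl⟩
  rw [← hA]
  rw [← hR] at h3
  have h4 : #A = ∑ ρ ∈ R, #(A.filter (fun k => (fun j => k j % (M : ℤ)) = ρ)) := by
    apply card_eq_sum_card_fiberwise
    intro k hk
    rw [mem_coe, hA, mem_filter] at hk
    rw [mem_coe, hR, mem_filter, Fintype.mem_piFinset]
    exact ⟨fun j => mem_Ico.2 ⟨Int.emod_nonneg _ hMz.ne', Int.emod_lt_of_pos _ hMz⟩, h2 k _ (fun j => Int.dvd_self_sub_emod) hk.2⟩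
  have h5 : ∀ ρ ∈ R, (#(A.filter (fun k => (fun j => k j % (M : ℤ)) = ρ)) : ℝ) ≤ ∏ j, ((2 * (H j : ℝ) + 1 + M) / M) := by
    intro ρ hρ
    have h6 : A.filter (fun k => (fun j => k j % (M : ℤ)) = ρ) ⊆
        Fintype.piFinset fun j : Fin s => (Icc (-(H j : ℤ)) (H j)).filter (fun x => x % (M : ℤ) = ρ j % M) := by
      intro k hk
      rw [mem_filter, hA, mem_filter, Fintype.mem_piFinset] at hk
      rw [Fintype.mem_piFinset]
      intro j
      rw [mem_filter]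
      refine ⟨hk.1.1 j, ?_⟩
      have h7 : k j % (M : ℤ) = ρ j := congrFun hk.2 j
      rw [← h7, Int.emod_emod_of_dvd _ (dvd_refl _)]
    calc (#(A.filter (fun k => (fun j => k j % (M : ℤ)) = ρ)) : ℝ)
        ≤ (#(Fintype.piFinset fun j : Fin s => (Icc (-(H j : ℤ)) (H j)).filter (fun x => x % (M : ℤ) = ρ j % M)) : ℝ) := by
          exact_mod_cast card_le_card h6
      _ = ∏ j, (#((Icc (-(H j : ℤ)) (H j)).filter (fun x => x % (M : ℤ) = ρ j % M)) : ℝ) := by
          rw [Fintype.card_piFinset]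
          push_cast
          rfl
      _ ≤ _ := by
          apply prod_le_prod (fun _ _ => Nat.cast_nonneg _)
          intro j _
          rw [le_div_iff₀ hMr]
          exact card_class M hM (H j) (ρ j)
  have h6 : (#A : ℝ) ≤ (#R : ℝ) * ∏ j, ((2 * (H j : ℝ) + 1 + M) / M) := by
    rw [h4]
    push_cast
    calc ∑ ρ ∈ R, (#(A.filter (fun k => (fun j => k j % (M : ℤ)) = ρ)) : ℝ) ≤ ∑ _ρ ∈ R, ∏ j, ((2 * (H j : ℝ) + 1 + M) / M) :=
          sum_le_sum h5
      _ = _ := by rw [sum_const, nsmul_eq_mul]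
  have h7 : ∏ j, ((2 * (H j : ℝ) + 1 + M) / M) = (∏ j, (2 * (H j : ℝ) + 1 + M)) / (M : ℝ) ^ s := by
    rw [prod_div_distrib, prod_const, card_univ, Fintype.card_fin]
  have h8 : 0 ≤ ∏ j, (2 * (H j : ℝ) + 1 + M) := prod_nonneg fun j _ => by positivity
  calc (#A : ℝ) ≤ (#R : ℝ) * ∏ j, ((2 * (H j : ℝ) + 1 + M) / M) := h6
    _ ≤ (δ * (M : ℝ) ^ s) * ∏ j, ((2 * (H j : ℝ) + 1 + M) / M) := by
        apply mul_le_mul_of_nonneg_right h3
        rw [h7]
        positivity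
    _ = _ := by
        rw [h7]
        field_simp

end Pool.Agent.Y714.RC
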