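import Pool.Agent.Y714.RC.C1
import Pool.Agent.Y714.RC.C2
import Pool.Agent.H373R2.T7.Sys3
import Pool.Agent.H771R2.Dens

/-!
Common exact divisibility of two shifted polynomials: the local count and the density theorem.
-/

set_option autoImplicit false

namespace Pool.Agent.Y714.RC

open Finset Polynomial
open Pool.Agent.H771R2.Dens (Big big_ap exists_exp_small)

/-- at some integer `t` the values number `α`, `β` are exactly divisible by `q`, the others are prime to `q` -/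
def Hit {s : ℕ} (f : Fin s → ℤ[X]) (q : ℕ) (α β : Fin s) (k : Fin s → ℤ) : Prop :=
  ∃ t : ℤ, ∀ j, if j = α ∨ j = β then (q : ℤ) ∣ (f j).eval t + k j ∧ ¬ (q : ℤ) ^ 2 ∣ (f j).eval t + k j
    else ¬ (q : ℤ) ∣ (f j).eval t + k j

lemma ceil_shift (a : ℚ) (n : ℕ) : ⌈a + n⌉ - ⌈a⌉ = n := by
  rw [Int.ceil_add_natCast]
  ring

/-- a class in a full period -/
lemma card_full (q m : ℕ) (hq : 0 < q) (e : ℤ) : #((Ico (0 : ℤ) (q * m : ℕ)).filter (fun x => (q : ℤ) ∣ e + x)) = m := by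
  have h1 : (Ico (0 : ℤ) (q * m : ℕ)).filter (fun x => (q : ℤ) ∣ e + x) = (Ico (0 : ℤ) (q * m : ℕ)).filter (fun x => x ≡ -e [ZMOD q]) := by
    ext x
    rw [mem_filter, mem_filter]
    apply and_congr_right
    intro _
    have : -e - x = -(e + x) := by ring
    rw [Int.modEq_iff_dvd, this, dvd_neg]
  have hqq : (q : ℚ) ≠ 0 := by exact_mod_cast hq.ne'
  have h2 := Int.Ico_filter_modEq_card (0 : ℤ) ((q * m : ℕ) : ℤ) (r := (q : ℤ)) (by exact_mod_cast hq) (-e)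
  rw [← h1] at h2
  have h3 : (((q * m : ℕ) : ℤ) - (-e : ℤ) : ℚ) / ((q : ℤ) : ℚ) = (((0 : ℤ) : ℚ) - ((-e : ℤ) : ℚ)) / ((q : ℤ) : ℚ) + (m : ℕ) := by
    push_cast
    field_simp
    ring
  rw [h3, ceil_shift, max_eq_left (by positivity)] at h2
  exact_mod_cast h2

lemma card_exact (q : ℕ) (hq : 2 ≤ q) (e : ℤ) :
    (q : ℝ) / 2 ≤ #((Ico (0 : ℤ) (q ^ 2 : ℕ)).filter (fun x => (q : ℤ) ∣ e + x ∧ ¬ (q : ℤ) ^ 2 ∣ e + x)) := by
  classical
  have h1 := card_full q q (by omega) e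
  have h2 := card_full (q ^ 2) 1 (by positivity) e
  rw [← pow_two] at h1
  rw [mul_one] at h2
  have h3 : (Ico (0 : ℤ) (q ^ 2 : ℕ)).filter (fun x => (q : ℤ) ∣ e + x) ⊆
      (Ico (0 : ℤ) (q ^ 2 : ℕ)).filter (fun x => (q : ℤ) ∣ e + x ∧ ¬ (q : ℤ) ^ 2 ∣ e + x) ∪
      (Ico (0 : ℤ) (q ^ 2 : ℕ)).filter (fun x => ((q ^ 2 : ℕ) : ℤ) ∣ e + x) := by
    intro x hx
    rw [mem_filter] at hx
    rw [mem_union, mem_filter, mem_filter]
    push_cast
    by_cases h : (q : ℤ) ^ 2 ∣ e + x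
    · exact Or.inr ⟨hx.1, h⟩
    · exact Or.inl ⟨hx.1, hx.2, h⟩
  have h4 := (card_le_card h3).trans (card_union_le _ _)
  rw [h1, h2] at h4
  have h5 : (q : ℝ) ≤ #((Ico (0 : ℤ) (q ^ 2 : ℕ)).filter (fun x => (q : ℤ) ∣ e + x ∧ ¬ (q : ℤ) ^ 2 ∣ e + x)) + 1 := by exact_mod_cast h4
  have h6 : (2 : ℝ) ≤ q := by exact_mod_cast hq
  linarith

lemma card_unit (q : ℕ) (hq : 2 ≤ q) (e : ℤ) :
    (q : ℝ) ^ 2 / 2 ≤ #((Ico (0 : ℤ) (q ^ 2 : ℕ)).filter (fun x => ¬ (q : ℤ) ∣ e + x)) := by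
  classical
  have h1 := card_full q q (by omega) e
  rw [← pow_two] at h1
  have h2 := card_filter_add_card_filter_not (s := Ico (0 : ℤ) (q ^ 2 : ℕ)) (fun x => (q : ℤ) ∣ e + x)
  rw [h1, Int.card_Ico, sub_zero, Int.toNat_natCast] at h2
  have h3 : (q : ℝ) + #((Ico (0 : ℤ) (q ^ 2 : ℕ)).filter (fun x => ¬ (q : ℤ) ∣ e + x)) = (q : ℝ) ^ 2 := by exact_mod_cast h2
  have h4 : (2 : ℝ) ≤ q := by exact_mod_cast hq
  nlinarith

open Classical in
/-- the local count -/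
lemma hit_per {s : ℕ} (f : Fin s → ℤ[X]) (q : ℕ) (hq : q.Prime) (α β : Fin s) (hαβ : α ≠ β) (d : ℕ) (hd1 : 1 ≤ (f α).natDegree)
    (hd : (f α).natDegree ≤ d) (hl : ¬ (q : ℤ) ∣ (f α).leadingCoeff) :
    PerS (fun k => ¬ Hit f q α β k) (q ^ 2) (Real.exp (-(1 / (2 ^ s * d * (q : ℝ))))) := by
  have hq0 : 0 < q := hq.pos
  have hq2 : 2 ≤ q := hq.two_le
  have hqr : (0 : ℝ) < q := by exact_mod_cast hq0
  have hdr : (0 : ℝ) < d := by
    have : 0 < d := by omega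
    exact_mod_cast this
  have hper : ∀ k k' : Fin s → ℤ, (∀ j, ((q ^ 2 : ℕ) : ℤ) ∣ k j - k' j) → Hit f q α β k → Hit f q α β k' := by
    rintro k k' hk ⟨t, ht⟩
    refine ⟨t, fun j => ?_⟩
    have h1 := ht j
    have h2 := hk j
    push_cast at h2
    have h3 : (q : ℤ) ∣ k j - k' j := (dvd_pow_self _ two_ne_zero).trans h2
    have e : (f j).eval t + k j = ((f j).eval t + k' j) + (k j - k' j) := by ring
    rw [e, Int.dvd_add_left h3, Int.dvd_add_left h2] at h1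
    exact h1
  refine ⟨by positivity, fun k k' hk h h' => h (hper k' k (fun j => ?_) h'), ?_⟩
  · have := hk j
    rw [← dvd_neg] at this
    have e : k' j - k j = -(k j - k' j) := by ring
    rw [e]
    exact this
  obtain ⟨Bx, hBx⟩ : ∃ Bx, Bx = (Fintype.piFinset fun _ : Fin s => Ico (0 : ℤ) (q ^ 2 : ℕ)) := ⟨_, rfl⟩
  have hcard : (#Bx : ℝ) = ((q ^ 2 : ℕ) : ℝ) ^ s := by
    rw [hBx, Fintype.card_piFinset, prod_const, card_univ, Fintype.card_fin, Int.card_Ico, sub_zero, Int.toNat_natCast]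
    push_cast
    ring
  rw [← hBx]
  -- the condition at `t`
  obtain ⟨Cd, hCd⟩ : ∃ Cd : ℤ → (Fin s → ℤ) → Prop, Cd = fun t k => ∀ j, if j = α ∨ j = β then (q : ℤ) ∣ (f j).eval t + k j ∧ ¬ (q : ℤ) ^ 2 ∣ (f j).eval t + k j
    else ¬ (q : ℤ) ∣ (f j).eval t + k j := ⟨_, rfl⟩
  have hlow : ∀ t : ℤ, ((q : ℝ) ^ 2 / 2) ^ s / (q : ℝ) ^ 2 ≤ #(Bx.filter (fun k => Cd t k)) := by
    intro t
    have h1 : Bx.filter (fun k => Cd t k) = Fintype.piFinset fun j : Fin s => (Ico (0 : ℤ) (q ^ 2 : ℕ)).filter (fun x =>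
        if j = α ∨ j = β then (q : ℤ) ∣ (f j).eval t + x ∧ ¬ (q : ℤ) ^ 2 ∣ (f j).eval t + x else ¬ (q : ℤ) ∣ (f j).eval t + x) := by
      ext k
      rw [mem_filter, hBx, Fintype.mem_piFinset, Fintype.mem_piFinset, hCd]
      simp only [mem_filter]
      exact ⟨fun h j => ⟨h.1 j, h.2 j⟩, fun h => ⟨fun j => (h j).1, fun j => (h j).2⟩⟩
    rw [h1, Fintype.card_piFinset]
    push_cast
    have h2 : ((q : ℝ) ^ 2 / 2) ^ s / (q : ℝ) ^ 2 = ∏ j : Fin s, (((q : ℝ) ^ 2 / 2) * (if j = α ∨ j = β then 1 / (q : ℝ) else 1)) := by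
      rw [prod_mul_distrib, prod_const, card_univ, Fintype.card_fin, prod_ite, prod_const, prod_const_one, mul_one]
      have h3 : #(univ.filter (fun j : Fin s => j = α ∨ j = β)) = 2 := by
        have h4 : univ.filter (fun j : Fin s => j = α ∨ j = β) = {α, β} := by
          ext j
          simp
        rw [h4, card_pair hαβ]
      rw [h3]
      field_simp
    rw [h2]
    apply prod_le_prod
    · intro j _
      split_ifs <;> positivity
    · intro j _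
      by_cases hj : j = α ∨ j = β
      · simp only [if_pos hj]
        refine le_trans (le_of_eq ?_) (card_exact q hq2 ((f j).eval t))
        field_simp
      · simp only [if_neg hj]
        rw [mul_one]
        exact card_unit q hq2 _
  -- double counting
  have hdc : ∑ t ∈ range q, #(Bx.filter (fun k => Cd (t : ℤ) k)) ≤ d * #(Bx.filter (fun k => Hit f q α β k)) := by
    have h1 : ∑ t ∈ range q, #(Bx.filter (fun k => Cd (t : ℤ) k)) = ∑ k ∈ Bx, #((range q).filter (fun t : ℕ => Cd (t : ℤ) k)) := by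
      simp_rw [card_filter]
      rw [sum_comm]
    rw [h1]
    have h2 : ∑ k ∈ Bx, #((range q).filter (fun t : ℕ => Cd (t : ℤ) k)) = ∑ k ∈ Bx.filter (fun k => Hit f q α β k), #((range q).filter (fun t : ℕ => Cd (t : ℤ) k)) := by
      symm
      apply sum_subset (filter_subset _ _)
      intro k hk hk'
      rw [card_eq_zero, filter_eq_empty_iff]
      intro t _ ht
      apply hk'
      rw [mem_filter]
      refine ⟨hk, (t : ℤ), ?_⟩
      rw [hCd] at ht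
      exact ht
    rw [h2, mul_comm, ← smul_eq_mul, ← sum_const]
    apply sum_le_sum
    intro k _
    have h3 : (range q).filter (fun t : ℕ => Cd (t : ℤ) k) ⊆ (range q).filter (fun t : ℕ => (q : ℤ) ∣ ((f α) + C (k α)).eval (t : ℤ)) := by
      intro t ht
      rw [mem_filter] at ht ⊢
      refine ⟨ht.1, ?_⟩
      have h4 := ht.2
      rw [hCd] at h4
      have h5 := h4 α
      rw [if_pos (Or.inl rfl)] at h5
      rw [eval_add, eval_C]
      exact h5.1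
    refine (card_le_card h3).trans ((Pool.Agent.H373R2.T7.roots_le _ q hq (f α).natDegree ?_ ?_).trans hd)
    · refine (natDegree_add_le _ _).trans ?_
      rw [natDegree_C]
      simp
    · rw [coeff_add, coeff_C, if_neg (by omega), add_zero]
      exact hl
  have hsum : (q : ℝ) * (((q : ℝ) ^ 2 / 2) ^ s / (q : ℝ) ^ 2) ≤ d * #(Bx.filter (fun k => Hit f q α β k)) := by
    calc (q : ℝ) * (((q : ℝ) ^ 2 / 2) ^ s / (q : ℝ) ^ 2) = ∑ _t ∈ range q, (((q : ℝ) ^ 2 / 2) ^ s / (q : ℝ) ^ 2) := by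
          rw [sum_const, card_range, nsmul_eq_mul]
      _ ≤ ∑ t ∈ range q, (#(Bx.filter (fun k => Cd (t : ℤ) k)) : ℝ) := sum_le_sum fun t _ => hlow t
      _ ≤ _ := by exact_mod_cast hdc
  have hcomp := card_filter_add_card_filter_not (s := Bx) (fun k => Hit f q α β k)
  have hcomp' : (#(Bx.filter (fun k => Hit f q α β k)) : ℝ) + #(Bx.filter (fun k => ¬ Hit f q α β k)) = ((q ^ 2 : ℕ) : ℝ) ^ s := by
    rw [← hcard]
    exact_mod_cast hcomp
  have hq2s : (0 : ℝ) < ((q ^ 2 : ℕ) : ℝ) ^ s := by positivity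
  have hlow2 : ((q ^ 2 : ℕ) : ℝ) ^ s * (1 / (2 ^ s * d * (q : ℝ))) ≤ #(Bx.filter (fun k => Hit f q α β k)) := by
    rw [mul_one_div, div_le_iff₀ (by positivity)]
    have e : (q : ℝ) * (((q : ℝ) ^ 2 / 2) ^ s / (q : ℝ) ^ 2) = ((q ^ 2 : ℕ) : ℝ) ^ s / (2 ^ s * q) := by
      push_cast
      rw [div_pow]
      field_simp
    rw [e, div_le_iff₀ (by positivity)] at hsum
    calc ((q ^ 2 : ℕ) : ℝ) ^ s ≤ _ := hsum
      _ = _ := by ring
  have hexp := Real.one_sub_le_exp_neg (1 / (2 ^ s * d * (q : ℝ)))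
  have fin : (#(Bx.filter (fun k => ¬ Hit f q α β k)) : ℝ) ≤ Real.exp (-(1 / (2 ^ s * d * (q : ℝ)))) * ((q ^ 2 : ℕ) : ℝ) ^ s := by
    calc (#(Bx.filter (fun k => ¬ Hit f q α β k)) : ℝ) = ((q ^ 2 : ℕ) : ℝ) ^ s - #(Bx.filter (fun k => Hit f q α β k)) := by linarith
      _ ≤ ((q ^ 2 : ℕ) : ℝ) ^ s - ((q ^ 2 : ℕ) : ℝ) ^ s * (1 / (2 ^ s * d * (q : ℝ))) := by linarith
      _ = (1 - 1 / (2 ^ s * d * (q : ℝ))) * ((q ^ 2 : ℕ) : ℝ) ^ s := by ring
      _ ≤ _ := mul_le_mul_of_nonneg_right hexp hq2s.le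
  convert fin

/-- the auxiliary primes of one row -/
lemma aux_set {r s : ℕ} (a : Fin r → ℤ) (ha : ∀ S : Finset (Fin r), S.Nonempty → ¬ IsSquare (∏ i ∈ S, a i)) (i0 : Fin r)
    (f : Fin s → ℤ[X]) (hf : ∀ j, 1 ≤ (f j).natDegree) (K : ℕ) (hK : ∀ j, ∀ q : ℕ, q.Prime → (q : ℤ) ∣ (f j).leadingCoeff → q ≤ K) (δ : ℝ) (hδ : 0 < δ) :
    ∃ F : Finset ℕ, F.Nonempty ∧ (∀ q ∈ F, q.Prime ∧ K < q) ∧ (∀ (q : ℕ) [Fact q.Prime], q ∈ F → q ≠ 2 ∧ legendreSym q (a i0) = -1 ∧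
      ∀ i, i ≠ i0 → legendreSym q (a i) = 1) ∧
      ∀ α β : Fin s, α ≠ β → PerS (fun k => ∀ q ∈ F, ¬ Hit f q α β k) (∏ q ∈ F, q ^ 2) δ := by
  obtain ⟨m, hm, u, hu, hleg⟩ := class_res a ha i0
  obtain ⟨d, hd⟩ : ∃ d, d = 1 + ∑ j, (f j).natDegree := ⟨_, rfl⟩
  have hd1 : ∀ j, (f j).natDegree ≤ d := by
    intro j
    have h1 : (f j).natDegree ≤ ∑ j, (f j).natDegree := single_le_sum (f := fun j => (f j).natDegree) (fun _ _ => Nat.zero_le _) (mem_univ j)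
    omega
  have hdr : (1 : ℝ) ≤ d := by
    have : 1 ≤ d := by omega
    exact_mod_cast this
  obtain ⟨F, hF, hsum'⟩ := ((big_ap hu).large K) (max 1 (-(2 ^ s * d) * Real.log δ))
  have hsum : -(2 ^ s * d) * Real.log δ ≤ ∑ p ∈ F, 1 / (p : ℝ) := (le_max_right _ _).trans hsum'
  have hne : F.Nonempty := by
    by_contra h
    rw [not_nonempty_iff_eq_empty] at h
    have h1 := (le_max_left _ _).trans hsum'
    rw [h, sum_empty] at h1
    linarith
  refine ⟨F, hne, fun q hq => ⟨(hF q hq).1, (hF q hq).2.2⟩, fun q _ hq => hleg q (hF q hq).2.1, fun α β hαβ => ?_⟩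
  have h1 := PerS.forall F (fun q k => ¬ Hit f q α β k) (fun q => q ^ 2) (fun q => Real.exp (-(1 / (2 ^ s * d * (q : ℝ)))))
    (fun q hq => hit_per f q (hF q hq).1 α β hαβ d (hf α) (hd1 α) (fun h => by
      have := hK α q (hF q hq).1 h
      have := (hF q hq).2.2
      omega)) (fun _ _ => (Real.exp_pos _).le) (by
      intro p hp q hq hpq
      apply Nat.Coprime.pow
      exact (Nat.coprime_primes (hF p hp).1 (hF q hq).1).2 hpq)
  apply h1.mono
  rw [← Real.exp_sum, ← Real.le_log_iff_exp_le hδ]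
  have e : ∑ q ∈ F, -(1 / (2 ^ s * d * (q : ℝ))) = -(1 / (2 ^ s * d)) * ∑ q ∈ F, 1 / (q : ℝ) := by
    rw [mul_sum]
    apply sum_congr rfl
    intro q _
    field_simp
  rw [e]
  have h2 : (0 : ℝ) < 2 ^ s * d := by positivity
  have h3 : -(1 / (2 ^ s * (d : ℝ))) * ∑ q ∈ F, 1 / (q : ℝ) ≤ -(1 / (2 ^ s * (d : ℝ))) * (-(2 ^ s * d) * Real.log δ) := by
    apply mul_le_mul_of_nonpos_left hsum
    rw [neg_nonpos]
    positivity
  refine h3.trans (le_of_eq ?_)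
  field_simp

end Pool.Agent.Y714.RC
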