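import Pool.Agent.TH204.HP.H8

/-!
Weak approximation on a conic, the real place included.
-/

set_option autoImplicit false

namespace Pool.Agent.Y714.RC

open Finset Topology
open Pool.Agent.W313.BMX (Splits splits_swap splits_comm splits_mul_sq)
open Pool.Agent.TH204.HP

/-- weak approximation for the rational numbers, real place included -/
lemma approx_QR (T : Finset Nat.Primes) (x : (p : Nat.Primes) → ℚ_[(p : ℕ)]) (xr δ : ℝ) (hδ : 0 < δ) :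
    ∃ u : ℚ, (∀ p ∈ T, ‖(u : ℚ_[(p : ℕ)]) - x p‖ < δ) ∧ |(u : ℝ) - xr| < δ := by
  obtain ⟨u0, hu0⟩ := approx_Q T x δ hδ
  obtain ⟨n, hn⟩ := exists_pow_lt_of_lt_one hδ (show ((1 : ℝ) / 2) < 1 by norm_num)
  obtain ⟨M, hM⟩ : ∃ M : ℕ, M = ∏ p ∈ T, (p : ℕ) ^ n := ⟨_, rfl⟩
  obtain ⟨P, hP⟩ : ∃ P : ℕ, P = ∏ p ∈ T, (p : ℕ) := ⟨_, rfl⟩
  have hM0 : 0 < M := by rw [hM]; exact prod_pos fun p _ => pow_pos p.2.pos _
  have hP0 : 0 < P := by rw [hP]; exact prod_pos fun p _ => p.2.pos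
  obtain ⟨m, hm⟩ := exists_nat_gt ((M : ℝ) / δ)
  obtain ⟨b, hb⟩ : ∃ b : ℕ, b = 1 + P * m := ⟨_, rfl⟩
  have hb0 : 0 < b := by omega
  have hbr : (0 : ℝ) < b := by exact_mod_cast hb0
  have hMr : (0 : ℝ) < M := by exact_mod_cast hM0
  have hmb : (m : ℝ) ≤ b := by
    have : m ≤ b := by rw [hb]; nlinarith [Nat.le_mul_of_pos_left m hP0]
    exact_mod_cast this
  have hMb : (M : ℝ) / b < δ := by
    rw [div_lt_iff₀ hbr]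
    rw [div_lt_iff₀ hδ] at hm
    nlinarith
  obtain ⟨a, ha⟩ : ∃ a : ℤ, a = round ((xr - (u0 : ℝ)) * b / M) := ⟨_, rfl⟩
  refine ⟨u0 + M * (a / b : ℚ), fun p hp => ?_, ?_⟩
  · have e : (((u0 + M * (a / b : ℚ) : ℚ)) : ℚ_[(p : ℕ)]) - x p = ((u0 : ℚ_[(p : ℕ)]) - x p) + (M : ℚ_[(p : ℕ)]) * ((a : ℚ_[(p : ℕ)]) / (b : ℚ_[(p : ℕ)])) := by
      push_cast
      ring
    rw [e]
    refine lt_of_le_of_lt (Padic.nonarchimedean _ _) (max_lt (hu0 p hp) ?_)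
    have hMn : ‖(M : ℚ_[(p : ℕ)])‖ = (((p : ℕ) : ℝ) ^ n)⁻¹ := by
      rw [hM]
      exact norm_D T n p hp
    have hbn : ‖(b : ℚ_[(p : ℕ)])‖ = 1 := by
      have h1 : ¬ (p : ℕ) ∣ b := by
        intro h
        have h2 : (p : ℕ) ∣ P * m := by
          rw [hP]
          exact (dvd_prod_of_mem (fun p : Nat.Primes => (p : ℕ)) hp).mul_right _
        rw [hb] at h
        have h3 := (Nat.dvd_add_left h2).1 h
        exact p.2.one_lt.ne' (Nat.dvd_one.1 h3)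
      have h2 : ¬ ‖((b : ℕ) : ℚ_[(p : ℕ)])‖ < 1 := by
        rw [Padic.norm_natCast_lt_one_iff]
        exact h1
      have h3 := Padic.norm_int_le_one (p := (p : ℕ)) (b : ℤ)
      rw [Int.cast_natCast] at h3
      exact le_antisymm h3 (not_lt.1 h2)
    rw [norm_mul, norm_div, hMn, hbn, div_one]
    have h1 := Padic.norm_int_le_one (p := (p : ℕ)) a
    have h2 : ((((p : ℕ) : ℝ) ^ n))⁻¹ ≤ (1 / 2) ^ n := by
      rw [one_div, inv_pow]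
      apply inv_anti₀ (by positivity)
      apply pow_le_pow_left₀ (by norm_num)
      exact_mod_cast p.2.two_le
    calc (((p : ℕ) : ℝ) ^ n)⁻¹ * ‖(a : ℚ_[(p : ℕ)])‖ ≤ (((p : ℕ) : ℝ) ^ n)⁻¹ * 1 := by
          apply mul_le_mul_of_nonneg_left h1
          have : (0 : ℝ) < ((p : ℕ) : ℝ) := p_pos (p := (p : ℕ))
          positivity
      _ ≤ (1 / 2) ^ n := by rw [mul_one]; exact h2
      _ < δ := hn
  · have h1 := abs_sub_round ((xr - (u0 : ℝ)) * b / M)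
    rw [← ha] at h1
    have e : (((u0 + M * (a / b : ℚ) : ℚ)) : ℝ) - xr = -(((xr - (u0 : ℝ)) * b / M - a) * (M / b)) := by
      push_cast
      field_simp
      ring
    rw [e, abs_neg, abs_mul, abs_of_pos (show (0 : ℝ) < M / b by positivity)]
    calc |(xr - (u0 : ℝ)) * b / M - a| * (M / b) ≤ 1 / 2 * (M / b) := mul_le_mul_of_nonneg_right h1 (by positivity)
      _ ≤ M / b := by
          have : (0 : ℝ) < M / b := by positivity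
          linarith
      _ < δ := hMb

/-- the two coordinates of the parametrisation are continuous -/
lemma cont_par {F : Type} [NormedField F] (a y0 z0 Y Z u v : F) (hne : u ^ 2 - a * v ^ 2 ≠ 0)
    (hY : Y * (u ^ 2 - a * v ^ 2) = y0 * (u ^ 2 + a * v ^ 2) + 2 * a * z0 * (u * v))
    (hZ : Z * (u ^ 2 - a * v ^ 2) = 2 * y0 * (u * v) + z0 * (u ^ 2 + a * v ^ 2)) (ε : ℝ) (hε : 0 < ε) :
    ∃ δ : ℝ, 0 < δ ∧ ∀ u' v' : F, ‖u' - u‖ < δ → ‖v' - v‖ < δ → u' ^ 2 - a * v' ^ 2 ≠ 0 ∧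
      ‖(y0 * (u' ^ 2 + a * v' ^ 2) + 2 * a * z0 * (u' * v')) / (u' ^ 2 - a * v' ^ 2) - Y‖ < ε ∧
      ‖(2 * y0 * (u' * v') + z0 * (u' ^ 2 + a * v' ^ 2)) / (u' ^ 2 - a * v' ^ 2) - Z‖ < ε := by
  have hc : ContinuousAt (fun x : F × F => x.1 ^ 2 - a * x.2 ^ 2) (u, v) := by fun_prop
  have e1 : ∀ᶠ x : F × F in 𝓝 (u, v), x.1 ^ 2 - a * x.2 ^ 2 ≠ 0 := hc.eventually_ne hne
  have hc2 : ContinuousAt (fun x : F × F => (y0 * (x.1 ^ 2 + a * x.2 ^ 2) + 2 * a * z0 * (x.1 * x.2)) / (x.1 ^ 2 - a * x.2 ^ 2)) (u, v) :=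
    ContinuousAt.div (by fun_prop) hc hne
  have hc3 : ContinuousAt (fun x : F × F => (2 * y0 * (x.1 * x.2) + z0 * (x.1 ^ 2 + a * x.2 ^ 2)) / (x.1 ^ 2 - a * x.2 ^ 2)) (u, v) :=
    ContinuousAt.div (by fun_prop) hc hne
  have hY' : (y0 * (u ^ 2 + a * v ^ 2) + 2 * a * z0 * (u * v)) / (u ^ 2 - a * v ^ 2) = Y := by
    rw [div_eq_iff hne]
    exact hY.symm
  have hZ' : (2 * y0 * (u * v) + z0 * (u ^ 2 + a * v ^ 2)) / (u ^ 2 - a * v ^ 2) = Z := by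
    rw [div_eq_iff hne]
    exact hZ.symm
  have e2 := Metric.tendsto_nhds.1 hc2.tendsto ε hε
  have e3 := Metric.tendsto_nhds.1 hc3.tendsto ε hε
  obtain ⟨δ, hδ, hball⟩ := Metric.eventually_nhds_iff.1 (e1.and (e2.and e3))
  refine ⟨δ, hδ, fun u' v' h2 h3 => ?_⟩
  have h4 : dist (u', v') (u, v) < δ := by
    rw [Prod.dist_eq]
    exact max_lt (by rw [dist_eq_norm]; exact h2) (by rw [dist_eq_norm]; exact h3)
  obtain ⟨h5, h6, h7⟩ := hball h4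
  simp only [dist_eq_norm, hY', hZ'] at h6 h7
  exact ⟨h5, h6, h7⟩

/-- weak approximation on a conic with a rational point, real place included -/
lemma conic_denseR (a b y0 z0 : ℚ) (ha : a ≠ 0) (hb : b ≠ 0) (h0 : y0 ^ 2 - a * z0 ^ 2 = b) (T : Finset Nat.Primes)
    (Y Z : (p : Nat.Primes) → ℚ_[(p : ℕ)]) (hYZ : ∀ p ∈ T, Y p ^ 2 - (a : ℚ_[(p : ℕ)]) * Z p ^ 2 = b)
    (Yr Zr : ℝ) (hr : Yr ^ 2 - (a : ℝ) * Zr ^ 2 = b) (ε : ℝ) (hε : 0 < ε) :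
    ∃ y z : ℚ, y ^ 2 - a * z ^ 2 = b ∧ (∀ p ∈ T, ‖(y : ℚ_[(p : ℕ)]) - Y p‖ < ε ∧ ‖(z : ℚ_[(p : ℕ)]) - Z p‖ < ε) ∧
      |(y : ℝ) - Yr| < ε ∧ |(z : ℝ) - Zr| < ε := by
  have h1 : ∀ p : Nat.Primes, ∃ (u v : ℚ_[(p : ℕ)]) (δ : ℝ), 0 < δ ∧ (p ∈ T → ∀ u' v' : ℚ_[(p : ℕ)], ‖u' - u‖ < δ → ‖v' - v‖ < δ →
      u' ^ 2 - (a : ℚ_[(p : ℕ)]) * v' ^ 2 ≠ 0 ∧
      ‖((y0 : ℚ_[(p : ℕ)]) * (u' ^ 2 + a * v' ^ 2) + 2 * a * z0 * (u' * v')) / (u' ^ 2 - a * v' ^ 2) - Y p‖ < ε ∧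
      ‖(2 * (y0 : ℚ_[(p : ℕ)]) * (u' * v') + z0 * (u' ^ 2 + a * v' ^ 2)) / (u' ^ 2 - a * v' ^ 2) - Z p‖ < ε) := by
    intro p
    by_cases hp : p ∈ T
    · have h0' : (y0 : ℚ_[(p : ℕ)]) ^ 2 - (a : ℚ_[(p : ℕ)]) * (z0 : ℚ_[(p : ℕ)]) ^ 2 = b := by
        rw [← h0]
        push_cast
        ring
      obtain ⟨u, v, hne, hY, hZ⟩ := param (a : ℚ_[(p : ℕ)]) b y0 z0 (Y p) (Z p) (by exact_mod_cast ha) (by exact_mod_cast hb) h0' (hYZ p hp)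
      obtain ⟨δ, hδ, h2⟩ := cont_par (a : ℚ_[(p : ℕ)]) y0 z0 (Y p) (Z p) u v hne hY hZ ε hε
      exact ⟨u, v, δ, hδ, fun _ => h2⟩
    · exact ⟨0, 0, 1, one_pos, fun h => absurd h hp⟩
  choose u v δ hδ h2 using h1
  have h0r : (y0 : ℝ) ^ 2 - (a : ℝ) * (z0 : ℝ) ^ 2 = b := by
    rw [← h0]
    push_cast
    ring
  obtain ⟨ur, vr, hner, hYr, hZr⟩ := param (a : ℝ) b y0 z0 Yr Zr (by exact_mod_cast ha) (by exact_mod_cast hb) h0r hr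
  obtain ⟨δr, hδr, h2r⟩ := cont_par (a : ℝ) y0 z0 Yr Zr ur vr hner hYr hZr ε hε
  obtain ⟨d, hd⟩ : ∃ d : ℝ, d = (∑ p ∈ T, (δ p)⁻¹ + δr⁻¹)⁻¹ := ⟨_, rfl⟩
  have hsum : 0 ≤ ∑ p ∈ T, (δ p)⁻¹ := sum_nonneg fun p _ => inv_nonneg.2 (hδ p).le
  have hδr' : 0 < δr⁻¹ := inv_pos.2 hδr
  have hd0 : 0 < d := by rw [hd]; positivity
  have hdp : ∀ p ∈ T, d ≤ δ p := by
    intro p hp
    rw [hd]
    rw [inv_le_comm₀ (by positivity) (hδ p)]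
    have := single_le_sum (f := fun p => (δ p)⁻¹) (fun p _ => inv_nonneg.2 (hδ p).le) hp
    linarith
  have hdr : d ≤ δr := by
    rw [hd, inv_le_comm₀ (by positivity) hδr]
    linarith
  obtain ⟨u', hu', hur'⟩ := approx_QR T u ur d hd0
  obtain ⟨v', hv', hvr'⟩ := approx_QR T v vr d hd0
  obtain ⟨h3, h4, h5⟩ := h2r u' v' (hur'.trans_le hdr) (hvr'.trans_le hdr)
  have hne : u' ^ 2 - a * v' ^ 2 ≠ 0 := by
    intro h6
    apply h3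
    have h7 := congrArg (fun x : ℚ => (x : ℝ)) h6
    push_cast at h7
    exact h7
  refine ⟨(y0 * (u' ^ 2 + a * v' ^ 2) + 2 * a * z0 * (u' * v')) / (u' ^ 2 - a * v' ^ 2),
    (2 * y0 * (u' * v') + z0 * (u' ^ 2 + a * v' ^ 2)) / (u' ^ 2 - a * v' ^ 2), ?_, ?_, ?_, ?_⟩
  · rw [div_pow, div_pow, mul_div_assoc', div_sub_div_same, div_eq_iff (pow_ne_zero 2 hne), ← h0]
    ring
  · intro p hp
    obtain ⟨-, h3, h4⟩ := h2 p hp u' v' ((hu' p hp).trans_le (hdp p hp)) ((hv' p hp).trans_le (hdp p hp))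
    push_cast
    exact ⟨h3, h4⟩
  · push_cast
    exact h4
  · push_cast
    exact h5

/-- scaling a real point -/
lemma real_scale (a b br yr zr η R : ℝ) (h : yr ^ 2 - a * zr ^ 2 = br) (hbr : br ≠ 0) (hη : η ≤ 1 / 2) (hη0 : 0 ≤ η) (hb : |b - br| ≤ η * |br|)
    (hy : |yr| ≤ R) (hz : |zr| ≤ R) : ∃ Y Z : ℝ, Y ^ 2 - a * Z ^ 2 = b ∧ |Y - yr| ≤ η * R ∧ |Z - zr| ≤ η * R := by
  obtain ⟨q, hq⟩ : ∃ q, q = b / br := ⟨_, rfl⟩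
  have hqb : q * br = b := by rw [hq]; field_simp
  have hbr0 : 0 < |br| := abs_pos.2 hbr
  have hq1 : |q - 1| ≤ η := by
    have e : b - br = (q - 1) * br := by rw [← hqb]; ring
    rw [e, abs_mul] at hb
    exact le_of_mul_le_mul_right hb hbr0
  have hq0 : 0 < q := by
    have := (abs_le.1 hq1).1
    linarith
  obtain ⟨l, hl⟩ : ∃ l, l = Real.sqrt q := ⟨_, rfl⟩
  have hl2 : l ^ 2 = q := by rw [hl]; exact Real.sq_sqrt hq0.le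
  have hl0 : 0 ≤ l := by rw [hl]; exact Real.sqrt_nonneg _
  have hl1 : |l - 1| ≤ η := by
    have e : q - 1 = (l - 1) * (l + 1) := by rw [← hl2]; ring
    rw [e, abs_mul, abs_of_pos (show 0 < l + 1 by linarith)] at hq1
    have : |l - 1| * 1 ≤ |l - 1| * (l + 1) := mul_le_mul_of_nonneg_left (by linarith) (abs_nonneg _)
    linarith
  refine ⟨l * yr, l * zr, ?_, ?_, ?_⟩
  · rw [mul_pow, mul_pow, hl2, ← hqb, ← h]
    ring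
  · have e : l * yr - yr = (l - 1) * yr := by ring
    rw [e, abs_mul]
    exact mul_le_mul hl1 hy (abs_nonneg _) hη0
  · have e : l * zr - zr = (l - 1) * zr := by ring
    rw [e, abs_mul]
    exact mul_le_mul hl1 hz (abs_nonneg _) hη0

/-- from approximation of the base point to approximation on the conic -/
lemma glueR (a : ℤ) (ha : a ≠ 0) (b : ℚ) (hb : b ≠ 0) (hs : Splits (a : ℚ) b) (T : Finset Nat.Primes) (N M : ℕ)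
    (bp : (p : Nat.Primes) → ℚ_[(p : ℕ)]) (hbp : ∀ p ∈ T, (((p : ℕ) : ℝ) ^ M)⁻¹ ≤ ‖bp p‖) (y z : (p : Nat.Primes) → ℚ_[(p : ℕ)])
    (hy : ∀ p ∈ T, ‖y p‖ ≤ ((p : ℕ) : ℝ) ^ N) (hz : ∀ p ∈ T, ‖z p‖ ≤ ((p : ℕ) : ℝ) ^ N)
    (hyz : ∀ p ∈ T, y p ^ 2 - (a : ℚ_[(p : ℕ)]) * z p ^ 2 = bp p)
    (hbb : ∀ p ∈ T, ‖(b : ℚ_[(p : ℕ)]) - bp p‖ ≤ (((p : ℕ) : ℝ) ^ (2 * N + 3 + M))⁻¹)
    (br yr zr η R : ℝ) (hyzr : yr ^ 2 - (a : ℝ) * zr ^ 2 = br) (hbr0 : br ≠ 0) (hη : 0 < η) (hη1 : η ≤ 1 / 2) (hR : 0 < R)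
    (hbr : |(b : ℝ) - br| ≤ η * |br|) (hyr : |yr| ≤ R) (hzr : |zr| ≤ R) :
    ∃ Y Z : ℚ, Y ^ 2 - (a : ℚ) * Z ^ 2 = b ∧ (∀ p ∈ T, ‖(Y : ℚ_[(p : ℕ)]) - y p‖ ≤ (((p : ℕ) : ℝ) ^ N)⁻¹ ∧
      ‖(Z : ℚ_[(p : ℕ)]) - z p‖ ≤ (((p : ℕ) : ℝ) ^ N)⁻¹) ∧ |(Y : ℝ) - yr| ≤ 2 * η * R ∧ |(Z : ℝ) - zr| ≤ 2 * η * R := by
  have haQ : (a : ℚ) ≠ 0 := by exact_mod_cast ha
  obtain ⟨y0, z0, h0⟩ := (conic_iff (a : ℚ) b haQ hb).2 hs
  have h1 : ∀ p : Nat.Primes, ∃ Y' Z' : ℚ_[(p : ℕ)], p ∈ T → Y' ^ 2 - (a : ℚ_[(p : ℕ)]) * Z' ^ 2 = b ∧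
      ‖Y' - y p‖ ≤ (((p : ℕ) : ℝ) ^ N)⁻¹ ∧ ‖Z' - z p‖ ≤ (((p : ℕ) : ℝ) ^ N)⁻¹ := by
    intro p
    by_cases hp : p ∈ T
    · have hppos : (0 : ℝ) < ((p : ℕ) : ℝ) := p_pos (p := (p : ℕ))
      have hbp0 : bp p ≠ 0 := by
        intro h0
        have h1 := hbp p hp
        rw [h0, norm_zero] at h1
        have : (0 : ℝ) < (((p : ℕ) : ℝ) ^ M)⁻¹ := by positivity
        linarith
      obtain ⟨Y', Z', h2, h3, h4⟩ := transfer (a : ℚ_[(p : ℕ)]) (bp p) b (y p) (z p)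
        hbp0 (hyz p hp) N N (hy p hp) (hz p hp) (by
          refine (hbb p hp).trans ?_
          calc (((p : ℕ) : ℝ) ^ (2 * N + 3 + M))⁻¹ = (((p : ℕ) : ℝ) ^ (N + N + 3))⁻¹ * (((p : ℕ) : ℝ) ^ M)⁻¹ := by
                rw [← mul_inv, ← pow_add]
                congr 2
                ring
            _ ≤ _ := mul_le_mul_of_nonneg_left (hbp p hp) (by positivity))
      exact ⟨Y', Z', fun _ => ⟨h2, h3, h4⟩⟩
    · exact ⟨0, 0, fun h => absurd h hp⟩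
  choose Y' Z' h1 using h1
  obtain ⟨Yr, Zr, hYZr, hYr, hZr⟩ := real_scale a b br yr zr η R hyzr hbr0 hη1 hη.le hbr hyr hzr
  obtain ⟨D, hD⟩ : ∃ D : ℕ, D = ∏ p ∈ T, (p : ℕ) ^ N := ⟨_, rfl⟩
  have hD0 : 0 < D := by rw [hD]; exact prod_pos fun p _ => pow_pos p.2.pos _
  have hDr : (0 : ℝ) < D := by exact_mod_cast hD0
  obtain ⟨Y, Z, h2, h3, h3r, h3r'⟩ := conic_denseR (a : ℚ) b y0 z0 haQ hb h0 T Y' Z' (by
    intro p hp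
    have := (h1 p hp).1
    push_cast
    exact this) Yr Zr (by push_cast; exact hYZr) (min ((D : ℝ)⁻¹) (η * R)) (by positivity)
  refine ⟨Y, Z, h2, fun p hp => ?_, ?_, ?_⟩
  · obtain ⟨h4, h5⟩ := h3 p hp
    have hDp : ((D : ℝ))⁻¹ ≤ (((p : ℕ) : ℝ) ^ N)⁻¹ := by
      have hppos : (0 : ℝ) < ((p : ℕ) : ℝ) := p_pos (p := (p : ℕ))
      apply inv_anti₀ (by positivity)
      have h6 : (p : ℕ) ^ N ≤ D := by
        apply Nat.le_of_dvd hD0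
        rw [hD]
        exact dvd_prod_of_mem (fun p : Nat.Primes => (p : ℕ) ^ N) hp
      exact_mod_cast h6
    have h4' := h4.le.trans ((min_le_left _ _).trans hDp)
    have h5' := h5.le.trans ((min_le_left _ _).trans hDp)
    constructor
    · have e : (Y : ℚ_[(p : ℕ)]) - y p = ((Y : ℚ_[(p : ℕ)]) - Y' p) + (Y' p - y p) := by ring
      rw [e]
      exact (Padic.nonarchimedean _ _).trans (max_le h4' (h1 p hp).2.1)
    · have e : (Z : ℚ_[(p : ℕ)]) - z p = ((Z : ℚ_[(p : ℕ)]) - Z' p) + (Z' p - z p) := by ring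
      rw [e]
      exact (Padic.nonarchimedean _ _).trans (max_le h5' (h1 p hp).2.2)
  · have h4 := h3r.le.trans (min_le_right _ _)
    calc |(Y : ℝ) - yr| = |((Y : ℝ) - Yr) + (Yr - yr)| := by ring_nf
      _ ≤ |(Y : ℝ) - Yr| + |Yr - yr| := abs_add_le _ _
      _ ≤ η * R + η * R := add_le_add h4 hYr
      _ = _ := by ring
  · have h4 := h3r'.le.trans (min_le_right _ _)
    calc |(Z : ℝ) - zr| = |((Z : ℝ) - Zr) + (Zr - zr)| := by ring_nf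
      _ ≤ |(Z : ℝ) - Zr| + |Zr - zr| := abs_add_le _ _
      _ ≤ η * R + η * R := add_le_add h4 hZr
      _ = _ := by ring

end Pool.Agent.Y714.RC
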