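import Pool.Agent.Y714.RC.B3
import Pool.Agent.Y714.RC.C3
import Pool.Agent.TH204.HP.H22

/-!
The symbols in one row; the points at the auxiliary primes.
-/

set_option autoImplicit false

namespace Pool.Agent.Y714.RC

open Finset Polynomial
open Pool.Agent.W313.BMX (Splits splits_swap splits_comm splits_mul_sq)
open Pool.Agent.TH204.HP

lemma bil' (p : Nat.Primes) (a b c : ℤ) (ha : a ≠ 0) (hb : b ≠ 0) (hc : c ≠ 0) :
    (Splits (a : ℚ_[(p : ℕ)]) ((b * c : ℤ) : ℚ_[(p : ℕ)]) ↔ (Splits (a : ℚ_[(p : ℕ)]) (b : ℚ_[(p : ℕ)]) ↔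
      Splits (a : ℚ_[(p : ℕ)]) (c : ℚ_[(p : ℕ)]))) :=
  Pool.Agent.W351.HB.PF.bil Pool.Agent.W215.HB.bilo_ Pool.Agent.W864.HBm.bilt_ p a b c ha hb hc

open Classical in
/-- the symbol of a product -/
lemma prod_even {ι : Type} (p : Nat.Primes) (a b : ℤ) (ha : a ≠ 0) (hb : b ≠ 0) (S : Finset ι) (V : ι → ℤ) (hV : ∀ j ∈ S, V j ≠ 0) :
    Splits (a : ℚ_[(p : ℕ)]) ((b * ∏ j ∈ S, V j : ℤ) : ℚ_[(p : ℕ)]) ↔
      Even (#(S.filter (fun j => ¬ Splits (a : ℚ_[(p : ℕ)]) (V j : ℚ_[(p : ℕ)]))) + (if Splits (a : ℚ_[(p : ℕ)]) (b : ℚ_[(p : ℕ)]) then 0 else 1)) := by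
  induction S using Finset.induction_on with
  | empty =>
    rw [prod_empty, mul_one, filter_empty, card_empty, zero_add]
    split_ifs with h
    · simp [h]
    · simp [h]
  | insert i S hi ih =>
    have h1 := ih (fun j hj => hV j (mem_insert_of_mem hj))
    have hVi := hV i (mem_insert_self _ _)
    have hprod : b * ∏ j ∈ S, V j ≠ 0 := mul_ne_zero hb (prod_ne_zero_iff.2 fun j hj => hV j (mem_insert_of_mem hj))
    rw [prod_insert hi, show b * (V i * ∏ j ∈ S, V j) = (b * ∏ j ∈ S, V j) * V i by ring, bil' p a _ _ ha hprod hVi, h1, filter_insert]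
    by_cases h2 : Splits (a : ℚ_[(p : ℕ)]) (V i : ℚ_[(p : ℕ)])
    · rw [if_neg (not_not.2 h2)]
      simp [h2]
    · rw [if_pos h2, card_insert_of_notMem (fun h => hi (mem_filter.1 h).1)]
      have e : ∀ m n : ℕ, (Even (m + n) ↔ False) ↔ Even (m + 1 + n) := by
        intro m n
        rw [iff_false, Nat.not_even_iff, Nat.even_iff]
        omega
      rw [← e]
      simp [h2]

open Classical in
/-- the sign of a product -/
lemma sign_even {ι : Type} (b : ℝ) (hb : b ≠ 0) (S : Finset ι) (w : ι → ℝ) (hw : ∀ j ∈ S, w j ≠ 0) :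
    0 < b * ∏ j ∈ S, w j ↔ Even (#(S.filter (fun j => w j < 0)) + (if b < 0 then 1 else 0)) := by
  induction S using Finset.induction_on with
  | empty =>
    rw [prod_empty, mul_one, filter_empty, card_empty, zero_add]
    split_ifs with h
    · simp [h.le]
    · simp [lt_of_le_of_ne (not_lt.1 h) (Ne.symm hb)]
  | insert i S hi ih =>
    have h1 := ih (fun j hj => hw j (mem_insert_of_mem hj))
    have hwi := hw i (mem_insert_self _ _)
    have hprod : b * ∏ j ∈ S, w j ≠ 0 := mul_ne_zero hb (prod_ne_zero_iff.2 fun j hj => hw j (mem_insert_of_mem hj))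
    rw [prod_insert hi, show b * (w i * ∏ j ∈ S, w j) = (b * ∏ j ∈ S, w j) * w i by ring, filter_insert]
    by_cases h2 : w i < 0
    · rw [if_pos h2, card_insert_of_notMem (fun h => hi (mem_filter.1 h).1)]
      have e : ∀ m n : ℕ, (¬ Even (m + n)) ↔ Even (m + 1 + n) := by
        intro m n
        rw [Nat.not_even_iff, Nat.even_iff]
        omega
      rw [← e, ← h1]
      constructor
      · intro h3 h4
        have := mul_neg_of_pos_of_neg h4 h2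
        linarith
      · intro h3
        exact mul_pos_of_neg_of_neg (lt_of_le_of_ne (not_lt.1 h3) hprod) h2
    · rw [if_neg h2, ← h1]
      have h3 : 0 < w i := lt_of_le_of_ne (not_lt.1 h2) (Ne.symm hwi)
      exact mul_pos_iff_of_pos_right h3

lemma even_sum' {ι : Type} (S : Finset ι) (g : ι → ℕ) (h : ∀ i ∈ S, Even (g i)) : Even (∑ i ∈ S, g i) := by
  classical
  induction S using Finset.induction_on with
  | empty => simp
  | insert i S hi ih =>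
    rw [sum_insert hi]
    exact (h i (mem_insert_self _ _)).add (ih fun j hj => h j (mem_insert_of_mem hj))

open Classical in
/-- the invariants of one row add up to zero -/
lemma row_even {ι : Type} (a c : ℤ) (ha : a ≠ 0) (hc : c ≠ 0) (S : Finset ι) (V : ι → ℤ) (hV : ∀ j ∈ S, V j ≠ 0) (T : Finset Nat.Primes)
    (h2T : ∀ p : Nat.Primes, (p : ℕ) = 2 → p ∈ T)
    (hTa : ∀ p : Nat.Primes, ((p : ℕ) : ℤ) ∣ a → p ∈ T) (hTc : ∀ p : Nat.Primes, ((p : ℕ) : ℤ) ∣ c → p ∈ T)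
    (hT : ∀ p ∈ T, Splits (a : ℚ_[((p : Nat.Primes) : ℕ)]) ((c * ∏ j ∈ S, V j : ℤ) : ℚ_[(p : ℕ)])) (w : ι → ℝ) (hw : ∀ j ∈ S, w j ≠ 0)
    (hr : a < 0 → 0 < (c : ℝ) * ∏ j ∈ S, w j) :
    Even (∑ j ∈ S, (#(T.filter (fun p : Nat.Primes => ¬ Splits (a : ℚ_[(p : ℕ)]) (V j : ℚ_[(p : ℕ)]))) + (if a < 0 ∧ w j < 0 then 1 else 0))) := by
  -- the finite places
  have h1 : Even (∑ p ∈ T, (#(S.filter (fun j => ¬ Splits (a : ℚ_[(p : ℕ)]) (V j : ℚ_[(p : ℕ)]))) +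
      (if Splits (a : ℚ_[(p : ℕ)]) (c : ℚ_[(p : ℕ)]) then 0 else 1))) :=
    even_sum' T _ fun p hp => (prod_even p a c ha hc S V hV).1 (hT p hp)
  have h2 : ∑ p ∈ T, (if Splits (a : ℚ_[(p : ℕ)]) (c : ℚ_[(p : ℕ)]) then 0 else 1) = #(T.filter (fun p : Nat.Primes => ¬ Splits (a : ℚ_[(p : ℕ)]) (c : ℚ_[(p : ℕ)]))) := by
    rw [card_filter]
    apply sum_congr rfl
    intro p _
    split_ifs <;> simp_all
  have h3 : ∑ p ∈ T, #(S.filter (fun j => ¬ Splits (a : ℚ_[(p : ℕ)]) (V j : ℚ_[(p : ℕ)]))) =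
      ∑ j ∈ S, #(T.filter (fun p : Nat.Primes => ¬ Splits (a : ℚ_[(p : ℕ)]) (V j : ℚ_[(p : ℕ)]))) := by
    simp_rw [card_filter]
    rw [sum_comm]
  rw [sum_add_distrib, h2, h3] at h1
  -- the real place
  have h4 : Even (∑ j ∈ S, (if a < 0 ∧ w j < 0 then 1 else 0) + (if a < 0 ∧ (c : ℝ) < 0 then 1 else 0)) := by
    by_cases ha' : a < 0
    · have h5 := (sign_even (c : ℝ) (by exact_mod_cast hc) S w hw).1 (hr ha')
      rw [card_filter] at h5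
      simpa [ha'] using h5
    · simp [ha']
  -- reciprocity
  have h5 : Even (#(T.filter (fun p : Nat.Primes => ¬ Splits (a : ℚ_[(p : ℕ)]) (c : ℚ_[(p : ℕ)]))) + (if a < 0 ∧ (c : ℝ) < 0 then 1 else 0)) := by
    have hinf : ∃ l : Nat.Primes, l ∉ T := by
      obtain ⟨q, hq1, hq2⟩ := Nat.exists_infinite_primes (∏ p ∈ T, (p : ℕ) + 1)
      refine ⟨⟨q, hq2⟩, fun h => ?_⟩
      have h6 : q ∣ ∏ p ∈ T, (p : ℕ) := dvd_prod_of_mem (fun p : Nat.Primes => (p : ℕ)) h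
      have h7 : 0 < ∏ p ∈ T, (p : ℕ) := prod_pos fun p _ => p.2.pos
      have := Nat.le_of_dvd h7 h6
      omega
    obtain ⟨l, hl⟩ := hinf
    exact parity_conv a c ha hc T l hl h2T hTa (fun p hp => Or.inl (hTc p hp)) (fun p => (c : ℚ_[(p : ℕ)])) (fun p _ => Iff.rfl) (c : ℝ)
      (by
        have : (c : ℝ) ≠ 0 := by exact_mod_cast hc
        exact mul_self_pos.2 this)
      (Pool.Agent.W335.BMX.odd2 (l : ℕ) (fun h => hl (h2T l h)) a c (fun h => hl (hTa l h)) (fun h => hl (hTc l h)))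
  rw [sum_add_distrib]
  rw [Nat.even_iff] at h1 h4 h5 ⊢
  omega

/-- symbols at an odd prime -/
lemma symb_exact (q : Nat.Primes) (hq2 : (q : ℕ) ≠ 2) (a x : ℤ) (ha : ¬ ((q : ℕ) : ℤ) ∣ a) (hx : ((q : ℕ) : ℤ) ∣ x) (hx2 : ¬ ((q : ℕ) : ℤ) ^ 2 ∣ x) :
    Splits (a : ℚ_[(q : ℕ)]) (x : ℚ_[(q : ℕ)]) ↔ legendreSym (q : ℕ) a = 1 := by
  obtain ⟨m, rfl⟩ := hx
  have hm : ¬ ((q : ℕ) : ℤ) ∣ m := by
    intro h
    apply hx2
    rw [sq]
    exact mul_dvd_mul_left _ h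
  rw [splits_comm]
  exact Pool.Agent.W335.BMX.odd3 (q : ℕ) hq2 m a hm ha

lemma symb_one (q : Nat.Primes) (hq2 : (q : ℕ) ≠ 2) (a : ℤ) (ha : ¬ ((q : ℕ) : ℤ) ∣ a) (h : legendreSym (q : ℕ) a = 1) (x : ℚ_[(q : ℕ)]) :
    Splits (a : ℚ_[(q : ℕ)]) x := by
  have h1 : IsSquare ((a * 1 : ℤ) : ℚ_[(q : ℕ)]) := by
    apply Pool.Agent.W335.BMX.odd1 (q : ℕ) hq2 a 1 ha
    · intro h
      exact (Nat.prime_iff_prime_int.1 q.2).not_dvd_one h
    · rw [h, legendreSym.at_one]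
  obtain ⟨s, hs⟩ := h1
  rw [mul_one] at hs
  rw [hs]
  exact ⟨1, 0, s, Or.inl one_ne_zero, by ring⟩

lemma PP_int {s : ℕ} (f : Fin s → ℤ[X]) (k : Fin s → ℤ) (j : Fin s) (t : ℤ) (F : Type) [Field F] :
    PP f k j ((t : ℤ) : F) = (((f j).eval t + k j : ℤ) : F) := by
  unfold PP
  rw [aeval_int]
  push_cast
  ring

open Classical in
/-- the point at an auxiliary prime -/
lemma hit_pt {r s : ℕ} (f : Fin s → ℤ[X]) (a c : Fin r → ℤ) (ha : ∀ i, a i ≠ 0) (hc : ∀ i, c i ≠ 0) (E : Fin r → Finset (Fin s)) (k : Fin s → ℤ)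
    (q : Nat.Primes) (hq2 : (q : ℕ) ≠ 2) (hqa : ∀ i, ¬ ((q : ℕ) : ℤ) ∣ a i) (hqc : ∀ i, ¬ ((q : ℕ) : ℤ) ∣ c i) (i0 : Fin r)
    (hl0 : legendreSym (q : ℕ) (a i0) = -1) (hl1 : ∀ i, i ≠ i0 → legendreSym (q : ℕ) (a i) = 1) (α β : Fin s) (hαβ : α ≠ β)
    (hα : α ∈ E i0) (hβ : β ∈ E i0) (h : Hit f (q : ℕ) α β k) :
    ∃ t : ℚ_[(q : ℕ)], ‖t‖ ≤ 1 ∧ (∀ j, ((q : ℕ) : ℝ)⁻¹ ≤ ‖PP f k j t‖) ∧
      (∀ i, Splits (a i : ℚ_[(q : ℕ)]) (c i * ∏ j ∈ E i, PP f k j t)) ∧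
      ∀ i j, (¬ Splits (a i : ℚ_[(q : ℕ)]) (PP f k j t) ↔ i = i0 ∧ (j = α ∨ j = β)) := by
  obtain ⟨t, ht⟩ := h
  have hp1 : (1 : ℝ) < ((q : ℕ) : ℝ) := one_lt_p (p := (q : ℕ))
  have hp0 : (0 : ℝ) < ((q : ℕ) : ℝ) := p_pos (p := (q : ℕ))
  obtain ⟨V, hV⟩ : ∃ V : Fin s → ℤ, V = fun j => (f j).eval t + k j := ⟨_, rfl⟩
  have hVe : ∀ j, PP f k j ((t : ℤ) : ℚ_[(q : ℕ)]) = (V j : ℚ_[(q : ℕ)]) := fun j => by rw [PP_int, hV]
  have hV1 : ∀ j, (j = α ∨ j = β) → ((q : ℕ) : ℤ) ∣ V j ∧ ¬ ((q : ℕ) : ℤ) ^ 2 ∣ V j := by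
    intro j hj
    have := ht j
    rw [if_pos hj] at this
    rw [hV]
    exact this
  have hV2 : ∀ j, ¬ (j = α ∨ j = β) → ¬ ((q : ℕ) : ℤ) ∣ V j := by
    intro j hj
    have := ht j
    rw [if_neg hj] at this
    rw [hV]
    exact this
  have hV0 : ∀ j, V j ≠ 0 := by
    intro j h0
    by_cases hj : j = α ∨ j = β
    · exact (hV1 j hj).2 (h0 ▸ dvd_zero _)
    · exact hV2 j hj (h0 ▸ dvd_zero _)
  have hsym : ∀ i j, (¬ Splits (a i : ℚ_[(q : ℕ)]) (V j : ℚ_[(q : ℕ)]) ↔ i = i0 ∧ (j = α ∨ j = β)) := by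
    intro i j
    by_cases hi : i = i0
    · subst hi
      by_cases hj : j = α ∨ j = β
      · rw [symb_exact q hq2 (a i) (V j) (hqa i) (hV1 j hj).1 (hV1 j hj).2, hl0]
        simp [hj]
      · have h1 := Pool.Agent.W335.BMX.odd2 (q : ℕ) hq2 (a i) (V j) (hqa i) (hV2 j hj)
        simp [hj, h1]
    · have h1 := symb_one q hq2 (a i) (hqa i) (hl1 i hi) (V j : ℚ_[(q : ℕ)])
      simp [hi, h1]
  refine ⟨((t : ℤ) : ℚ_[(q : ℕ)]), Padic.norm_int_le_one t, fun j => ?_, fun i => ?_, fun i j => ?_⟩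
  · rw [hVe]
    have h1 : ¬ ((q : ℕ) : ℤ) ^ 2 ∣ V j := by
      by_cases hj : j = α ∨ j = β
      · exact (hV1 j hj).2
      · exact fun h => hV2 j hj ((dvd_pow_self _ two_ne_zero).trans h)
    have h2 := int_norm_gt q (V j) 2 h1
    -- the norm is `1` or `1/q`
    by_cases hj : j = α ∨ j = β
    · obtain ⟨m, hm⟩ := (hV1 j hj).1
      have hm' : ¬ ((q : ℕ) : ℤ) ∣ m := by
        intro h
        apply h1
        rw [hm, sq]
        exact mul_dvd_mul_left _ h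
      rw [hm]
      push_cast
      rw [norm_mul, Padic.norm_p, unit_norm q m hm', mul_one]
    · rw [unit_norm q (V j) (hV2 j hj)]
      exact inv_le_one_of_one_le₀ hp1.le
  · have e : (c i : ℚ_[(q : ℕ)]) * ∏ j ∈ E i, PP f k j ((t : ℤ) : ℚ_[(q : ℕ)]) = ((c i * ∏ j ∈ E i, V j : ℤ) : ℚ_[(q : ℕ)]) := by
      push_cast
      rw [prod_congr rfl (fun j _ => hVe j)]
    rw [e]
    by_cases hi : i = i0
    · subst hi
      rw [prod_even q (a i) (c i) (ha i) (hc i) (E i) V (fun j _ => hV0 j),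
        if_pos (Pool.Agent.W335.BMX.odd2 (q : ℕ) hq2 (a i) (c i) (hqa i) (hqc i)), add_zero]
      have h1 : (E i).filter (fun j => ¬ Splits (a i : ℚ_[(q : ℕ)]) (V j : ℚ_[(q : ℕ)])) = {α, β} := by
        ext j
        rw [mem_filter, hsym, mem_insert, mem_singleton]
        constructor
        · exact fun h => h.2.2
        · rintro (rfl | rfl)
          · exact ⟨hα, rfl, Or.inl rfl⟩
          · exact ⟨hβ, rfl, Or.inr rfl⟩
      rw [h1, card_pair hαβ]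
      decide
    · exact symb_one q hq2 (a i) (hqa i) (hl1 i hi) _
  · rw [hVe]
    exact hsym i j

end Pool.Agent.Y714.RC
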