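import Pool.Agent.Y714.RC.E1

/-!
Removing the condition on the symbols with the help of auxiliary primes.
-/

set_option autoImplicit false

namespace Pool.Agent.Y714.RC

open Finset Polynomial
open Pool.Agent.W313.BMX (Splits splits_swap splits_comm splits_mul_sq)
open Pool.Agent.TH204.HP

/-- integers with the same symbols as the values -/
lemma int_vals {s : ℕ} (g : Fin s → ℤ[X]) (T : Finset Nat.Primes) (hTne : T.Nonempty) (N : ℕ) (k : Fin s → ℤ)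
    (v : (p : Nat.Primes) → ℚ_[(p : ℕ)]) (hv1 : ∀ p ∈ T, ‖v p‖ ≤ ((p : ℕ) : ℝ) ^ N)
    (hv2 : ∀ p ∈ T, ∀ j, (((p : ℕ) : ℝ) ^ N)⁻¹ ≤ ‖PP g k j (v p)‖) :
    ∃ V : Fin s → ℤ, (∀ j, V j ≠ 0) ∧ ∀ p ∈ T, ∀ j, ∃ σ : ℚ_[((p : Nat.Primes) : ℕ)], σ ≠ 0 ∧ ((V j : ℤ) : ℚ_[(p : ℕ)]) = PP g k j (v p) * σ ^ 2 := by
  obtain ⟨dm, hdm⟩ : ∃ dm, dm = ∑ j, (g j).natDegree := ⟨_, rfl⟩
  obtain ⟨E0, hE0⟩ : ∃ E0, E0 = (2 * dm + 2) * N + 3 := ⟨_, rfl⟩
  have hE0j : ∀ j, (2 * (g j).natDegree + 1) * N + 3 ≤ E0 := by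
    intro j
    rw [hE0]
    have h1 : (g j).natDegree ≤ dm := by
      rw [hdm]
      exact single_le_sum (f := fun j => (g j).natDegree) (fun _ _ => Nat.zero_le _) (mem_univ j)
    have h2 : (2 * (g j).natDegree + 1) * N ≤ (2 * dm + 2) * N := Nat.mul_le_mul_right _ (by omega)
    omega
  obtain ⟨D, hD⟩ : ∃ D, D = ∏ p ∈ T, (p : ℕ) ^ N := ⟨_, rfl⟩
  obtain ⟨M, hM⟩ : ∃ M, M = ∏ p ∈ T, (p : ℕ) ^ E0 := ⟨_, rfl⟩
  obtain ⟨u0, -, hu0⟩ := exists_u0 T N E0 D M v hv1 hD hM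
  have key : ∀ p ∈ T, ∀ j, ∃ σ : ℚ_[((p : Nat.Primes) : ℕ)], σ ≠ 0 ∧
      (((GG (g j) D).eval (u0 : ℤ) + (D : ℤ) ^ (2 * (g j).natDegree) * k j : ℤ) : ℚ_[(p : ℕ)]) = PP g k j (v p) * σ ^ 2 := by
    intro p hp j
    exact val_sq (g j) T N E0 (hE0j j) (k j) p hp (v p) (hv1 p hp) (hv2 p hp j) (u0 : ℤ) D hD (by
      have := hu0 0 p hp
      simpa using this) _ rfl
  refine ⟨fun j => (GG (g j) D).eval (u0 : ℤ) + (D : ℤ) ^ (2 * (g j).natDegree) * k j, fun j h0 => ?_, key⟩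
  obtain ⟨p, hp⟩ := hTne
  obtain ⟨σ, hσ, hσ2⟩ := key p hp j
  have h0' : (GG (g j) D).eval (u0 : ℤ) + (D : ℤ) ^ (2 * (g j).natDegree) * k j = 0 := h0
  rw [h0', Int.cast_zero] at hσ2
  have hP0 : PP g k j (v p) ≠ 0 := by
    intro h
    have h1 := hv2 p hp j
    rw [h, norm_zero] at h1
    have hpp : (0 : ℝ) < ((p : ℕ) : ℝ) := p_pos (p := (p : ℕ))
    have : (0 : ℝ) < (((p : ℕ) : ℝ) ^ N)⁻¹ := by positivity
    linarith
  exact mul_ne_zero hP0 (pow_ne_zero _ hσ) hσ2.symm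

lemma Sol.mono {r s : ℕ} {g : Fin s → ℤ[X]} {a b : Fin r → ℤ} {E : Fin r → Finset (Fin s)} {T T' : Finset Nat.Primes}
    {N N' B Y : ℕ} {k : Fin s → ℤ} {v v' : (p : Nat.Primes) → ℚ_[(p : ℕ)]} {vr : ℝ} (h : Sol g a b E T' N' B Y k v' vr)
    (hT : T ⊆ T') (hN : N ≤ N') (hv : ∀ p ∈ T, v' p = v p) : Sol g a b E T N B Y k v vr := by
  obtain ⟨q, h1, h2, h3, h4⟩ := h
  refine ⟨q, fun p hp => ?_, h2, h3, h4⟩
  have h5 := h1 p (hT hp)
  rw [hv p hp] at h5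
  refine h5.trans ?_
  have hpp : (1 : ℝ) < ((p : ℕ) : ℝ) := one_lt_p (p := (p : ℕ))
  apply inv_anti₀ (by positivity)
  exact pow_le_pow_right₀ hpp.le hN

open Classical in
/-- the counting of the flips -/
lemma flip_even {r s : ℕ} (E : Fin r → Finset (Fin s)) (β : Fin r → Fin s) (hβ : ∀ i, β i ∈ E i) (e : Fin r → Fin s → ℕ)
    (hrow : ∀ i, Even (∑ j ∈ E i, e i j)) (i : Fin r) (j : Fin s) (hj : j ∈ E i) :
    Even (e i j + #((univ.filter (fun x : Fin r × Fin s => x.2 ∈ E x.1 ∧ x.2 ≠ β x.1 ∧ ¬ Even (e x.1 x.2))).filter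
      (fun x => i = x.1 ∧ (j = x.2 ∨ j = β x.1)))) := by
  rw [filter_filter]
  by_cases hjb : j = β i
  · subst hjb
    have h1 : (univ.filter (fun x : Fin r × Fin s => (x.2 ∈ E x.1 ∧ x.2 ≠ β x.1 ∧ ¬ Even (e x.1 x.2)) ∧ (i = x.1 ∧ (β i = x.2 ∨ β i = β x.1)))) =
        (((E i).erase (β i)).filter (fun j' => Odd (e i j'))).image (fun j' => (i, j')) := by
      ext ⟨i', j'⟩
      rw [mem_filter, mem_image]
      constructor
      · rintro ⟨-, ⟨h1, h2, h3⟩, h4, -⟩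
        subst h4
        exact ⟨j', mem_filter.2 ⟨mem_erase.2 ⟨h2, h1⟩, Nat.not_even_iff_odd.1 h3⟩, rfl⟩
      · rintro ⟨j'', h1, h2⟩
        rw [Prod.mk.injEq] at h2
        obtain ⟨rfl, rfl⟩ := h2
        rw [mem_filter, mem_erase] at h1
        exact ⟨mem_univ _, ⟨h1.1.2, h1.1.1, Nat.not_even_iff_odd.2 h1.2⟩, rfl, Or.inr rfl⟩
    rw [h1, card_image_of_injective _ (fun x y h => (Prod.mk.inj h).2)]
    have h2 := (even_sum_iff_even_card_odd (s := E i) (fun j => e i j)).1 (hrow i)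
    have h3 : E i = insert (β i) ((E i).erase (β i)) := (insert_erase (hβ i)).symm
    rw [h3, filter_insert] at h2
    by_cases ho : Odd (e i (β i))
    · rw [if_pos ho, card_insert_of_notMem (by
        rw [mem_filter, mem_erase]
        tauto)] at h2
      rw [Nat.odd_iff] at ho
      rw [Nat.even_iff] at h2 ⊢
      omega
    · rw [if_neg ho] at h2
      rw [Nat.not_odd_iff_even] at ho
      exact ho.add h2
  · by_cases he : Even (e i j)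
    · have h1 : (univ.filter (fun x : Fin r × Fin s => (x.2 ∈ E x.1 ∧ x.2 ≠ β x.1 ∧ ¬ Even (e x.1 x.2)) ∧ (i = x.1 ∧ (j = x.2 ∨ j = β x.1)))) = ∅ := by
        apply filter_eq_empty_iff.2
        rintro ⟨i', j'⟩ - ⟨⟨h1, h2, h3⟩, h4, h5⟩
        simp only at h1 h2 h3 h4 h5
        subst h4
        rcases h5 with rfl | h5
        · exact h3 he
        · exact hjb h5
      rw [h1, card_empty, add_zero]
      exact he
    · have h1 : (univ.filter (fun x : Fin r × Fin s => (x.2 ∈ E x.1 ∧ x.2 ≠ β x.1 ∧ ¬ Even (e x.1 x.2)) ∧ (i = x.1 ∧ (j = x.2 ∨ j = β x.1)))) = {(i, j)} := by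
        ext ⟨i', j'⟩
        rw [mem_filter, mem_singleton, Prod.mk.injEq]
        constructor
        · rintro ⟨-, ⟨h1, h2, h3⟩, h4, h5⟩
          simp only at h1 h2 h3 h4 h5
          subst h4
          rcases h5 with rfl | h5
          · exact ⟨rfl, rfl⟩
          · exact absurd h5 hjb
        · rintro ⟨rfl, rfl⟩
          exact ⟨mem_univ _, ⟨hj, hjb, he⟩, rfl, Or.inl rfl⟩
      rw [h1, card_singleton, Nat.even_add_one]
      exact he

open Classical in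
/-- from the approximation with the symbols prescribed to the one without -/
lemma good_k {r s : ℕ} (g : Fin s → ℤ[X]) (a b : Fin r → ℤ) (ha : ∀ i, a i ≠ 0) (hb : ∀ i, b i ≠ 0) (E : Fin r → Finset (Fin s))
    (β : Fin r → Fin s) (hβ : ∀ i, β i ∈ E i) (T : Finset Nat.Primes) (h2T : ∀ p : Nat.Primes, (p : ℕ) = 2 → p ∈ T)
    (hT1 : ∀ p : Nat.Primes, (∃ i, ((p : ℕ) : ℤ) ∣ a i ∨ ((p : ℕ) : ℤ) ∣ b i) → p ∈ T) (N N' B Y : ℕ) (hN : N ≤ N') (hN1 : 1 ≤ N')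
    (hY : 1 ≤ Y) (k : Fin s → ℤ) (q : Fin r × Fin s → Nat.Primes) (hqT : ∀ x, q x ∉ T)
    (hq0 : ∀ x, legendreSym (q x : ℕ) (a x.1) = -1) (hq1 : ∀ x i, i ≠ x.1 → legendreSym (q x : ℕ) (a i) = 1)
    (hqi : Function.Injective q) (hit : ∀ x : Fin r × Fin s, x.2 ≠ β x.1 → Hit g (q x : ℕ) x.2 (β x.1) k)
    (hW : ∀ S : Finset Nat.Primes, S ⊆ univ.image q → ∀ v vr, Data g a b E (T ∪ S) N' B Y k v vr → Sol g a b E (T ∪ S) N' B Y k v vr)
    (v : (p : Nat.Primes) → ℚ_[(p : ℕ)]) (vr : ℝ)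
    (hv1 : ∀ p ∈ T, ‖v p‖ ≤ ((p : ℕ) : ℝ) ^ N) (hv2 : ∀ p ∈ T, ∀ j, (((p : ℕ) : ℝ) ^ N)⁻¹ ≤ ‖PP g k j (v p)‖)
    (hv3 : ∀ p ∈ T, ∀ i, Splits (a i : ℚ_[(p : ℕ)]) (b i * ∏ j ∈ E i, PP g k j (v p)))
    (r1 : (Y : ℝ) ≤ B * vr) (r2 : vr ≤ B * Y) (r3 : ∀ j, (Y : ℝ) ^ (g j).natDegree ≤ B * |PP g k j vr|)
    (r4 : ∀ i, a i < 0 → 0 < (b i : ℝ) * ∏ j ∈ E i, PP g k j vr) : Sol g a b E T N B Y k v vr := by
  have hTne : T.Nonempty := ⟨⟨2, Nat.prime_two⟩, h2T _ rfl⟩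
  obtain ⟨V, hV0, hV⟩ := int_vals g T hTne N k v hv1 hv2
  have hYr : (1 : ℝ) ≤ Y := by exact_mod_cast hY
  have hw0 : ∀ j, PP g k j vr ≠ 0 := by
    intro j h0
    have h1 := r3 j
    rw [h0, abs_zero, mul_zero] at h1
    have h2 : (0 : ℝ) < (Y : ℝ) ^ (g j).natDegree := by positivity
    linarith
  obtain ⟨e, he⟩ : ∃ e : Fin r → Fin s → ℕ, e = fun i j => #(T.filter (fun p : Nat.Primes => ¬ Splits (a i : ℚ_[(p : ℕ)]) (PP g k j (v p)))) +
    (if a i < 0 ∧ PP g k j vr < 0 then 1 else 0) := ⟨_, rfl⟩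
  have hsym : ∀ p ∈ T, ∀ i j, Splits (a i : ℚ_[((p : Nat.Primes) : ℕ)]) (V j : ℚ_[(p : ℕ)]) ↔ Splits (a i : ℚ_[(p : ℕ)]) (PP g k j (v p)) := by
    intro p hp i j
    obtain ⟨σ, hσ, hσ2⟩ := hV p hp j
    rw [hσ2]
    exact splits_mul_sq' hσ
  have hrow : ∀ i, Even (∑ j ∈ E i, e i j) := by
    intro i
    have h1 := row_even (a i) (b i) (ha i) (hb i) (E i) V (fun j _ => hV0 j) T h2T (fun p hp => hT1 p ⟨i, Or.inl hp⟩)
      (fun p hp => hT1 p ⟨i, Or.inr hp⟩) (by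
        intro p hp
        have h2 := hV p hp
        choose σ hσ hσ2 using h2
        have e1 : ((b i * ∏ j ∈ E i, V j : ℤ) : ℚ_[(p : ℕ)]) = (b i * ∏ j ∈ E i, PP g k j (v p)) * (∏ j ∈ E i, σ j) ^ 2 := by
          push_cast
          rw [← prod_pow, mul_assoc, ← prod_mul_distrib]
          congr 1
          apply prod_congr rfl
          intro j _
          exact hσ2 j
        rw [e1]
        exact (splits_mul_sq' (prod_ne_zero_iff.2 fun j _ => hσ j)).2 (hv3 p hp i))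
      (fun j => PP g k j vr) (fun j _ => hw0 j) (r4 i)
    have h2 : ∑ j ∈ E i, e i j = ∑ j ∈ E i, (#(T.filter (fun p : Nat.Primes => ¬ Splits (a i : ℚ_[(p : ℕ)]) (V j : ℚ_[(p : ℕ)]))) +
        (if a i < 0 ∧ PP g k j vr < 0 then 1 else 0)) := by
      apply sum_congr rfl
      intro j _
      rw [he]
      simp only
      congr 2
      apply filter_congr
      intro p hp
      rw [hsym p hp i j]
    rw [h2]
    exact h1
  obtain ⟨S0, hS0⟩ : ∃ S0, S0 = univ.filter (fun x : Fin r × Fin s => x.2 ∈ E x.1 ∧ x.2 ≠ β x.1 ∧ ¬ Even (e x.1 x.2)) := ⟨_, rfl⟩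
  have hpt : ∀ x ∈ S0, ∃ t : ℚ_[(q x : ℕ)], ‖t‖ ≤ 1 ∧ (∀ j, ((q x : ℕ) : ℝ)⁻¹ ≤ ‖PP g k j t‖) ∧
      (∀ i, Splits (a i : ℚ_[(q x : ℕ)]) (b i * ∏ j ∈ E i, PP g k j t)) ∧
      ∀ i j, (¬ Splits (a i : ℚ_[(q x : ℕ)]) (PP g k j t) ↔ i = x.1 ∧ (j = x.2 ∨ j = β x.1)) := by
    intro x hx
    rw [hS0, mem_filter] at hx
    obtain ⟨-, h1, h2, -⟩ := hx
    exact hit_pt g a b ha hb E k (q x) (fun h => hqT x (h2T _ h)) (fun i h => hqT x (hT1 _ ⟨i, Or.inl h⟩))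
      (fun i h => hqT x (hT1 _ ⟨i, Or.inr h⟩)) x.1 (hq0 x) (hq1 x) x.2 (β x.1) h2 h1 (hβ x.1) (hit x h2)
  have hv' : ∀ p : Nat.Primes, ∃ t : ℚ_[(p : ℕ)], (p ∈ T → t = v p) ∧ ∀ x ∈ S0, q x = p → (‖t‖ ≤ 1 ∧ (∀ j, ((p : ℕ) : ℝ)⁻¹ ≤ ‖PP g k j t‖) ∧
      (∀ i, Splits (a i : ℚ_[(p : ℕ)]) (b i * ∏ j ∈ E i, PP g k j t)) ∧
      ∀ i j, (¬ Splits (a i : ℚ_[(p : ℕ)]) (PP g k j t) ↔ i = x.1 ∧ (j = x.2 ∨ j = β x.1))) := by
    intro p
    by_cases hp : p ∈ T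
    · exact ⟨v p, fun _ => rfl, fun x _ hx => absurd (hx ▸ hp) (hqT x)⟩
    · by_cases h : ∃ x ∈ S0, q x = p
      · obtain ⟨x, hx, rfl⟩ := h
        obtain ⟨t, ht⟩ := hpt x hx
        refine ⟨t, fun h => absurd h (hqT x), fun x' hx' he' => ?_⟩
        have := hqi he'
        subst this
        exact ht
      · exact ⟨0, fun h => absurd h hp, fun x hx he' => absurd ⟨x, hx, he'⟩ h⟩
  choose v' hv'1 hv'2 using hv'
  have hdisj : Disjoint T (S0.image q) := by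
    rw [disjoint_left]
    intro p hp hp'
    obtain ⟨x, -, rfl⟩ := mem_image.1 hp'
    exact hqT x hp
  have hdata : Data g a b E (T ∪ S0.image q) N' B Y k v' vr := by
    have hpow : ∀ p : Nat.Primes, (((p : ℕ) : ℝ) ^ N')⁻¹ ≤ (((p : ℕ) : ℝ))⁻¹ := by
      intro p
      have hpp : (1 : ℝ) < ((p : ℕ) : ℝ) := one_lt_p (p := (p : ℕ))
      apply inv_anti₀ (by linarith)
      exact le_self_pow₀ hpp.le (by omega)
    refine ⟨?_, ?_, ?_, r1, r2, r3, r4, ?_⟩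
    · intro p hp
      have hpp : (1 : ℝ) < ((p : ℕ) : ℝ) := one_lt_p (p := (p : ℕ))
      rcases mem_union.1 hp with h | h
      · rw [hv'1 p h]
        exact (hv1 p h).trans (pow_le_pow_right₀ hpp.le hN)
      · obtain ⟨x, hx, rfl⟩ := mem_image.1 h
        exact (hv'2 _ x hx rfl).1.trans (one_le_pow₀ hpp.le)
    · intro p hp j
      have hpp : (1 : ℝ) < ((p : ℕ) : ℝ) := one_lt_p (p := (p : ℕ))
      rcases mem_union.1 hp with h | h
      · rw [hv'1 p h]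
        refine le_trans ?_ (hv2 p h j)
        apply inv_anti₀ (by positivity)
        exact pow_le_pow_right₀ hpp.le hN
      · obtain ⟨x, hx, rfl⟩ := mem_image.1 h
        exact (hpow _).trans ((hv'2 _ x hx rfl).2.1 j)
    · intro p hp i
      rcases mem_union.1 hp with h | h
      · rw [hv'1 p h]
        exact hv3 p h i
      · obtain ⟨x, hx, rfl⟩ := mem_image.1 h
        exact (hv'2 _ x hx rfl).2.2.1 i
    · intro i j hj
      have h1 : #((T ∪ S0.image q).filter (fun p : Nat.Primes => ¬ Splits (a i : ℚ_[(p : ℕ)]) (PP g k j (v' p)))) =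
          #(T.filter (fun p : Nat.Primes => ¬ Splits (a i : ℚ_[(p : ℕ)]) (PP g k j (v p)))) +
          #(S0.filter (fun x => i = x.1 ∧ (j = x.2 ∨ j = β x.1))) := by
        rw [filter_union, card_union_of_disjoint (disjoint_filter_filter hdisj)]
        congr 1
        · congr 1
          apply filter_congr
          intro p hp
          rw [hv'1 p hp]
        · rw [filter_image, card_image_of_injective _ hqi]
          congr 1
          apply filter_congr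
          intro x hx
          exact (hv'2 _ x hx rfl).2.2.2 i j
      have h2 := flip_even E β hβ e hrow i j hj
      rw [← hS0] at h2
      rw [h1]
      rw [he] at h2
      simp only at h2
      rw [Nat.even_iff] at h2 ⊢
      omega
  exact (hW (S0.image q) (image_subset_image (subset_univ _)) v' vr hdata).mono subset_union_left hN hv'1

end Pool.Agent.Y714.RC
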