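import Pool.Agent.Y714.RC.E2

/-!
Weak approximation of the base point for almost all shifts.
-/

set_option autoImplicit false

namespace Pool.Agent.Y714.RC

open Finset Polynomial
open Pool.Agent.W313.BMX (Splits splits_swap splits_comm splits_mul_sq)
open Pool.Agent.TH204.HP
open Pool.Agent.H373R2.T7 (ev_L')

/-- approximation of the base point, without a condition on the symbols -/
def Good {r s : ℕ} (g : Fin s → ℤ[X]) (a b : Fin r → ℤ) (E : Fin r → Finset (Fin s)) (T : Finset Nat.Primes) (N B Y : ℕ) (k : Fin s → ℤ) : Prop :=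
  ∀ (v : (p : Nat.Primes) → ℚ_[(p : ℕ)]) (vr : ℝ),
    (∀ p ∈ T, ‖v p‖ ≤ ((p : ℕ) : ℝ) ^ N) → (∀ p ∈ T, ∀ j, (((p : ℕ) : ℝ) ^ N)⁻¹ ≤ ‖PP g k j (v p)‖) →
    (∀ p ∈ T, ∀ i, Splits (a i : ℚ_[(p : ℕ)]) (b i * ∏ j ∈ E i, PP g k j (v p))) →
    (Y : ℝ) ≤ B * vr → vr ≤ B * Y → (∀ j, (Y : ℝ) ^ (g j).natDegree ≤ B * |PP g k j vr|) →
    (∀ i, a i < 0 → 0 < (b i : ℝ) * ∏ j ∈ E i, PP g k j vr) → Sol g a b E T N B Y k v vr

/-- the box of shifts -/
noncomputable def box {s : ℕ} (g : Fin s → ℤ[X]) (B Y : ℕ) : Finset (Fin s → ℤ) :=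
  Fintype.piFinset fun j => Icc (-((B * Y ^ (g j).natDegree : ℕ) : ℤ)) ((B * Y ^ (g j).natDegree : ℕ) : ℤ)

open Classical in
theorem thmD {r s : ℕ} (g : Fin s → ℤ[X]) (hg : ∀ j, 1 ≤ (g j).natDegree) (a b : Fin r → ℤ)
    (ha : ∀ S : Finset (Fin r), S.Nonempty → ¬ IsSquare (∏ i ∈ S, a i)) (hb : ∀ i, b i ≠ 0)
    (E : Fin r → Finset (Fin s)) (hE : ∀ i, (E i).Nonempty) (T : Finset Nat.Primes)
    (h2T : ∀ p : Nat.Primes, (p : ℕ) = 2 → p ∈ T)
    (hT1 : ∀ p : Nat.Primes, (∃ i, ((p : ℕ) : ℤ) ∣ a i ∨ ((p : ℕ) : ℤ) ∣ b i) → p ∈ T)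
    (hT2 : ∀ p : Nat.Primes, (p : ℕ) ≤ ∑ j, (g j).natDegree → p ∈ T)
    (hT3 : ∀ p : Nat.Primes, (∃ j, ((p : ℕ) : ℤ) ∣ (g j).leadingCoeff) → p ∈ T) (N B : ℕ) (hB : 1 ≤ B) (ε : ℝ) (hε : 0 < ε) :
    ∃ Y0 : ℕ, ∀ Y : ℕ, Y0 ≤ Y →
      (#((box g B Y).filter (fun k => ¬ Good g a b E T N B Y k)) : ℝ) ≤ ε * ∏ j, (Y : ℝ) ^ (g j).natDegree := by
  choose β hβ using hE
  have ha0 : ∀ i, a i ≠ 0 := by
    intro i h
    apply ha {i} (singleton_nonempty i)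
    rw [prod_singleton, h]
    exact ⟨0, by simp⟩
  obtain ⟨K0, hK0⟩ : ∃ K0 : ℕ, K0 = ∑ p ∈ T, (p : ℕ) + ∑ j, (g j).leadingCoeff.natAbs := ⟨_, rfl⟩
  have hK0T : ∀ p ∈ T, ((p : Nat.Primes) : ℕ) ≤ K0 := by
    intro p hp
    have h1 : (p : ℕ) ≤ ∑ p ∈ T, (p : ℕ) := single_le_sum (f := fun p : Nat.Primes => (p : ℕ)) (fun _ _ => Nat.zero_le _) hp
    omega
  have hlead : ∀ j, (g j).leadingCoeff ≠ 0 := by
    intro j h
    rw [leadingCoeff_eq_zero] at h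
    have := hg j
    rw [h, natDegree_zero] at this
    omega
  have hK0l : ∀ K, K0 ≤ K → ∀ j, ∀ q : ℕ, q.Prime → (q : ℤ) ∣ (g j).leadingCoeff → q ≤ K := by
    intro K hK j q _ hq
    have h1 : q ≤ (g j).leadingCoeff.natAbs := Nat.le_of_dvd (Int.natAbs_pos.2 (hlead j)) (Int.natCast_dvd.1 hq)
    have h2 : (g j).leadingCoeff.natAbs ≤ ∑ j, (g j).leadingCoeff.natAbs :=
      single_le_sum (f := fun j => (g j).leadingCoeff.natAbs) (fun _ _ => Nat.zero_le _) (mem_univ j)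
    omega
  obtain ⟨δ, hδd⟩ : ∃ δ : ℝ, δ = ε / (2 * (((r * s : ℕ) : ℝ) + 1) * (2 * B + 1) ^ s) := ⟨_, rfl⟩
  have hδ : 0 < δ := by rw [hδd]; positivity
  have haux := fun (i : Fin r) (m : ℕ) => aux_set a ha i g hg (K0 + m) (hK0l _ (Nat.le_add_right _ _)) δ hδ
  choose F hFne hF1 hF2 hF3 using haux
  obtain ⟨Ks, hKs⟩ : ∃ Ks : ℕ → ℕ, ∀ m, Ks (m + 1) = Ks m + ∑ i, ∑ q ∈ F i (Ks m), q :=
    ⟨fun n => Nat.rec 0 (fun _ m => m + ∑ i, ∑ q ∈ F i m, q) n, fun m => rfl⟩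
  have hKmono : Monotone Ks := monotone_nat_of_le_succ fun m => by rw [hKs]; exact Nat.le_add_right _ _
  have hKq : ∀ m i, ∀ q ∈ F i (Ks m), q ≤ Ks (m + 1) := by
    intro m i q hq
    rw [hKs]
    have h1 : q ≤ ∑ q ∈ F i (Ks m), q := single_le_sum (f := fun q : ℕ => q) (fun _ _ => Nat.zero_le _) hq
    have h2 : ∑ q ∈ F i (Ks m), q ≤ ∑ i, ∑ q ∈ F i (Ks m), q :=
      single_le_sum (f := fun i => ∑ q ∈ F i (Ks m), q) (fun _ _ => Nat.zero_le _) (mem_univ i)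
    omega
  obtain ⟨F', hF'⟩ : ∃ F' : Fin r × Fin s → Finset ℕ, F' = fun x => F x.1 (Ks (x.2 : ℕ)) := ⟨_, rfl⟩
  have hF'e : ∀ x, F' x = F x.1 (Ks (x.2 : ℕ)) := fun x => by rw [hF']
  obtain ⟨FF, hFFm⟩ : ∃ FF : Finset Nat.Primes, ∀ x, ∀ q : Nat.Primes, (q : ℕ) ∈ F' x → q ∈ FF := by
    have hfin : {p : Nat.Primes | (p : ℕ) ∈ univ.biUnion F'}.Finite := (finite_toSet _).preimage (Subtype.val_injective.injOn)
    refine ⟨hfin.toFinset, fun x q hq => ?_⟩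
    rw [Set.Finite.mem_toFinset]
    exact mem_biUnion.2 ⟨x, mem_univ _, hq⟩
  -- the exceptional sets
  have hC : ∀ S : Finset Nat.Primes, ∃ Y0 : ℕ, ∀ Y : ℕ, Y0 ≤ Y → ∃ Bad : Finset (Fin s → ℤ), (#Bad : ℝ) ≤ (∏ j, (Y : ℝ) ^ (g j).natDegree) / Real.log Y ^ 1 ∧
      ∀ k : Fin s → ℤ, (∀ j, |k j| ≤ ((B * Y ^ (g j).natDegree : ℕ) : ℤ)) → k ∉ Bad →
      ∀ (v : (p : Nat.Primes) → ℚ_[(p : ℕ)]) (vr : ℝ), Data g a b E (T ∪ S) (N + 1) B Y k v vr → Sol g a b E (T ∪ S) (N + 1) B Y k v vr := by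
    intro S
    exact thmC g hg a b ha0 hb E (T ∪ S) (fun p hp => mem_union_left _ (h2T p hp)) (fun p hp => mem_union_left _ (hT1 p hp))
      (fun p hp => mem_union_left _ (hT2 p hp)) (fun p hp => mem_union_left _ (hT3 p hp)) (N + 1) B 1 hB
  choose Y1 hY1 using hC
  obtain ⟨Y2, hY2⟩ := ev_L' (2 * 2 ^ (#FF) / ε + 1)
  obtain ⟨R, hR⟩ : ∃ R : Fin r × Fin s → ℕ, R = fun x => ∏ q ∈ F' x, q ^ 2 := ⟨_, rfl⟩
  refine ⟨max (FF.powerset.sup Y1) (max Y2 (∑ x, R x + 1)), fun Y hY => ?_⟩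
  have hYa : ∀ S ∈ FF.powerset, Y1 S ≤ Y := fun S hS => (le_sup hS).trans ((le_max_left _ _).trans hY)
  have hYb := hY2 Y ((le_trans (le_max_left _ _) (le_max_right _ _)).trans hY)
  have hYc : ∑ x, R x + 1 ≤ Y := (le_trans (le_max_right _ _) (le_max_right _ _)).trans hY
  have hY1' : 1 ≤ Y := by omega
  have hYr : (1 : ℝ) ≤ Y := by exact_mod_cast hY1'
  obtain ⟨Bd, hBd⟩ : ∃ Bd : Finset Nat.Primes → Finset (Fin s → ℤ), ∀ S ∈ FF.powerset,
      (#(Bd S) : ℝ) ≤ (∏ j, (Y : ℝ) ^ (g j).natDegree) / Real.log Y ^ 1 ∧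
      ∀ k : Fin s → ℤ, (∀ j, |k j| ≤ ((B * Y ^ (g j).natDegree : ℕ) : ℤ)) → k ∉ Bd S →
      ∀ (v : (p : Nat.Primes) → ℚ_[(p : ℕ)]) (vr : ℝ), Data g a b E (T ∪ S) (N + 1) B Y k v vr → Sol g a b E (T ∪ S) (N + 1) B Y k v vr := by
    have h1 : ∀ S : Finset Nat.Primes, ∃ Bad : Finset (Fin s → ℤ), S ∈ FF.powerset →
      (#Bad : ℝ) ≤ (∏ j, (Y : ℝ) ^ (g j).natDegree) / Real.log Y ^ 1 ∧
      ∀ k : Fin s → ℤ, (∀ j, |k j| ≤ ((B * Y ^ (g j).natDegree : ℕ) : ℤ)) → k ∉ Bad →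
      ∀ (v : (p : Nat.Primes) → ℚ_[(p : ℕ)]) (vr : ℝ), Data g a b E (T ∪ S) (N + 1) B Y k v vr → Sol g a b E (T ∪ S) (N + 1) B Y k v vr := by
      intro S
      by_cases hS : S ∈ FF.powerset
      · obtain ⟨Bad, h2⟩ := hY1 S Y (hYa S hS)
        exact ⟨Bad, fun _ => h2⟩
      · exact ⟨∅, fun h => absurd h hS⟩
    choose Bd h2 using h1
    exact ⟨Bd, h2⟩
  obtain ⟨Pr, hPr⟩ : ∃ Pr : Fin r × Fin s → (Fin s → ℤ) → Prop, ∀ x, Pr x = fun k => ∀ q ∈ F' x, ¬ Hit g q x.2 (β x.1) k :=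
    ⟨fun x k => ∀ q ∈ F' x, ¬ Hit g q x.2 (β x.1) k, fun _ => rfl⟩
  obtain ⟨Nh, hNh⟩ : ∃ Nh : Fin r × Fin s → Finset (Fin s → ℤ), Nh = fun x =>
      if x.2 = β x.1 then ∅ else (box g B Y).filter (Pr x) := ⟨_, rfl⟩
  have hsub : (box g B Y).filter (fun k => ¬ Good g a b E T N B Y k) ⊆ FF.powerset.biUnion Bd ∪ univ.biUnion Nh := by
    intro k hk
    rw [mem_filter] at hk
    obtain ⟨hkb, hk⟩ := hk
    by_contra hcon
    apply hk
    rw [mem_union, not_or, mem_biUnion, mem_biUnion] at hcon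
    push Not at hcon
    obtain ⟨hcon1, hcon2⟩ := hcon
    have hkabs : ∀ j, |k j| ≤ ((B * Y ^ (g j).natDegree : ℕ) : ℤ) := by
      intro j
      unfold box at hkb
      rw [Fintype.mem_piFinset] at hkb
      exact abs_le.2 (mem_Icc.1 (hkb j))
    -- the auxiliary primes
    have hq : ∀ x : Fin r × Fin s, ∃ q : Nat.Primes, (q : ℕ) ∈ F' x ∧ (x.2 ≠ β x.1 → Hit g (q : ℕ) x.2 (β x.1) k) := by
      intro x
      by_cases hx : x.2 = β x.1
      · obtain ⟨q, hq⟩ := hFne x.1 (Ks (x.2 : ℕ))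
        exact ⟨⟨q, (hF1 _ _ q hq).1⟩, by rw [hF'e]; exact hq, fun h => absurd hx h⟩
      · have h1 := hcon2 x (mem_univ _)
        rw [hNh] at h1
        simp only at h1
        rw [if_neg hx, mem_filter, not_and] at h1
        have h2 := h1 hkb
        rw [hPr] at h2
        push Not at h2
        obtain ⟨q, hq1, hq2⟩ := h2
        have hq1' := hq1
        rw [hF'e] at hq1'
        exact ⟨⟨q, (hF1 _ _ q hq1').1⟩, hq1, fun _ => hq2⟩
    choose q hqF hqh using hq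
    have hqF' : ∀ x, (q x : ℕ) ∈ F x.1 (Ks (x.2 : ℕ)) := fun x => by rw [← hF'e]; exact hqF x
    have hqK : ∀ x, K0 + Ks (x.2 : ℕ) < (q x : ℕ) := fun x => (hF1 _ _ _ (hqF' x)).2
    have hleg := fun x => hF2 x.1 (Ks (x.2 : ℕ)) (q x : ℕ) (hqF' x)
    have hinj : Function.Injective q := by
      rintro ⟨i, j⟩ ⟨i', j'⟩ he
      have hlt : ∀ (i i' : Fin r) (j j' : Fin s), q (i, j) = q (i', j') → (j : ℕ) < (j' : ℕ) → False := by
        intro i i' j j' he hlt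
        have h1 := hKq (j : ℕ) i _ (hqF' (i, j))
        have h2 := hqK (i', j')
        simp only at h2
        have h3 : Ks ((j : ℕ) + 1) ≤ Ks (j' : ℕ) := hKmono hlt
        rw [he] at h1
        omega
      have hj : j = j' := by
        rcases lt_trichotomy (j : ℕ) (j' : ℕ) with h | h | h
        · exact (hlt i i' j j' he h).elim
        · exact Fin.ext h
        · exact (hlt i' i j' j he.symm h).elim
      subst hj
      have hi : i = i' := by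
        by_contra hne
        have h1 := (hleg (i, j)).2.1
        have h2 := (hleg (i', j)).2.2 i hne
        simp only at h1
        rw [he] at h1
        rw [h1] at h2
        norm_num at h2
      rw [hi]
    intro v vr hv1 hv2 hv3 r1 r2 r3 r4
    refine good_k g a b ha0 hb E β hβ T h2T hT1 N (N + 1) B Y (Nat.le_succ _) (Nat.le_add_left _ _) hY1' k q ?_ (fun x => (hleg x).2.1)
      (fun x => (hleg x).2.2) hinj hqh ?_ v vr hv1 hv2 hv3 r1 r2 r3 r4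
    · intro x hx
      have h1 := hK0T _ hx
      have h2 := hqK x
      omega
    · intro S hS v vr
      have hSF : S ∈ FF.powerset := by
        rw [mem_powerset]
        intro p hp
        obtain ⟨x, -, rfl⟩ := mem_image.1 (hS hp)
        exact hFFm x _ (hqF x)
      exact (hBd S hSF).2 k hkabs (hcon1 S hSF) v vr
  -- the count
  obtain ⟨P, hP⟩ : ∃ P : ℝ, P = ∏ j, (Y : ℝ) ^ (g j).natDegree := ⟨_, rfl⟩
  have hP0 : 0 < P := by rw [hP]; exact prod_pos fun j _ => by positivity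
  have hL0 : 0 < Real.log Y := by
    have : 0 ≤ 2 * 2 ^ (#FF) / ε := by positivity
    linarith
  have hcount1 : (#(FF.powerset.biUnion Bd) : ℝ) ≤ ε / 2 * P := by
    have h1 : (#(FF.powerset.biUnion Bd) : ℝ) ≤ ∑ S ∈ FF.powerset, (#(Bd S) : ℝ) := by exact_mod_cast card_biUnion_le
    refine h1.trans ?_
    calc ∑ S ∈ FF.powerset, (#(Bd S) : ℝ) ≤ ∑ _S ∈ FF.powerset, P / Real.log Y := by
          apply sum_le_sum
          intro S hS
          have := (hBd S hS).1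
          rw [pow_one, ← hP] at this
          exact this
      _ = 2 ^ (#FF) * (P / Real.log Y) := by
          rw [sum_const, card_powerset, nsmul_eq_mul]
          push_cast
          rfl
      _ ≤ ε / 2 * P := by
          rw [← mul_div_assoc, div_le_iff₀ hL0]
          have h2 : 2 ^ (#FF) ≤ ε / 2 * Real.log Y := by
            have h3 : 2 * 2 ^ (#FF) / ε ≤ Real.log Y := by linarith
            rw [div_le_iff₀ hε] at h3
            linarith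
          calc 2 ^ (#FF) * P ≤ (ε / 2 * Real.log Y) * P := mul_le_mul_of_nonneg_right h2 hP0.le
            _ = _ := by ring
  have hcount2 : ∀ x, (#(Nh x) : ℝ) ≤ δ * (2 * B + 1) ^ s * P := by
    intro x
    rw [hNh]
    simp only
    split_ifs with hx
    · rw [card_empty]
      push_cast
      positivity
    · have h0 := hF3 x.1 (Ks (x.2 : ℕ)) x.2 (β x.1) hx
      rw [← hF'e, ← hPr] at h0
      have h1 := h0.count (fun j => B * Y ^ (g j).natDegree)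
      have h2 : ∀ j, 2 * ((B * Y ^ (g j).natDegree : ℕ) : ℝ) + 1 + ((∏ q ∈ F' x, q ^ 2 : ℕ) : ℝ) ≤ (2 * B + 1) * (Y : ℝ) ^ (g j).natDegree := by
        intro j
        have h3 : (∏ q ∈ F' x, q ^ 2) + 1 ≤ Y := by
          have h4 : R x ≤ ∑ x, R x := single_le_sum (f := R) (fun _ _ => Nat.zero_le _) (mem_univ x)
          have h5 : R x = ∏ q ∈ F' x, q ^ 2 := by rw [hR]
          omega
        have h4 : ((∏ q ∈ F' x, q ^ 2 : ℕ) : ℝ) + 1 ≤ Y := by exact_mod_cast h3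
        have h5 : (Y : ℝ) ≤ (Y : ℝ) ^ (g j).natDegree := le_self_pow₀ hYr (by have := hg j; omega)
        push_cast at h4 ⊢
        nlinarith
      have h3 : ∏ j, (2 * ((B * Y ^ (g j).natDegree : ℕ) : ℝ) + 1 + ((∏ q ∈ F' x, q ^ 2 : ℕ) : ℝ)) ≤ (2 * B + 1) ^ s * P := by
        calc ∏ j, (2 * ((B * Y ^ (g j).natDegree : ℕ) : ℝ) + 1 + ((∏ q ∈ F' x, q ^ 2 : ℕ) : ℝ)) ≤ ∏ j, ((2 * B + 1) * (Y : ℝ) ^ (g j).natDegree) :=
              prod_le_prod (fun j _ => by positivity) fun j _ => h2 j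
          _ = _ := by rw [prod_mul_distrib, prod_const, card_univ, Fintype.card_fin, hP]
      have h4 := h1.trans (mul_le_mul_of_nonneg_left h3 hδ.le)
      rw [← mul_assoc] at h4
      exact h4
  have hcount3 : (#(univ.biUnion Nh) : ℝ) ≤ ε / 2 * P := by
    have h1 : (#(univ.biUnion Nh) : ℝ) ≤ ∑ x, (#(Nh x) : ℝ) := by exact_mod_cast card_biUnion_le
    refine h1.trans ?_
    calc ∑ x, (#(Nh x) : ℝ) ≤ ∑ _x : Fin r × Fin s, δ * (2 * B + 1) ^ s * P := sum_le_sum fun x _ => hcount2 x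
      _ = ((r * s : ℕ) : ℝ) * (δ * (2 * B + 1) ^ s * P) := by
          rw [sum_const, card_univ, Fintype.card_prod, Fintype.card_fin, Fintype.card_fin, nsmul_eq_mul]
      _ ≤ (((r * s : ℕ) : ℝ) + 1) * (δ * (2 * B + 1) ^ s * P) := by
          apply mul_le_mul_of_nonneg_right (by linarith)
          positivity
      _ = ε / 2 * P := by
          rw [hδd]
          field_simp
  have hfin : (#((box g B Y).filter (fun k => ¬ Good g a b E T N B Y k)) : ℝ) ≤ #(FF.powerset.biUnion Bd) + #(univ.biUnion Nh) := by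
    exact_mod_cast (card_le_card hsub).trans (card_union_le _ _)
  rw [← hP]
  linarith

end Pool.Agent.Y714.RC
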