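import Pool.Agent.Y714.RC.E3
import Pool.Agent.Y714.RC.D1
import Pool.Agent.TH204.HP.H9

/-!
Weak approximation for almost all members of the family.
-/

set_option autoImplicit false

namespace Pool.Agent.Y714.RC

open Finset Polynomial Filter Topology
open Pool.Agent.W313.BMX (Splits splits_swap splits_comm splits_mul_sq)
open Pool.Agent.TH204.HP

/-- The point `(t, y, z)` lies on the variety
`y_i ^ 2 - a_i z_i ^ 2 = c_i ∏_{j ∈ E_i} (f_j(t) + k_j)`, with all the `f_j(t) + k_j` different from zero. -/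
def OnM {r s : ℕ} (f : Fin s → ℤ[X]) (a c : Fin r → ℤ) (E : Fin r → Finset (Fin s)) (k : Fin s → ℤ) {F : Type} [Field F]
    (t : F) (y z : Fin r → F) : Prop :=
  (∀ j, aeval t (f j) + (k j : F) ≠ 0) ∧ ∀ i, y i ^ 2 - (a i : F) * z i ^ 2 = (c i : F) * ∏ j ∈ E i, (aeval t (f j) + (k j : F))

/-- Approximation of level `N` at the primes of `T`, and of level `B` at the real place at the scale `X`. -/
def WAM {r s : ℕ} (f : Fin s → ℤ[X]) (a c : Fin r → ℤ) (E : Fin r → Finset (Fin s)) (T : Finset Nat.Primes) (N B X : ℕ) (k : Fin s → ℤ) : Prop :=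
  ∀ (t : (p : Nat.Primes) → ℚ_[(p : ℕ)]) (y z : (p : Nat.Primes) → Fin r → ℚ_[(p : ℕ)]) (tr : ℝ) (yr zr : Fin r → ℝ),
    (∀ p ∈ T, OnM f a c E k (t p) (y p) (z p) ∧ ‖t p‖ ≤ ((p : ℕ) : ℝ) ^ N ∧
      (∀ i, ‖y p i‖ ≤ ((p : ℕ) : ℝ) ^ N ∧ ‖z p i‖ ≤ ((p : ℕ) : ℝ) ^ N) ∧
      ∀ j, (((p : ℕ) : ℝ) ^ N)⁻¹ ≤ ‖aeval (t p) (f j) + (k j : ℚ_[(p : ℕ)])‖) →
    OnM f a c E k tr yr zr → |tr| ≤ B * X → (∀ j, (X : ℝ) ^ (f j).natDegree ≤ B * |aeval tr (f j) + (k j : ℝ)|) →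
    (∀ i, yr i ^ 2 ≤ B * (X : ℝ) ^ (∑ j ∈ E i, (f j).natDegree) ∧ zr i ^ 2 ≤ B * (X : ℝ) ^ (∑ j ∈ E i, (f j).natDegree)) →
    ∃ (q : ℚ) (Y Z : Fin r → ℚ), OnM f a c E k q Y Z ∧
      (∀ p ∈ T, ‖(q : ℚ_[(p : ℕ)]) - t p‖ ≤ (((p : ℕ) : ℝ) ^ N)⁻¹ ∧ ∀ i, ‖(Y i : ℚ_[(p : ℕ)]) - y p i‖ ≤ (((p : ℕ) : ℝ) ^ N)⁻¹ ∧
        ‖(Z i : ℚ_[(p : ℕ)]) - z p i‖ ≤ (((p : ℕ) : ℝ) ^ N)⁻¹) ∧
      B * |(q : ℝ) - tr| ≤ X ∧
      ∀ i, B * ((Y i : ℝ) - yr i) ^ 2 ≤ (X : ℝ) ^ (∑ j ∈ E i, (f j).natDegree) ∧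
        B * ((Z i : ℝ) - zr i) ^ 2 ≤ (X : ℝ) ^ (∑ j ∈ E i, (f j).natDegree)

/-- the polynomials with the variable multiplied by a sign -/
noncomputable def sf {s : ℕ} (σ : ℤ) (f : Fin s → ℤ[X]) (j : Fin s) : ℤ[X] := (f j).comp (C σ * X)

lemma sf_deg {s : ℕ} (σ : ℤ) (hσ : σ ≠ 0) (f : Fin s → ℤ[X]) (j : Fin s) : (sf σ f j).natDegree = (f j).natDegree := by
  unfold sf
  rw [natDegree_comp, natDegree_C_mul_X _ hσ, mul_one]

lemma sf_lead {s : ℕ} (σ : ℤ) (hσ : σ ≠ 0) (f : Fin s → ℤ[X]) (j : Fin s) :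
    (sf σ f j).leadingCoeff = (f j).leadingCoeff * σ ^ (f j).natDegree := by
  unfold sf
  rw [leadingCoeff_comp (by rw [natDegree_C_mul_X _ hσ]; exact one_ne_zero), leadingCoeff_C_mul_X]

lemma sf_PP {s : ℕ} (σ : ℤ) (f : Fin s → ℤ[X]) (k : Fin s → ℤ) (j : Fin s) {F : Type} [Field F] (v : F) :
    PP (sf σ f) k j v = PP f k j ((σ : F) * v) := by
  unfold PP sf
  rw [aeval_comp]
  simp

/-- the product polynomial -/
noncomputable def Gp {s : ℕ} (f : Fin s → ℤ[X]) (k : Fin s → ℤ) (S : Finset (Fin s)) : ℤ[X] := ∏ j ∈ S, (f j + C (k j))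

lemma Gp_aeval {s : ℕ} (f : Fin s → ℤ[X]) (k : Fin s → ℤ) (S : Finset (Fin s)) {F : Type} [Field F] (v : F) :
    aeval v (Gp f k S) = ∏ j ∈ S, PP f k j v := by
  unfold Gp PP
  rw [map_prod]
  apply prod_congr rfl
  intro j _
  simp

lemma Gp_deg {s : ℕ} (f : Fin s → ℤ[X]) (k : Fin s → ℤ) (S : Finset (Fin s)) : (Gp f k S).natDegree ≤ ∑ j, (f j).natDegree := by
  unfold Gp
  refine (natDegree_prod_le _ _).trans ?_
  calc ∑ j ∈ S, (f j + C (k j)).natDegree = ∑ j ∈ S, (f j).natDegree := by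
        apply sum_congr rfl
        intro j _
        rw [natDegree_add_C]
    _ ≤ _ := sum_le_sum_of_subset (subset_univ _)

/-- products of numbers near one -/
lemma prod_near {ι : Type} (S : Finset ι) (x : ι → ℝ) (κ : ℝ) (hκ : 0 ≤ κ) (hκ1 : κ ≤ 1) (hx : ∀ j ∈ S, |x j - 1| ≤ κ) :
    |∏ j ∈ S, x j - 1| ≤ 2 ^ (#S) * κ - κ := by
  classical
  induction S using Finset.induction_on with
  | empty => simp
  | insert i S hi ih =>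
    have h1 := ih (fun j hj => hx j (mem_insert_of_mem hj))
    have h2 := hx i (mem_insert_self _ _)
    rw [prod_insert hi, card_insert_of_notMem hi]
    have e : x i * ∏ j ∈ S, x j - 1 = (x i - 1) * (∏ j ∈ S, x j - 1) + (x i - 1) + (∏ j ∈ S, x j - 1) := by ring
    rw [e]
    obtain ⟨A, hA⟩ : ∃ A, A = ∏ j ∈ S, x j - 1 := ⟨_, rfl⟩
    rw [← hA] at h1 ⊢
    have h3 : |(x i - 1) * A| ≤ 1 * |A| := by
      rw [abs_mul]
      exact mul_le_mul_of_nonneg_right (h2.trans hκ1) (abs_nonneg _)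
    calc |(x i - 1) * A + (x i - 1) + A| ≤ |(x i - 1) * A + (x i - 1)| + |A| := abs_add_le _ _
      _ ≤ (|(x i - 1) * A| + |x i - 1|) + |A| := by gcongr; exact abs_add_le _ _
      _ ≤ (1 * |A| + κ) + |A| := by gcongr
      _ = 2 * |A| + κ := by ring
      _ ≤ 2 * (2 ^ (#S) * κ - κ) + κ := by linarith
      _ = _ := by rw [pow_succ]; ring

/-- the size of a nonzero integer -/
lemma int_low (p : Nat.Primes) (c : ℤ) (hc : c ≠ 0) (n : ℕ) (hn : c.natAbs ≤ n) : (((p : ℕ) : ℝ) ^ n)⁻¹ ≤ ‖(c : ℚ_[(p : ℕ)])‖ := by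
  apply le_of_lt
  apply int_norm_gt
  intro h
  have h1 : (p : ℕ) ^ n ∣ c.natAbs := by
    rw [← Int.natAbs_dvd_natAbs] at h
    rw [Int.natAbs_pow, Int.natAbs_natCast] at h
    exact h
  have h2 := Nat.le_of_dvd (Int.natAbs_pos.2 hc) h1
  have h3 : n < (p : ℕ) ^ n := Nat.lt_pow_self p.2.one_lt
  omega

end Pool.Agent.Y714.RC
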