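import Pool.Agent.Y714.RC.F1

/-!
From approximation of the base point to weak approximation; the real place.
-/

set_option autoImplicit false

namespace Pool.Agent.Y714.RC

open Finset Polynomial Filter Topology
open Pool.Agent.W313.BMX (Splits splits_swap splits_comm splits_mul_sq)
open Pool.Agent.TH204.HP

/-- real points near the given one -/
lemma real_close {s : ℕ} (f : Fin s → ℤ[X]) (hf : ∀ j, 1 ≤ (f j).natDegree) (B : ℕ) (hB : 1 ≤ B) :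
    ∃ B1 : ℕ, 2 * B + 1 ≤ B1 ∧ ∀ X : ℕ, 1 ≤ X → ∀ (k : Fin s → ℤ) (tr x : ℝ), |tr| ≤ B * X →
      (∀ j, (X : ℝ) ^ (f j).natDegree ≤ B * |PP f k j tr|) → B1 * |x - tr| ≤ 2 * X →
      ∀ j, PP f k j tr ≠ 0 ∧ |PP f k j x / PP f k j tr - 1| ≤ 1 / (2 * B * 2 ^ s) := by
  choose Kl hKl using fun j => real_lip (f j)
  obtain ⟨dm, hdm⟩ : ∃ dm, dm = ∑ j, (f j).natDegree := ⟨_, rfl⟩
  obtain ⟨K1, hK1⟩ : ∃ K1, K1 = ∑ j, Kl j := ⟨_, rfl⟩
  obtain ⟨B1, hB1⟩ : ∃ B1, B1 = 4 * K1 * (B + 2) ^ dm * B ^ 2 * 2 ^ s + 2 * B + 1 := ⟨_, rfl⟩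
  refine ⟨B1, by omega, fun X hX k tr x htr hP hx j => ?_⟩
  have hXr : (1 : ℝ) ≤ X := by exact_mod_cast hX
  have hBr : (1 : ℝ) ≤ B := by exact_mod_cast hB
  have hB1r : (1 : ℝ) ≤ B1 := by
    have : 1 ≤ B1 := by omega
    exact_mod_cast this
  have hPj := hP j
  have hP0 : PP f k j tr ≠ 0 := by
    intro h
    rw [h, abs_zero, mul_zero] at hPj
    have : (0 : ℝ) < (X : ℝ) ^ (f j).natDegree := by positivity
    linarith
  refine ⟨hP0, ?_⟩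
  have hPa : 0 < |PP f k j tr| := abs_pos.2 hP0
  have hxt : |x - tr| ≤ 2 * X := by
    have h1 : |x - tr| ≤ B1 * |x - tr| := le_mul_of_one_le_left (abs_nonneg _) hB1r
    exact h1.trans hx
  have hR1 : |tr| ≤ (B + 2) * X := htr.trans (by nlinarith)
  have hR2 : |x| ≤ (B + 2) * X := by
    calc |x| = |(x - tr) + tr| := by ring_nf
      _ ≤ |x - tr| + |tr| := abs_add_le _ _
      _ ≤ 2 * X + B * X := add_le_add hxt htr
      _ = _ := by ring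
  have h1 := hKl j ((B + 2) * X) x tr (by nlinarith) hR2 hR1
  have h2 : PP f k j x - PP f k j tr = aeval x (f j) - aeval tr (f j) := by
    unfold PP
    ring
  rw [← h2] at h1
  obtain ⟨d, hd⟩ : ∃ d, (f j).natDegree = d + 1 := ⟨(f j).natDegree - 1, by have := hf j; omega⟩
  have hKj : (Kl j : ℝ) ≤ K1 := by
    have : Kl j ≤ K1 := by rw [hK1]; exact single_le_sum (f := Kl) (fun _ _ => Nat.zero_le _) (mem_univ j)
    exact_mod_cast this
  have hdd : ((B : ℝ) + 2) ^ d ≤ (B + 2) ^ dm := by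
    apply pow_le_pow_right₀ (by linarith)
    have h3 : (f j).natDegree ≤ dm := by
      rw [hdm]
      exact single_le_sum (f := fun j => (f j).natDegree) (fun _ _ => Nat.zero_le _) (mem_univ j)
    omega
  rw [hd] at h1 hPj
  rw [Nat.add_sub_cancel] at h1
  have e : PP f k j x / PP f k j tr - 1 = (PP f k j x - PP f k j tr) / PP f k j tr := by field_simp
  rw [e, abs_div, div_le_div_iff₀ hPa (by positivity), one_mul]
  -- the main inequality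
  have h3 : |PP f k j x - PP f k j tr| ≤ K1 * (B + 2) ^ dm * (X ^ d * |x - tr|) := by
    calc |PP f k j x - PP f k j tr| ≤ Kl j * ((B + 2) * X) ^ d * |x - tr| := h1
      _ = Kl j * (B + 2) ^ d * (X ^ d * |x - tr|) := by rw [mul_pow]; ring
      _ ≤ _ := by gcongr
  have h4 : 4 * (K1 : ℝ) * (B + 2) ^ dm * B ^ 2 * 2 ^ s ≤ B1 := by
    rw [hB1]
    push_cast
    linarith
  obtain ⟨w, hw⟩ : ∃ w : ℝ, w = X ^ d * |x - tr| := ⟨_, rfl⟩
  have hw0 : 0 ≤ w := by rw [hw]; positivity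
  rw [← hw] at h3
  have h5 : B1 * w ≤ 2 * X ^ (d + 1) := by
    rw [hw]
    calc (B1 : ℝ) * (X ^ d * |x - tr|) = X ^ d * (B1 * |x - tr|) := by ring
      _ ≤ X ^ d * (2 * X) := mul_le_mul_of_nonneg_left hx (by positivity)
      _ = _ := by ring
  have h6 : 4 * (K1 : ℝ) * (B + 2) ^ dm * B ^ 2 * 2 ^ s * w ≤ B1 * w := mul_le_mul_of_nonneg_right h4 hw0
  have h7 : 2 * (B * ((K1 * (B + 2) ^ dm * w) * (2 * B * 2 ^ s))) ≤ 2 * (B * |PP f k j tr|) := by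
    calc 2 * (B * ((K1 * (B + 2) ^ dm * w) * (2 * B * 2 ^ s))) = 4 * (K1 : ℝ) * (B + 2) ^ dm * B ^ 2 * 2 ^ s * w := by ring
      _ ≤ 2 * (X : ℝ) ^ (d + 1) := h6.trans h5
      _ ≤ 2 * (B * |PP f k j tr|) := by linarith
  have h8 : (K1 * (B + 2) ^ dm * w) * (2 * B * 2 ^ s) ≤ |PP f k j tr| := by
    have h9 := le_of_mul_le_mul_left h7 (by norm_num : (0 : ℝ) < 2)
    exact le_of_mul_le_mul_left h9 (by linarith)
  calc |PP f k j x - PP f k j tr| * (2 * B * 2 ^ s) ≤ (K1 * (B + 2) ^ dm * w) * (2 * B * 2 ^ s) := by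
        apply mul_le_mul_of_nonneg_right h3
        positivity
    _ ≤ _ := h8

/-- the products -/
lemma prod_close {s : ℕ} (f : Fin s → ℤ[X]) (k : Fin s → ℤ) (B : ℕ) (hB : 1 ≤ B) (tr x : ℝ)
    (h : ∀ j, PP f k j tr ≠ 0 ∧ |PP f k j x / PP f k j tr - 1| ≤ 1 / (2 * B * 2 ^ s)) (S : Finset (Fin s)) (c : ℝ) :
    |c * ∏ j ∈ S, PP f k j x - c * ∏ j ∈ S, PP f k j tr| ≤ 1 / (2 * B) * |c * ∏ j ∈ S, PP f k j tr| := by
  have hBr : (1 : ℝ) ≤ B := by exact_mod_cast hB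
  have h2s : (1 : ℝ) ≤ 2 ^ s := one_le_pow₀ (by norm_num)
  obtain ⟨κ, hκ⟩ : ∃ κ : ℝ, κ = 1 / (2 * B * 2 ^ s) := ⟨_, rfl⟩
  have hκ0 : 0 ≤ κ := by rw [hκ]; positivity
  have hκ1 : κ ≤ 1 := by
    rw [hκ, div_le_one (by positivity)]
    nlinarith
  have h1 := prod_near S (fun j => PP f k j x / PP f k j tr) κ hκ0 hκ1 (fun j _ => by rw [hκ]; exact (h j).2)
  have hne : ∏ j ∈ S, PP f k j tr ≠ 0 := prod_ne_zero_iff.2 fun j _ => (h j).1
  have h2 : (2 : ℝ) ^ (#S) * κ - κ ≤ 1 / (2 * B) := by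
    have h3 : (2 : ℝ) ^ (#S) ≤ 2 ^ s := by
      apply pow_le_pow_right₀ (by norm_num)
      have := card_le_univ S
      rwa [Fintype.card_fin] at this
    have h4 : (2 : ℝ) ^ s * κ = 1 / (2 * B) := by
      rw [hκ]
      field_simp
    calc (2 : ℝ) ^ (#S) * κ - κ ≤ 2 ^ s * κ := by
          have := mul_le_mul_of_nonneg_right h3 hκ0
          linarith
      _ = _ := h4
  have e : c * ∏ j ∈ S, PP f k j x - c * ∏ j ∈ S, PP f k j tr = (∏ j ∈ S, (PP f k j x / PP f k j tr) - 1) * (c * ∏ j ∈ S, PP f k j tr) := by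
    rw [prod_div_distrib]
    field_simp
  rw [e, abs_mul]
  exact mul_le_mul_of_nonneg_right (h1.trans h2) (abs_nonneg _)

/-- the reduction -/
lemma wam_of {r s : ℕ} (f : Fin s → ℤ[X]) (hf : ∀ j, 1 ≤ (f j).natDegree) (a c : Fin r → ℤ) (ha : ∀ i, a i ≠ 0) (hc : ∀ i, c i ≠ 0)
    (E : Fin r → Finset (Fin s)) (T : Finset Nat.Primes) (N B : ℕ) (hB : 1 ≤ B) :
    ∃ N' B' : ℕ, B ≤ B' ∧ ∀ X : ℕ, 1 ≤ X → ∀ k : Fin s → ℤ, Good (sf 1 f) a c E T N' B' X k → Good (sf (-1) f) a c E T N' B' X k →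
      WAM f a c E T N B X k := by
  classical
  obtain ⟨B1, hB1, hreal⟩ := real_close f hf B hB
  obtain ⟨M, hM⟩ : ∃ M, M = s * N + ∑ i, (c i).natAbs := ⟨_, rfl⟩
  obtain ⟨dm, hdm⟩ : ∃ dm, dm = ∑ j, (f j).natDegree := ⟨_, rfl⟩
  obtain ⟨N', hN'⟩ : ∃ N', N' = (2 * dm + 3) * (N + M) + 3 := ⟨_, rfl⟩
  have hNN' : N ≤ N' := by rw [hN']; nlinarith
  refine ⟨N', B1, by omega, fun X hX k hG1 hG2 t y z tr yr zr hloc hre htr hPr hyz => ?_⟩
  have hXr : (1 : ℝ) ≤ X := by exact_mod_cast hX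
  have hBr : (1 : ℝ) ≤ B := by exact_mod_cast hB
  have hB1r : (2 : ℝ) * B + 1 ≤ B1 := by exact_mod_cast hB1
  have hB10 : (0 : ℝ) < B1 := by linarith
  have hPr' : ∀ j, (X : ℝ) ^ (f j).natDegree ≤ B * |PP f k j tr| := hPr
  -- the sign
  obtain ⟨σ, hσ, hσt, hG⟩ : ∃ σ : ℤ, (σ = 1 ∨ σ = -1) ∧ 0 ≤ (σ : ℝ) * tr ∧ Good (sf σ f) a c E T N' B1 X k := by
    rcases le_total 0 tr with h | h
    · exact ⟨1, Or.inl rfl, by simpa using h, hG1⟩
    · exact ⟨-1, Or.inr rfl, by push_cast; linarith, hG2⟩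
  have hσ0 : σ ≠ 0 := by rcases hσ with h | h <;> rw [h] <;> norm_num
  have hσσ : σ * σ = 1 := by rcases hσ with h | h <;> rw [h] <;> norm_num
  have hσF : ∀ (F : Type) [Field F], (σ : F) * σ = 1 := by
    intro F _
    rcases hσ with h | h <;> rw [h] <;> simp
  have hσa : |(σ : ℝ)| = 1 := by rcases hσ with h | h <;> rw [h] <;> simp
  obtain ⟨vr, hvr⟩ : ∃ vr : ℝ, vr = σ * tr + X / B1 := ⟨_, rfl⟩
  obtain ⟨tr', htr'⟩ : ∃ tr' : ℝ, tr' = σ * vr := ⟨_, rfl⟩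
  have htt : tr' - tr = σ * (X / B1) := by
    rw [htr', hvr, mul_add, ← mul_assoc, hσF ℝ, one_mul]
    ring
  have htt2 : |tr' - tr| = X / B1 := by
    rw [htt, abs_mul, hσa, one_mul, abs_of_nonneg (by positivity)]
  have hvabs : σ * tr = |tr| := by
    rw [← abs_of_nonneg hσt, abs_mul, hσa, one_mul]
  have hclose1 := hreal X hX k tr tr' htr hPr' (by
    rw [htt2, mul_div_cancel₀ _ hB10.ne']
    linarith)
  have hPPv : ∀ j, PP (sf σ f) k j vr = PP f k j tr' := fun j => by rw [sf_PP, htr']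
  -- the conditions
  have hdat := hG (fun p => (σ : ℚ_[(p : ℕ)]) * t p) vr (by
      intro p hp
      have hp1 : (1 : ℝ) < ((p : ℕ) : ℝ) := one_lt_p (p := (p : ℕ))
      have hσn : ‖(σ : ℚ_[(p : ℕ)])‖ ≤ 1 := Padic.norm_int_le_one σ
      rw [norm_mul]
      calc ‖(σ : ℚ_[(p : ℕ)])‖ * ‖t p‖ ≤ 1 * ((p : ℕ) : ℝ) ^ N := mul_le_mul hσn (hloc p hp).2.1 (norm_nonneg _) zero_le_one
        _ ≤ _ := by rw [one_mul]; exact pow_le_pow_right₀ hp1.le hNN') (by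
      intro p hp j
      have hp1 : (1 : ℝ) < ((p : ℕ) : ℝ) := one_lt_p (p := (p : ℕ))
      rw [sf_PP, ← mul_assoc, hσF ℚ_[(p : ℕ)], one_mul]
      refine le_trans ?_ ((hloc p hp).2.2.2 j)
      apply inv_anti₀ (by positivity)
      exact pow_le_pow_right₀ hp1.le hNN') (by
      intro p hp i
      have h1 : ∏ j ∈ E i, PP (sf σ f) k j ((σ : ℚ_[(p : ℕ)]) * t p) = ∏ j ∈ E i, PP f k j (t p) := by
        apply prod_congr rfl
        intro j _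
        rw [sf_PP, ← mul_assoc, hσF ℚ_[(p : ℕ)], one_mul]
      rw [h1]
      have h2 := (hloc p hp).1
      exact (conic_iff _ _ (by exact_mod_cast ha i) (mul_ne_zero (by exact_mod_cast hc i) (prod_ne_zero_iff.2 fun j _ => h2.1 j))).1
        ⟨y p i, z p i, h2.2 i⟩) (by
      rw [hvr, mul_add, mul_div_cancel₀ _ hB10.ne']
      have : 0 ≤ B1 * (σ * tr) := mul_nonneg hB10.le hσt
      linarith) (by
      rw [hvr, hvabs]
      have h1 : (X : ℝ) / B1 ≤ X := div_le_self (by linarith) (by linarith)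
      nlinarith) (by
      intro j
      rw [sf_deg σ hσ0, hPPv]
      obtain ⟨h1, h2⟩ := hclose1 j
      have h3 : |PP f k j tr| ≤ 2 * |PP f k j tr'| := by
        have h4 : (1 : ℝ) / (2 * B * 2 ^ s) ≤ 1 / 2 := by
          apply one_div_le_one_div_of_le (by norm_num)
          have : (1 : ℝ) ≤ 2 ^ s := one_le_pow₀ (by norm_num)
          nlinarith
        have h5 := (abs_le.1 (h2.trans h4)).1
        have h6 : (1 : ℝ) / 2 ≤ PP f k j tr' / PP f k j tr := by linarith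
        have h7 : (1 : ℝ) / 2 ≤ |PP f k j tr'| / |PP f k j tr| := by
          rw [← abs_div]
          exact h6.trans (le_abs_self _)
        rw [le_div_iff₀ (abs_pos.2 h1)] at h7
        linarith
      calc (X : ℝ) ^ (f j).natDegree ≤ B * |PP f k j tr| := hPr' j
        _ ≤ B * (2 * |PP f k j tr'|) := mul_le_mul_of_nonneg_left h3 (by linarith)
        _ ≤ B1 * |PP f k j tr'| := by nlinarith [abs_nonneg (PP f k j tr')]) (by
      intro i hai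
      have h1 : ∏ j ∈ E i, PP (sf σ f) k j vr = ∏ j ∈ E i, PP f k j tr' := prod_congr rfl fun j _ => hPPv j
      rw [h1]
      have h2 := prod_close f k B hB tr tr' hclose1 (E i) (c i : ℝ)
      have h3 : 0 < (c i : ℝ) * ∏ j ∈ E i, PP f k j tr := by
        have h4 : (c i : ℝ) * ∏ j ∈ E i, PP f k j tr ≠ 0 :=
          mul_ne_zero (by exact_mod_cast hc i) (prod_ne_zero_iff.2 fun j _ => (hclose1 j).1)
        have h5 : yr i ^ 2 - (a i : ℝ) * zr i ^ 2 = (c i : ℝ) * ∏ j ∈ E i, PP f k j tr := hre.2 i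
        have h6 : 0 ≤ (c i : ℝ) * ∏ j ∈ E i, PP f k j tr := by
          rw [← h5]
          have h7 : (a i : ℝ) < 0 := by exact_mod_cast hai
          nlinarith [sq_nonneg (yr i), sq_nonneg (zr i), mul_nonneg (neg_nonneg.2 h7.le) (sq_nonneg (zr i))]
        exact lt_of_le_of_ne h6 h4.symm
      rw [abs_of_pos h3] at h2
      have h4 := (abs_le.1 h2).1
      have h5 : (1 : ℝ) / (2 * B) ≤ 1 / 2 := by
        apply one_div_le_one_div_of_le (by norm_num)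
        linarith
      have h6 : 1 / (2 * (B : ℝ)) * (c i * ∏ j ∈ E i, PP f k j tr) ≤ 1 / 2 * (c i * ∏ j ∈ E i, PP f k j tr) :=
        mul_le_mul_of_nonneg_right h5 h3.le
      linarith)
  obtain ⟨q0, hq1, hq2, -, hq4⟩ := hdat
  obtain ⟨q, hq⟩ : ∃ q : ℚ, q = σ * q0 := ⟨_, rfl⟩
  have hqt : (q : ℝ) - tr' = σ * ((q0 : ℝ) - vr) := by
    rw [hq, htr']
    push_cast
    ring
  have hqt2 : |(q : ℝ) - tr'| * B1 ≤ X := by
    rw [hqt, abs_mul, hσa, one_mul]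
    exact hq2
  have hqt3 : B1 * |(q : ℝ) - tr| ≤ 2 * X := by
    have h1 : |(q : ℝ) - tr| ≤ |(q : ℝ) - tr'| + |tr' - tr| := by
      calc |(q : ℝ) - tr| = |((q : ℝ) - tr') + (tr' - tr)| := by ring_nf
        _ ≤ _ := abs_add_le _ _
    rw [htt2] at h1
    calc (B1 : ℝ) * |(q : ℝ) - tr| ≤ B1 * (|(q : ℝ) - tr'| + X / B1) := mul_le_mul_of_nonneg_left h1 hB10.le
      _ = |(q : ℝ) - tr'| * B1 + X := by field_simp
      _ ≤ _ := by linarith
  have hclose2 := hreal X hX k tr q htr hPr' hqt3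
  have hPQ : ∀ j, PP (sf σ f) k j q0 = PP f k j q := fun j => by rw [sf_PP, hq]
  have hcastR : ∀ j, ((PP f k j q : ℚ) : ℝ) = PP f k j (q : ℝ) := by
    intro j
    unfold PP
    have h1 : aeval (q : ℝ) (f j) = ((aeval q (f j) : ℚ) : ℝ) := aeval_algebraMap_apply ℝ q (f j)
    rw [h1]
    push_cast
    rfl
  have hcastP : ∀ (p : Nat.Primes) j, ((PP f k j q : ℚ) : ℚ_[(p : ℕ)]) = PP f k j (q : ℚ_[(p : ℕ)]) := by
    intro p j
    unfold PP
    have h1 : aeval (q : ℚ_[(p : ℕ)]) (f j) = ((aeval q (f j) : ℚ) : ℚ_[(p : ℕ)]) := aeval_algebraMap_apply ℚ_[(p : ℕ)] q (f j)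
    rw [h1]
    push_cast
    rfl
  have hPne : ∀ j, PP f k j q ≠ 0 := by
    intro j h0
    obtain ⟨h1, h2⟩ := hclose2 j
    rw [← hcastR, h0, Rat.cast_zero, zero_div, zero_sub, abs_neg, abs_one, le_div_iff₀ (by positivity)] at h2
    have : (1 : ℝ) ≤ 2 ^ s := one_le_pow₀ (by norm_num)
    nlinarith
  -- approximation at the primes
  have hqp : ∀ p ∈ T, ‖(q : ℚ_[((p : Nat.Primes) : ℕ)]) - t p‖ ≤ (((p : ℕ) : ℝ) ^ N')⁻¹ := by
    intro p hp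
    have h1 := hq1 p hp
    have e : (q : ℚ_[(p : ℕ)]) - t p = (σ : ℚ_[(p : ℕ)]) * ((q0 : ℚ_[(p : ℕ)]) - σ * t p) := by
      rw [hq, mul_sub, ← mul_assoc, hσF ℚ_[(p : ℕ)]]
      push_cast
      ring
    rw [e, norm_mul]
    have hσn : ‖(σ : ℚ_[(p : ℕ)])‖ ≤ 1 := Padic.norm_int_le_one σ
    calc ‖(σ : ℚ_[(p : ℕ)])‖ * ‖(q0 : ℚ_[(p : ℕ)]) - σ * t p‖ ≤ 1 * (((p : ℕ) : ℝ) ^ N')⁻¹ :=
          mul_le_mul hσn h1 (norm_nonneg _) zero_le_one
      _ = _ := one_mul _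
  -- the fibres
  have hfib : ∀ i : Fin r, ∃ Y Z : ℚ, Y ^ 2 - (a i : ℚ) * Z ^ 2 = c i * ∏ j ∈ E i, PP f k j q ∧
      (∀ p ∈ T, ‖(Y : ℚ_[(p : ℕ)]) - y p i‖ ≤ (((p : ℕ) : ℝ) ^ N)⁻¹ ∧ ‖(Z : ℚ_[(p : ℕ)]) - z p i‖ ≤ (((p : ℕ) : ℝ) ^ N)⁻¹) ∧
      B * ((Y : ℝ) - yr i) ^ 2 ≤ (X : ℝ) ^ (∑ j ∈ E i, (f j).natDegree) ∧
        B * ((Z : ℝ) - zr i) ^ 2 ≤ (X : ℝ) ^ (∑ j ∈ E i, (f j).natDegree) := by
    intro i
    obtain ⟨W, hW⟩ : ∃ W : ℝ, W = (X : ℝ) ^ (∑ j ∈ E i, (f j).natDegree) := ⟨_, rfl⟩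
    have hW0 : 0 < W := by rw [hW]; positivity
    obtain ⟨hyi, hzi⟩ := hyz i
    rw [← hW] at hyi hzi ⊢
    obtain ⟨R, hR⟩ : ∃ R : ℝ, R = Real.sqrt (B * W) := ⟨_, rfl⟩
    have hBW : 0 < B * W := by positivity
    have hR0 : 0 < R := by rw [hR]; exact Real.sqrt_pos.2 hBW
    have hR2 : R ^ 2 = B * W := by rw [hR]; exact Real.sq_sqrt hBW.le
    have hsQ : Splits (a i : ℚ) (c i * ∏ j ∈ E i, PP f k j q) := by
      have h1 := hq4 i
      rw [prod_congr rfl (fun j _ => hPQ j)] at h1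
      exact h1
    have hbQ : (c i : ℚ) * ∏ j ∈ E i, PP f k j q ≠ 0 := mul_ne_zero (by exact_mod_cast hc i) (prod_ne_zero_iff.2 fun j _ => hPne j)
    have hbrne : (c i : ℝ) * ∏ j ∈ E i, PP f k j tr ≠ 0 := mul_ne_zero (by exact_mod_cast hc i) (prod_ne_zero_iff.2 fun j _ => (hclose2 j).1)
    have hsN : ∀ p ∈ T, (((p : ℕ) : ℝ) ^ M)⁻¹ ≤ ‖(c i : ℚ_[((p : Nat.Primes) : ℕ)]) * ∏ j ∈ E i, PP f k j (t p)‖ := by
      intro p hp
      have hp1 : (1 : ℝ) < ((p : ℕ) : ℝ) := one_lt_p (p := (p : ℕ))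
      have h1 : (((p : ℕ) : ℝ) ^ (∑ i, (c i).natAbs))⁻¹ ≤ ‖(c i : ℚ_[(p : ℕ)])‖ :=
        int_low p (c i) (hc i) _ (single_le_sum (f := fun i => (c i).natAbs) (fun _ _ => Nat.zero_le _) (mem_univ i))
      have h2 : (((p : ℕ) : ℝ) ^ (s * N))⁻¹ ≤ ‖∏ j ∈ E i, PP f k j (t p)‖ := by
        rw [norm_prod]
        calc (((p : ℕ) : ℝ) ^ (s * N))⁻¹ ≤ (((p : ℕ) : ℝ) ^ (#(E i) * N))⁻¹ := by
              apply inv_anti₀ (by positivity)
              apply pow_le_pow_right₀ hp1.le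
              apply Nat.mul_le_mul_right
              have := card_le_univ (E i)
              rwa [Fintype.card_fin] at this
          _ = ∏ _j ∈ E i, (((p : ℕ) : ℝ) ^ N)⁻¹ := by
              rw [prod_const, inv_pow, ← pow_mul, mul_comm]
          _ ≤ _ := prod_le_prod (fun _ _ => by positivity) fun j _ => (hloc p hp).2.2.2 j
      rw [norm_mul, hM, pow_add, mul_inv, mul_comm ((((p : ℕ) : ℝ) ^ (s * N))⁻¹)]
      exact mul_le_mul h1 h2 (by positivity) (norm_nonneg _)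
    have hsB : ∀ p ∈ T, ‖(((c i : ℚ) * ∏ j ∈ E i, PP f k j q : ℚ) : ℚ_[((p : Nat.Primes) : ℕ)]) - (c i : ℚ_[(p : ℕ)]) * ∏ j ∈ E i, PP f k j (t p)‖ ≤
        (((p : ℕ) : ℝ) ^ (2 * N + 3 + M))⁻¹ := by
      intro p hp
      have hp1 : (1 : ℝ) < ((p : ℕ) : ℝ) := one_lt_p (p := (p : ℕ))
      have e : (((c i : ℚ) * ∏ j ∈ E i, PP f k j q : ℚ) : ℚ_[(p : ℕ)]) - (c i : ℚ_[(p : ℕ)]) * ∏ j ∈ E i, PP f k j (t p) =
          (c i : ℚ_[(p : ℕ)]) * (aeval (q : ℚ_[(p : ℕ)]) (Gp f k (E i)) - aeval (t p) (Gp f k (E i))) := by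
        rw [Gp_aeval, Gp_aeval, mul_sub]
        push_cast
        rw [prod_congr rfl (fun j _ => hcastP p j)]
      rw [e, norm_mul]
      have ht1 : ‖t p‖ ≤ ((p : ℕ) : ℝ) ^ (N + M) := (hloc p hp).2.1.trans (pow_le_pow_right₀ hp1.le (Nat.le_add_right _ _))
      have hqt1 : ‖(q : ℚ_[(p : ℕ)]) - t p‖ ≤ ((p : ℕ) : ℝ) ^ (N + M) := by
        refine (hqp p hp).trans ?_
        calc (((p : ℕ) : ℝ) ^ N')⁻¹ ≤ 1 := inv_le_one_of_one_le₀ (one_le_pow₀ hp1.le)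
          _ ≤ _ := one_le_pow₀ hp1.le
      have hq1' : ‖(q : ℚ_[(p : ℕ)])‖ ≤ ((p : ℕ) : ℝ) ^ (N + M) := by
        have e2 : (q : ℚ_[(p : ℕ)]) = ((q : ℚ_[(p : ℕ)]) - t p) + t p := by ring
        rw [e2]
        exact (Padic.nonarchimedean _ _).trans (max_le hqt1 ht1)
      have h3 := lip2 (Gp f k (E i)) T (N + M) p hp (q : ℚ_[(p : ℕ)]) (t p) hq1' ht1 (by
        refine (hqp p hp).trans ?_
        apply inv_anti₀ (by positivity)
        apply pow_le_pow_right₀ hp1.le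
        rw [hN']
        have h4 := Gp_deg f k (E i)
        rw [← hdm] at h4
        have h5 : (2 * (Gp f k (E i)).natDegree + 3) * (N + M) ≤ (2 * dm + 3) * (N + M) := Nat.mul_le_mul_right _ (by omega)
        omega)
      have hcn : ‖(c i : ℚ_[(p : ℕ)])‖ ≤ 1 := Padic.norm_int_le_one (c i)
      calc ‖(c i : ℚ_[(p : ℕ)])‖ * ‖aeval (q : ℚ_[(p : ℕ)]) (Gp f k (E i)) - aeval (t p) (Gp f k (E i))‖ ≤
          1 * (((p : ℕ) : ℝ) ^ (3 * (N + M) + 3))⁻¹ := mul_le_mul hcn h3 (norm_nonneg _) zero_le_one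
        _ ≤ _ := by
            rw [one_mul]
            apply inv_anti₀ (by positivity)
            apply pow_le_pow_right₀ hp1.le
            omega
    have hbr := prod_close f k B hB tr q hclose2 (E i) (c i : ℝ)
    have hbr' : |(((c i : ℚ) * ∏ j ∈ E i, PP f k j q : ℚ) : ℝ) - (c i : ℝ) * ∏ j ∈ E i, PP f k j tr| ≤
        1 / (2 * B) * |(c i : ℝ) * ∏ j ∈ E i, PP f k j tr| := by
      have e : (((c i : ℚ) * ∏ j ∈ E i, PP f k j q : ℚ) : ℝ) = (c i : ℝ) * ∏ j ∈ E i, PP f k j (q : ℝ) := by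
        push_cast
        rw [prod_congr rfl (fun j _ => hcastR j)]
      rw [e]
      exact hbr
    obtain ⟨Y, Z, h1, h2, h3, h4⟩ := glueR (a i) (ha i) _ hbQ hsQ T N M
      (fun p => (c i : ℚ_[(p : ℕ)]) * ∏ j ∈ E i, PP f k j (t p)) hsN (fun p => y p i) (fun p => z p i)
      (fun p hp => ((hloc p hp).2.2.1 i).1) (fun p hp => ((hloc p hp).2.2.1 i).2) (fun p hp => (hloc p hp).1.2 i) hsB
      ((c i : ℝ) * ∏ j ∈ E i, PP f k j tr) (yr i) (zr i) (1 / (2 * B)) R (hre.2 i) hbrne (by positivity) (by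
        apply one_div_le_one_div_of_le (by norm_num)
        linarith) hR0 hbr' (by rw [hR]; exact Real.abs_le_sqrt hyi) (by rw [hR]; exact Real.abs_le_sqrt hzi)
    have hfin : ∀ w : ℝ, |w| ≤ 2 * (1 / (2 * B)) * R → B * w ^ 2 ≤ W := by
      intro w hw
      have e : 2 * (1 / (2 * (B : ℝ))) * R = R / B := by field_simp
      rw [e] at hw
      have h5 : w ^ 2 ≤ (R / B) ^ 2 := by
        rw [← sq_abs w]
        exact pow_le_pow_left₀ (abs_nonneg _) hw 2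
      rw [div_pow, hR2] at h5
      calc B * w ^ 2 ≤ B * (B * W / B ^ 2) := mul_le_mul_of_nonneg_left h5 (by linarith)
        _ = W := by field_simp
    exact ⟨Y, Z, h1, h2, hfin _ h3, hfin _ h4⟩
  choose Y Z hYZ1 hYZ2 hYZ3 using hfib
  refine ⟨q, Y, Z, ⟨hPne, hYZ1⟩, fun p hp => ⟨(hqp p hp).trans ?_, fun i => hYZ2 i p hp⟩, ?_, hYZ3⟩
  · have hp1 : (1 : ℝ) < ((p : ℕ) : ℝ) := one_lt_p (p := (p : ℕ))
    apply inv_anti₀ (by positivity)
    exact pow_le_pow_right₀ hp1.le hNN'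
  · have h1 : 2 * (B * |(q : ℝ) - tr|) ≤ B1 * |(q : ℝ) - tr| := by
      nlinarith [abs_nonneg ((q : ℝ) - tr)]
    linarith

end Pool.Agent.Y714.RC
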