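import Pool.Agent.Y714.RC.F2

/-!
The density theorem.
-/

set_option autoImplicit false

namespace Pool.Agent.Y714.RC

open Finset Polynomial Filter Topology
open Pool.Agent.W313.BMX (Splits splits_swap splits_comm splits_mul_sq)
open Pool.Agent.TH204.HP

lemma box_card {s : ℕ} (f : Fin s → ℤ[X]) (B X : ℕ) (hB : 1 ≤ B) : (∏ j, (X : ℝ) ^ (f j).natDegree) ≤ #(box f B X) := by
  unfold box
  rw [Fintype.card_piFinset]
  push_cast
  apply prod_le_prod (fun j _ => by positivity)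
  intro j _
  rw [Int.card_Icc]
  have h1 : X ^ (f j).natDegree ≤ (((B * X ^ (f j).natDegree : ℕ) : ℤ) + 1 - -((B * X ^ (f j).natDegree : ℕ) : ℤ)).toNat := by
    have h2 : X ^ (f j).natDegree ≤ B * X ^ (f j).natDegree := Nat.le_mul_of_pos_left _ hB
    omega
  exact_mod_cast h1

lemma box_sub {s : ℕ} (f g : Fin s → ℤ[X]) (h : ∀ j, (g j).natDegree = (f j).natDegree) (B B' X : ℕ) (hB : B ≤ B') :
    box f B X ⊆ box g B' X := by
  intro k hk
  unfold box at hk ⊢
  rw [Fintype.mem_piFinset] at hk ⊢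
  intro j
  rw [h j]
  have h1 := mem_Icc.1 (hk j)
  have h2 : ((B * X ^ (f j).natDegree : ℕ) : ℤ) ≤ ((B' * X ^ (f j).natDegree : ℕ) : ℤ) := by
    exact_mod_cast Nat.mul_le_mul_right _ hB
  rw [mem_Icc]
  omega

open Classical in
/-- weak approximation for almost all members of the family -/
theorem wam_density {r s : ℕ} (f : Fin s → ℤ[X]) (hf : ∀ j, 1 ≤ (f j).natDegree) (a c : Fin r → ℤ)
    (ha : ∀ S : Finset (Fin r), S.Nonempty → ¬ IsSquare (∏ i ∈ S, a i)) (hc : ∀ i, c i ≠ 0)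
    (E : Fin r → Finset (Fin s)) (hE : ∀ i, (E i).Nonempty) (T : Finset Nat.Primes)
    (hT : ∀ p : Nat.Primes, ((p : ℕ) = 2 ∨ (p : ℕ) ≤ ∑ j, (f j).natDegree ∨ (∃ j, ((p : ℕ) : ℤ) ∣ (f j).leadingCoeff) ∨
      ∃ i, ((p : ℕ) : ℤ) ∣ a i * c i) → p ∈ T) (N B : ℕ) (hB : 1 ≤ B) :
    Tendsto (fun X : ℕ => (#((box f B X).filter (fun k => ¬ WAM f a c E T N B X k)) : ℝ) / #(box f B X)) atTop (𝓝 0) := by
  have ha0 : ∀ i, a i ≠ 0 := by
    intro i h
    apply ha {i} (singleton_nonempty i)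
    rw [prod_singleton, h]
    exact ⟨0, by simp⟩
  obtain ⟨N', B', hBB, hred⟩ := wam_of f hf a c ha0 hc E T N B hB
  have hD : ∀ σ : ℤ, (σ = 1 ∨ σ = -1) → ∀ ε : ℝ, 0 < ε → ∃ Y0 : ℕ, ∀ Y : ℕ, Y0 ≤ Y →
      (#((box (sf σ f) B' Y).filter (fun k => ¬ Good (sf σ f) a c E T N' B' Y k)) : ℝ) ≤ ε * ∏ j, (Y : ℝ) ^ ((sf σ f) j).natDegree := by
    intro σ hσ ε hε
    have hσ0 : σ ≠ 0 := by rcases hσ with h | h <;> rw [h] <;> norm_num
    have hσu : IsUnit σ := by rcases hσ with h | h <;> rw [h] <;> decide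
    apply thmD (sf σ f) (fun j => by rw [sf_deg σ hσ0]; exact hf j) a c ha hc E hE T (fun p hp => hT p (Or.inl hp)) ?_ ?_ ?_ N' B'
      (hB.trans hBB) ε hε
    · rintro p ⟨i, h | h⟩
      · exact hT p (Or.inr (Or.inr (Or.inr ⟨i, h.mul_right _⟩)))
      · exact hT p (Or.inr (Or.inr (Or.inr ⟨i, h.mul_left _⟩)))
    · intro p hp
      rw [sum_congr rfl (fun j _ => sf_deg σ hσ0 f j)] at hp
      exact hT p (Or.inr (Or.inl hp))
    · rintro p ⟨j, h⟩
      rw [sf_lead σ hσ0] at h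
      have h1 : ((p : ℕ) : ℤ) ∣ (f j).leadingCoeff := by
        rcases (Nat.prime_iff_prime_int.1 p.2).dvd_or_dvd h with h | h
        · exact h
        · exact absurd ((Nat.prime_iff_prime_int.1 p.2).dvd_of_dvd_pow h) (fun h2 => (Nat.prime_iff_prime_int.1 p.2).not_unit (isUnit_of_dvd_unit h2 hσu))
      exact hT p (Or.inr (Or.inr (Or.inl ⟨j, h1⟩)))
  rw [Metric.tendsto_atTop]
  intro ε hε
  obtain ⟨Y1, h1⟩ := hD 1 (Or.inl rfl) (ε / 4) (by positivity)
  obtain ⟨Y2, h2⟩ := hD (-1) (Or.inr rfl) (ε / 4) (by positivity)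
  refine ⟨max 1 (max Y1 Y2), fun X hX => ?_⟩
  have hX1 : 1 ≤ X := (le_max_left _ _).trans hX
  have k1 := h1 X ((le_trans (le_max_left _ _) (le_max_right _ _)).trans hX)
  have k2 := h2 X ((le_trans (le_max_right _ _) (le_max_right _ _)).trans hX)
  have hXr : (1 : ℝ) ≤ X := by exact_mod_cast hX1
  obtain ⟨P, hP⟩ : ∃ P : ℝ, P = ∏ j, (X : ℝ) ^ (f j).natDegree := ⟨_, rfl⟩
  have hP0 : 0 < P := by rw [hP]; exact prod_pos fun j _ => by positivity
  have e1 : ∏ j, (X : ℝ) ^ ((sf 1 f) j).natDegree = P := by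
    rw [hP]
    exact prod_congr rfl fun j _ => by rw [sf_deg 1 one_ne_zero]
  have e2 : ∏ j, (X : ℝ) ^ ((sf (-1) f) j).natDegree = P := by
    rw [hP]
    exact prod_congr rfl fun j _ => by rw [sf_deg (-1) (by norm_num)]
  rw [e1] at k1
  rw [e2] at k2
  have hbox := box_card f B X hB
  rw [← hP] at hbox
  have hsub : (box f B X).filter (fun k => ¬ WAM f a c E T N B X k) ⊆
      (box (sf 1 f) B' X).filter (fun k => ¬ Good (sf 1 f) a c E T N' B' X k) ∪
      (box (sf (-1) f) B' X).filter (fun k => ¬ Good (sf (-1) f) a c E T N' B' X k) := by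
    intro k hk
    rw [mem_filter] at hk
    obtain ⟨hk1, hk2⟩ := hk
    rw [mem_union, mem_filter, mem_filter]
    by_contra hcon
    rw [not_or, not_and, not_not, not_and, not_not] at hcon
    exact hk2 (hred X hX1 k (hcon.1 (box_sub f (sf 1 f) (fun j => sf_deg 1 one_ne_zero f j) B B' X hBB hk1))
      (hcon.2 (box_sub f (sf (-1) f) (fun j => sf_deg (-1) (by norm_num) f j) B B' X hBB hk1)))
  have hcard : (#((box f B X).filter (fun k => ¬ WAM f a c E T N B X k)) : ℝ) ≤ ε / 2 * P := by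
    have h3 : (#((box f B X).filter (fun k => ¬ WAM f a c E T N B X k)) : ℝ) ≤
        #((box (sf 1 f) B' X).filter (fun k => ¬ Good (sf 1 f) a c E T N' B' X k)) +
        #((box (sf (-1) f) B' X).filter (fun k => ¬ Good (sf (-1) f) a c E T N' B' X k)) := by
      exact_mod_cast (card_le_card hsub).trans (card_union_le _ _)
    linarith
  rw [Real.dist_eq, sub_zero, abs_of_nonneg (by positivity)]
  have hbp : (0 : ℝ) < #(box f B X) := hP0.trans_le hbox
  rw [div_lt_iff₀ hbp]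
  calc (#((box f B X).filter (fun k => ¬ WAM f a c E T N B X k)) : ℝ) ≤ ε / 2 * P := hcard
    _ ≤ ε / 2 * #(box f B X) := mul_le_mul_of_nonneg_left hbox (by positivity)
    _ < ε * #(box f B X) := by
        apply mul_lt_mul_of_pos_right _ hbp
        linarith

end Pool.Agent.Y714.RC
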